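import Pool.Agent.ExtSum.Defs

/-! Module ISO: `Ext(A,B)` through a resolution `0 → B → C' → V → 0`. -/

set_option autoImplicit false

namespace Pool.Agent.ExtSum

open Cardinal Set

/-- If `0 → B → C' → V → 0` is exact and every homomorphism `R → B → C'` extends to
`(ι →₀ ℤ) → C'`, then `Ext((ι →₀ ℤ) ⧸ R, B)` is `Hom(A,V)` modulo the homomorphisms
which lift to `C'`, `A = (ι →₀ ℤ) ⧸ R`. -/
theorem iso_X {ι B C' V : Type} [AddCommGroup B] [AddCommGroup C'] [AddCommGroup V]
    (R : AddSubgroup (ι →₀ ℤ)) (i : B →+ C') (hi : Function.Injective i) (q : C' →+ V)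
    (hq : Function.Surjective q) (hex : i.range = q.ker)
    (hext : ∀ h : ↥R →+ B, ∃ h' : (ι →₀ ℤ) →+ C', ∀ x : R, h' x = i (h x)) :
    Nonempty (((↥R →+ B) ⧸ (AddMonoidHom.compHom' (P := B) R.subtype).range) ≃+
      ((((ι →₀ ℤ) ⧸ R) →+ V) ⧸ Lft q (⊤ : AddSubgroup ((ι →₀ ℤ) ⧸ R)))) := by
  classical
  -- the correspondence
  let K : AddSubgroup ((↥R →+ B) × ((ι →₀ ℤ) →+ C') × (((ι →₀ ℤ) ⧸ R) →+ V)) :=
    { carrier := {t | (∀ x : R, t.2.1 x = i (t.1 x)) ∧
        ∀ x : ι →₀ ℤ, q (t.2.1 x) = t.2.2 (QuotientAddGroup.mk' R x)}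
      zero_mem' := ⟨fun x => by simp, fun x => by simp⟩
      add_mem' := by
        rintro a b ⟨h1, h2⟩ ⟨h3, h4⟩
        refine ⟨fun x => ?_, fun x => ?_⟩
        · change a.2.1 x + b.2.1 x = i (a.1 x + b.1 x)
          rw [map_add, h1, h3]
        · change q (a.2.1 x + b.2.1 x) = a.2.2 _ + b.2.2 _
          rw [map_add, h2, h4]
      neg_mem' := by
        rintro a ⟨h1, h2⟩
        refine ⟨fun x => ?_, fun x => ?_⟩
        · change -(a.2.1 x) = i (-(a.1 x))
          rw [map_neg, h1]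
        · change q (-(a.2.1 x)) = -(a.2.2 _)
          rw [map_neg, h2] }
  have hqi : ∀ b : B, q (i b) = 0 := by
    intro b
    have : i b ∈ q.ker := by rw [← hex]; exact ⟨b, rfl⟩
    exact this
  have hker : ∀ c : C', q c = 0 → ∃ b : B, i b = c := by
    intro c hc
    have : c ∈ i.range := by rw [hex]; exact hc
    exact this
  -- homomorphisms with values in `ker q` come from `B`
  have hfac : ∀ {Y : Type} [AddCommGroup Y] (f : Y →+ C'), (∀ y, q (f y) = 0) →
      ∃ g : Y →+ B, ∀ y, i (g y) = f y := by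
    intro Y _ f hf
    choose g hg using fun y => hker (f y) (hf y)
    refine ⟨AddMonoidHom.mk' g ?_, fun y => hg y⟩
    intro a b
    apply hi
    rw [map_add, hg, hg, hg, map_add]
  let F1 : K →+ ((↥R →+ B) ⧸ (AddMonoidHom.compHom' (P := B) R.subtype).range) :=
    (QuotientAddGroup.mk' _).comp ((AddMonoidHom.fst _ _).comp K.subtype)
  let F2 : K →+ ((((ι →₀ ℤ) ⧸ R) →+ V) ⧸ Lft q (⊤ : AddSubgroup ((ι →₀ ℤ) ⧸ R))) :=
    (QuotientAddGroup.mk' _).comp ((AddMonoidHom.snd _ _).comp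
      ((AddMonoidHom.snd _ _).comp K.subtype))
  have hF1 : Function.Surjective F1 := by
    intro y
    obtain ⟨r, rfl⟩ := QuotientAddGroup.mk'_surjective _ y
    obtain ⟨h', hh'⟩ := hext r
    have h0 : ∀ x ∈ R, (q.comp h') x = 0 := by
      intro x hx
      have := hh' ⟨x, hx⟩
      simp only [AddMonoidHom.comp_apply]
      rw [show h' x = i (r ⟨x, hx⟩) from this, hqi]
    refine ⟨⟨(r, h', QuotientAddGroup.lift R (q.comp h') h0), ?_, ?_⟩, rfl⟩
    · intro x
      exact hh' x
    · intro x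
      rfl
  have hF2 : Function.Surjective F2 := by
    intro y
    obtain ⟨ψ, rfl⟩ := QuotientAddGroup.mk'_surjective _ y
    choose s hs using hq
    let h' : (ι →₀ ℤ) →+ C' := Finsupp.liftAddHom fun j =>
      (zmultiplesHom C') (s (ψ (QuotientAddGroup.mk' R (Finsupp.single j 1))))
    have hh' : q.comp h' = ψ.comp (QuotientAddGroup.mk' R) := by
      ext j
      simp [h', hs]
    have hh'' : ∀ x, q (h' x) = ψ (QuotientAddGroup.mk' R x) := fun x =>
      DFunLike.congr_fun hh' x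
    obtain ⟨r, hr⟩ := hfac (h'.comp R.subtype) (by
      intro y
      simp only [AddMonoidHom.comp_apply]
      rw [hh'']
      have : QuotientAddGroup.mk' R (R.subtype y) = 0 := by
        rw [← AddMonoidHom.mem_ker, QuotientAddGroup.ker_mk']
        exact y.2
      rw [this, map_zero])
    refine ⟨⟨(r, h', ψ), ?_, ?_⟩, rfl⟩
    · intro x
      exact (hr x).symm
    · intro x
      exact hh'' x
  have hkk : F1.ker = F2.ker := by
    ext ⟨⟨r, h, ψ⟩, h1, h2⟩
    simp only at h1 h2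
    rw [AddMonoidHom.mem_ker, AddMonoidHom.mem_ker]
    have e1 : F1 ⟨(r, h, ψ), h1, h2⟩ = QuotientAddGroup.mk' _ r := rfl
    have e2 : F2 ⟨(r, h, ψ), h1, h2⟩ = QuotientAddGroup.mk' _ ψ := rfl
    rw [e1, e2, ← AddMonoidHom.mem_ker, ← AddMonoidHom.mem_ker, QuotientAddGroup.ker_mk',
      QuotientAddGroup.ker_mk']
    constructor
    · rintro ⟨r', hr'⟩
      have hr'' : ∀ x : R, r x = r' x := fun x => by rw [← hr']; rfl
      let φ0 : (ι →₀ ℤ) →+ C' := h - i.comp r'
      have h0 : ∀ x ∈ R, φ0 x = 0 := by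
        intro x hx
        have := h1 ⟨x, hx⟩
        simp only [φ0, AddMonoidHom.sub_apply, AddMonoidHom.comp_apply]
        rw [show h x = i (r ⟨x, hx⟩) from this, hr'' ⟨x, hx⟩, sub_self]
      refine ⟨QuotientAddGroup.lift R φ0 h0, ?_⟩
      intro x _
      obtain ⟨x, rfl⟩ := QuotientAddGroup.mk'_surjective _ x
      rw [← h2 x]
      change q (φ0 x) = q (h x)
      simp only [φ0, AddMonoidHom.sub_apply, AddMonoidHom.comp_apply, map_sub, hqi, sub_zero]
    · rintro ⟨φ, hφ⟩
      obtain ⟨r', hr'⟩ := hfac (h - φ.comp (QuotientAddGroup.mk' R)) (by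
        intro y
        simp only [AddMonoidHom.sub_apply, AddMonoidHom.comp_apply, map_sub]
        rw [h2 y, hφ _ trivial, sub_self])
      refine ⟨r', ?_⟩
      ext x
      apply hi
      change i (r' x) = i (r x)
      rw [hr', ← h1 x]
      simp only [AddMonoidHom.sub_apply, AddMonoidHom.comp_apply]
      have : QuotientAddGroup.mk' R (x : ι →₀ ℤ) = 0 := by
        rw [← AddMonoidHom.mem_ker, QuotientAddGroup.ker_mk']
        exact x.2
      rw [this, map_zero, sub_zero]
  exact ⟨(QuotientAddGroup.quotientKerEquivOfSurjective F1 hF1).symm.trans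
    ((QuotientAddGroup.quotientAddEquivOfEq hkk).trans
      (QuotientAddGroup.quotientKerEquivOfSurjective F2 hF2))⟩

/-- transport along an isomorphism of the first argument -/
theorem iso_congr {A A' C' V : Type} [AddCommGroup A] [AddCommGroup A'] [AddCommGroup C']
    [AddCommGroup V] (e : A ≃+ A') (q : C' →+ V) :
    Nonempty (((A →+ V) ⧸ Lft q (⊤ : AddSubgroup A)) ≃+
      ((A' →+ V) ⧸ Lft q (⊤ : AddSubgroup A'))) := by
  let E : (A →+ V) ≃+ (A' →+ V) :=
    { toFun := fun f => f.comp e.symm.toAddMonoidHom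
      invFun := fun f => f.comp e.toAddMonoidHom
      left_inv := fun f => by ext x; simp
      right_inv := fun f => by ext x; simp
      map_add' := fun f g => by ext x; simp }
  refine ⟨QuotientAddGroup.congr _ _ E ?_⟩
  ext f
  constructor
  · rintro ⟨f', ⟨g, hg⟩, rfl⟩
    refine ⟨g.comp e.symm.toAddMonoidHom, fun x _ => ?_⟩
    exact hg (e.symm x) trivial
  · rintro ⟨g, hg⟩
    refine ⟨f.comp e.toAddMonoidHom, ⟨g.comp e.toAddMonoidHom, fun x _ => hg (e x) trivial⟩, ?_⟩
    ext x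
    simp [E]

end Pool.Agent.ExtSum
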