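import Pool.Agent.ExtSum.Hom
import Pool.Agent.ExtSum.Iso

/-! Module PRES: divisible hulls, reduced second argument, presentation of `Ext(A,B)` as
`Hom(A,C) ⧸ Lft π ⊤` with `D → C` divisible. -/

set_option autoImplicit false

namespace Pool.Agent.ExtSum

open Cardinal Set

/-- divisible hull -/
theorem hull (B : Type) [AddCommGroup B] :
    ∃ (D : Type) (_ : AddCommGroup D) (i : B →+ D), Function.Injective i ∧ Dvb D ∧
      #D ≤ max #B ℵ₀ := by
  classical
  let p : (B →₀ ℤ) →+ B := (Finsupp.linearCombination ℤ (id : B → B)).toAddMonoidHom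
  have hp : ∀ b : B, ∀ n : ℤ, p (Finsupp.single b n) = n • b := by
    intro b n
    show (Finsupp.linearCombination ℤ (id : B → B)) (Finsupp.single b n) = n • b
    rw [Finsupp.linearCombination_single]
    rfl
  let j : (B →₀ ℤ) →+ (B →₀ ℚ) := Finsupp.mapRange.addMonoidHom (Int.castAddHom ℚ)
  have hj : Function.Injective j := by
    refine Finsupp.mapRange_injective _ (map_zero _) ?_
    intro a b h
    exact Int.cast_injective h
  have hjs : ∀ b : B, j (Finsupp.single b 1) = Finsupp.single b (1 : ℚ) := by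
    intro b
    show Finsupp.mapRange (Int.castAddHom ℚ) (map_zero _) (Finsupp.single b (1 : ℤ)) = _
    rw [Finsupp.mapRange_single]
    simp
  let K : AddSubgroup (B →₀ ℚ) := p.ker.map j
  let mk : (B →₀ ℚ) →+ ((B →₀ ℚ) ⧸ K) := QuotientAddGroup.mk' K
  refine ⟨(B →₀ ℚ) ⧸ K, inferInstance, ?_, ?_, ?_, ?_⟩
  · refine AddMonoidHom.mk' (fun b => mk (Finsupp.single b 1)) ?_
    intro b c
    rw [← map_add]
    show (QuotientAddGroup.mk (Finsupp.single (b + c) (1 : ℚ)) : (B →₀ ℚ) ⧸ K) =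
      QuotientAddGroup.mk (Finsupp.single b (1 : ℚ) + Finsupp.single c 1)
    rw [QuotientAddGroup.eq]
    refine ⟨-Finsupp.single (b + c) (1 : ℤ) + (Finsupp.single b 1 + Finsupp.single c 1), ?_, ?_⟩
    · show p _ = 0
      rw [map_add, map_neg, map_add, hp, hp, hp]
      simp
    · rw [map_add, map_neg, map_add, hjs, hjs, hjs]
  · rw [injective_iff_map_eq_zero]
    intro b hb
    have hb' : (QuotientAddGroup.mk (Finsupp.single b (1 : ℚ)) : (B →₀ ℚ) ⧸ K) = 0 := hb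
    rw [QuotientAddGroup.eq_zero_iff] at hb'
    obtain ⟨k, hk, hk'⟩ := hb'
    rw [← hjs] at hk'
    have h1 := hj hk'
    rw [h1] at hk
    have h2 : p (Finsupp.single b (1 : ℤ)) = 0 := hk
    rw [hp, one_smul] at h2
    exact h2
  · intro n hn x
    obtain ⟨f, rfl⟩ := QuotientAddGroup.mk_surjective x
    refine ⟨mk ((1 / (n : ℚ)) • f), ?_⟩
    rw [← map_nsmul]
    show mk _ = mk f
    congr 1
    rw [← Nat.cast_smul_eq_nsmul ℚ, smul_smul]
    have : (n : ℚ) ≠ 0 := Nat.cast_ne_zero.2 hn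
    rw [mul_one_div_cancel this, one_smul]
  · refine (Cardinal.mk_le_of_surjective (QuotientAddGroup.mk_surjective (s := K))).trans ?_
    have : Nonempty B := ⟨0⟩
    rw [Cardinal.mk_finsupp_of_infinite']
    simp

/-- The largest divisible subgroup. -/
theorem Pres_div (B : Type) [AddCommGroup B] :
    ∃ D₀ : AddSubgroup B, (∀ n : ℕ, n ≠ 0 → ∀ x ∈ D₀, ∃ y ∈ D₀, n • y = x) ∧
      ∀ S : AddSubgroup B, (∀ n : ℕ, n ≠ 0 → ∀ x ∈ S, ∃ y ∈ S, n • y = x) → S ≤ D₀ := by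
  let Dv : Set (AddSubgroup B) := {S | ∀ n : ℕ, n ≠ 0 → ∀ x ∈ S, ∃ y ∈ S, n • y = x}
  have hdv : ∀ S T : AddSubgroup B, S ∈ Dv → T ∈ Dv → S ⊔ T ∈ Dv := by
    intro S T hS hT n hn x hx
    obtain ⟨s, hs, t, ht, rfl⟩ := AddSubgroup.mem_sup.1 hx
    obtain ⟨s', hs', rfl⟩ := hS n hn s hs
    obtain ⟨t', ht', rfl⟩ := hT n hn t ht
    exact ⟨s' + t', add_mem (AddSubgroup.mem_sup_left hs') (AddSubgroup.mem_sup_right ht'),
      nsmul_add _ _ _⟩
  have hne : Dv.Nonempty := ⟨⊥, fun n _ x hx => ⟨0, zero_mem _, by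
    rw [AddSubgroup.mem_bot] at hx
    rw [hx, smul_zero]⟩⟩
  have hdir : DirectedOn (· ≤ ·) Dv := fun S hS T hT =>
    ⟨S ⊔ T, hdv S T hS hT, le_sup_left, le_sup_right⟩
  refine ⟨sSup Dv, ?_, fun S hS => le_sSup hS⟩
  intro n hn x hx
  rw [AddSubgroup.mem_sSup_of_directedOn hne hdir] at hx
  obtain ⟨S, hS, hxS⟩ := hx
  obtain ⟨y, hy, hxy⟩ := hS n hn x hxS
  exact ⟨y, (le_sSup hS : S ≤ sSup Dv) hy, hxy⟩

/-- the divisible part of the second argument can be split off -/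
theorem split_reduced {ι B : Type} [AddCommGroup B] (R : AddSubgroup (ι →₀ ℤ)) :
    ∃ (B' : Type) (_ : AddCommGroup B'), Red B' ∧
      Nonempty (((↥R →+ B) ⧸ (AddMonoidHom.compHom' (P := B) R.subtype).range) ≃+
        ((↥R →+ B') ⧸ (AddMonoidHom.compHom' (P := B') R.subtype).range)) := by
  obtain ⟨D₀, hD₀, hmax⟩ := Pres_div B
  have hdvb : Dvb D₀ := by
    intro n hn x
    obtain ⟨y, hy, hxy⟩ := hD₀ n hn x x.2
    exact ⟨⟨y, hy⟩, Subtype.ext hxy⟩
  let mk : B →+ (B ⧸ D₀) := QuotientAddGroup.mk' D₀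
  have hmk : ∀ x, mk x = 0 ↔ x ∈ D₀ := fun x => QuotientAddGroup.eq_zero_iff x
  have hred : Red (B ⧸ D₀) := by
    intro S' hS'
    have h1 : S'.comap mk ≤ D₀ := by
      refine hmax _ ?_
      intro n hn x hx
      obtain ⟨y', hy', hxy⟩ := hS' n hn (mk x) hx
      obtain ⟨y, rfl⟩ := QuotientAddGroup.mk'_surjective D₀ y'
      have h2 : x - n • y ∈ D₀ := by
        rw [← hmk, map_sub, map_nsmul]
        exact sub_eq_zero.2 hxy.symm
      obtain ⟨d, hd, hd'⟩ := hD₀ n hn _ h2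
      refine ⟨y + d, ?_, ?_⟩
      · show mk (y + d) ∈ S'
        rw [map_add, (hmk d).2 hd, add_zero]
        exact hy'
      · rw [nsmul_add, hd']
        abel
    rw [eq_bot_iff]
    intro x hx
    obtain ⟨y, rfl⟩ := QuotientAddGroup.mk'_surjective D₀ x
    rw [AddSubgroup.mem_bot]
    exact (hmk y).2 (h1 hx)
  -- a retraction and a section
  obtain ⟨r, hr⟩ := fact hdvb D₀.subtype (AddMonoidHom.id D₀) (by
    intro a ha
    exact Subtype.ext ha)
  have hr' : ∀ d ∈ D₀, ((r d : D₀) : B) = d := fun d hd => congrArg Subtype.val (hr ⟨d, hd⟩)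
  let s : (B ⧸ D₀) →+ B := QuotientAddGroup.lift D₀ (AddMonoidHom.id B - D₀.subtype.comp r) (by
    intro d hd
    show d - ((r d : D₀) : B) = 0
    rw [hr' d hd, sub_self])
  have hs : ∀ x : B, s (mk x) = x - ((r x : D₀) : B) := fun x => rfl
  have hms : ∀ y, mk (s y) = y := by
    intro y
    obtain ⟨x, rfl⟩ := QuotientAddGroup.mk'_surjective D₀ y
    show mk (s (mk x)) = mk x
    rw [hs, map_sub, (hmk _).2 (r x).2, sub_zero]
  refine ⟨B ⧸ D₀, inferInstance, hred, ?_⟩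
  let S := (AddMonoidHom.compHom' (P := B) R.subtype).range
  let S' := (AddMonoidHom.compHom' (P := B ⧸ D₀) R.subtype).range
  let Φ : (↥R →+ B) →+ ((↥R →+ (B ⧸ D₀)) ⧸ S') :=
    (QuotientAddGroup.mk' S').comp (AddMonoidHom.compHom mk)
  have hΦ : ∀ φ : ↥R →+ B, Φ φ = QuotientAddGroup.mk' S' (mk.comp φ) := fun φ => rfl
  have hsurj : Function.Surjective Φ := by
    intro y
    obtain ⟨ψ, rfl⟩ := QuotientAddGroup.mk'_surjective S' y
    refine ⟨s.comp ψ, ?_⟩
    rw [hΦ]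
    congr 1
    ext x
    exact hms _
  have hker : Φ.ker = S := by
    ext φ
    rw [AddMonoidHom.mem_ker, hΦ]
    have h0 : QuotientAddGroup.mk' S' (mk.comp φ) = 0 ↔ mk.comp φ ∈ S' :=
      QuotientAddGroup.eq_zero_iff _
    rw [h0]
    constructor
    · rintro ⟨ψ, hψ⟩
      have hψ' : ∀ x : R, ψ (x : ι →₀ ℤ) = mk (φ x) := fun x => DFunLike.congr_fun hψ x
      -- the difference with values in `D₀`
      have hδ : ∀ x : R, φ x - s (ψ (x : ι →₀ ℤ)) ∈ D₀ := by
        intro x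
        rw [← hmk, map_sub, hms, hψ', sub_self]
      let δ : ↥R →+ D₀ := AddMonoidHom.mk' (fun x => ⟨φ x - s (ψ (x : ι →₀ ℤ)), hδ x⟩) (by
        intro a b
        apply Subtype.ext
        show φ (a + b) - s (ψ ((a : ι →₀ ℤ) + b)) = (φ a - s (ψ a)) + (φ b - s (ψ b))
        rw [map_add, map_add, map_add]
        abel)
      obtain ⟨δ', hδ'⟩ := fact hdvb R.subtype δ (by
        intro a ha
        have ha' : a = 0 := Subtype.ext ha
        rw [ha', map_zero])
      refine ⟨s.comp ψ + D₀.subtype.comp δ', ?_⟩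
      ext x
      show s (ψ (x : ι →₀ ℤ)) + ((δ' (x : ι →₀ ℤ) : D₀) : B) = φ x
      have h1 : δ' (x : ι →₀ ℤ) = δ x := hδ' x
      rw [h1]
      show s (ψ (x : ι →₀ ℤ)) + (φ x - s (ψ (x : ι →₀ ℤ))) = φ x
      abel
    · rintro ⟨ψ, rfl⟩
      exact ⟨mk.comp ψ, rfl⟩
  exact ⟨(QuotientAddGroup.quotientAddEquivOfEq hker.symm).trans
    (QuotientAddGroup.quotientKerEquivOfSurjective Φ hsurj)⟩

/-- presentation -/
theorem pres (G : Type) [AddCommGroup G] (h : IsExt G) :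
    ∃ (A D C : Type) (_ : AddCommGroup A) (_ : AddCommGroup D) (_ : AddCommGroup C)
      (π : D →+ C), Function.Surjective π ∧ Dvb D ∧ Dvb C ∧ Red π.ker ∧
      #D ≤ max #π.ker ℵ₀ ∧ Nonempty (G ≃+ ((A →+ C) ⧸ Lft π (⊤ : AddSubgroup A))) := by
  obtain ⟨ι, B₀, _, R, ⟨e₀⟩⟩ := h
  obtain ⟨B, _, hB, ⟨e₁⟩⟩ := split_reduced (B := B₀) R
  obtain ⟨D, _, i, hi, hD, hcard⟩ := hull B
  let π : D →+ (D ⧸ i.range) := QuotientAddGroup.mk' i.range
  have hker : i.range = π.ker := (QuotientAddGroup.ker_mk' i.range).symm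
  have hπ : Function.Surjective π := QuotientAddGroup.mk'_surjective _
  have hmem : ∀ b, i b ∈ π.ker := fun b => hker ▸ ⟨b, rfl⟩
  obtain ⟨e₂⟩ := iso_X R i hi π hπ hker (by
    intro h
    obtain ⟨h', hh'⟩ := fact hD R.subtype (i.comp h) (by
      intro a ha
      have ha' : a = 0 := Subtype.ext ha
      rw [ha', map_zero])
    exact ⟨h', hh'⟩)
  refine ⟨(ι →₀ ℤ) ⧸ R, D, D ⧸ i.range, inferInstance, inferInstance, inferInstance, π, hπ, hD,
    ?_, ?_, ?_, ⟨(e₀.trans e₁).trans e₂⟩⟩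
  · intro n hn x
    obtain ⟨d, rfl⟩ := hπ x
    obtain ⟨y, rfl⟩ := hD n hn d
    exact ⟨π y, (map_nsmul π n y).symm⟩
  · intro S hS
    -- pull back to `B`
    let k : B →+ π.ker := i.codRestrict π.ker hmem
    have hk : ∀ z : π.ker, ∃ b, k b = z := by
      rintro ⟨z, hz⟩
      have hz' : z ∈ i.range := by rw [hker]; exact hz
      obtain ⟨b, hb⟩ := hz'
      exact ⟨b, Subtype.ext hb⟩
    have hkinj : Function.Injective k := by
      intro a b hab
      exact hi (congrArg Subtype.val hab)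
    have h1 := hB (S.comap k) (by
      intro n hn x hx
      obtain ⟨y, hy, hxy⟩ := hS n hn (k x) hx
      obtain ⟨b, rfl⟩ := hk y
      refine ⟨b, hy, hkinj ?_⟩
      rw [map_nsmul]
      exact hxy)
    rw [eq_bot_iff]
    intro z hz
    obtain ⟨b, rfl⟩ := hk z
    have h2 : b ∈ S.comap k := hz
    rw [h1, AddSubgroup.mem_bot] at h2
    rw [AddSubgroup.mem_bot, h2, map_zero]
  · have h1 : #B ≤ #π.ker := Cardinal.mk_le_of_injective (f := fun b => (⟨i b, hmem b⟩ : π.ker))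
      (fun a b hab => hi (congrArg Subtype.val hab))
    exact hcard.trans (max_le_max h1 le_rfl)

end Pool.Agent.ExtSum
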