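import Pool.Agent.ExtSum.Lift

/-! Module TORS: the torsion part of the first argument. -/

set_option autoImplicit false

namespace Pool.Agent.ExtSum

open Cardinal Set

variable {D C A : Type} [AddCommGroup D] [AddCommGroup C] [AddCommGroup A]
variable {π : D →+ C}

theorem TorsA_mem_torsion {n : ℕ} (hn : n ≠ 0) {a : A} (h : n • a ∈ AddCommGroup.torsion A) :
    a ∈ AddCommGroup.torsion A := by
  have h1 : IsOfFinAddOrder (n • a) := h
  show IsOfFinAddOrder a
  rw [isOfFinAddOrder_iff_nsmul_eq_zero] at h1 ⊢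
  obtain ⟨m, hm, h2⟩ := h1
  exact ⟨m * n, Nat.mul_pos hm (Nat.pos_of_ne_zero hn), by rw [mul_smul, h2]⟩

theorem extIm_divisible (hD : Dvb D) (hC : Dvb C) (n : ℕ) (hn : n ≠ 0)
    (x : (A →+ C) ⧸ Lft π (⊤ : AddSubgroup A)) (hx : x ∈ ExtIm π (AddCommGroup.torsion A)) :
    ∃ y ∈ ExtIm π (AddCommGroup.torsion A), n • y = x := by
  obtain ⟨f, hf, rfl⟩ := hx
  obtain ⟨g, hg⟩ := hf
  obtain ⟨χ, hχ⟩ := fact (A := A) (Y := A ⧸ AddCommGroup.torsion A) hC
    ((QuotientAddGroup.mk' (AddCommGroup.torsion A)).comp (n • AddMonoidHom.id A))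
    (f - π.comp g) (by
      intro a ha
      have h1 : n • a ∈ AddCommGroup.torsion A := by
        rw [← QuotientAddGroup.eq_zero_iff]
        simpa using ha
      have h2 : a ∈ AddCommGroup.torsion A := TorsA_mem_torsion hn h1
      simp [hg a h2])
  set y : A →+ C := χ.comp (QuotientAddGroup.mk' (AddCommGroup.torsion A)) with hy
  refine ⟨QuotientAddGroup.mk' _ y, ⟨y, ?_, rfl⟩, ?_⟩
  · refine ⟨0, fun t ht => ?_⟩
    have : (QuotientAddGroup.mk' (AddCommGroup.torsion A)) t = 0 := by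
      rw [QuotientAddGroup.mk'_apply, QuotientAddGroup.eq_zero_iff]; exact ht
    simp only [AddMonoidHom.zero_apply, map_zero, hy, AddMonoidHom.comp_apply, this]
  · have h1 : n • y = f - π.comp g := by
      ext a
      rw [← hχ a]
      simp [hy]
    rw [← map_nsmul, h1, map_sub]
    have h2 : (QuotientAddGroup.mk' (Lft π (⊤ : AddSubgroup A))) (π.comp g) = 0 := by
      rw [QuotientAddGroup.mk'_apply, QuotientAddGroup.eq_zero_iff]
      exact ⟨g, fun x _ => rfl⟩
    rw [h2, sub_zero]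

theorem ext_torsion_reduced (hD : Dvb D) (hC : Dvb C) :
    Red ((A →+ C) ⧸ Lft π (AddCommGroup.torsion A)) := by
  classical
  intro S hS
  rw [eq_bot_iff]
  intro x hx
  -- the divided sequence
  have hstep : ∀ (k : ℕ) (x : S), ∃ y : S, (k + 1) • y.val = x.val := by
    intro k x
    obtain ⟨y, hy, hyx⟩ := hS (k+1) (Nat.succ_ne_zero k) x x.2
    exact ⟨⟨y, hy⟩, hyx⟩
  choose u hu using hstep
  let s : ℕ → S := fun k => Nat.rec (motive := fun _ => S) ⟨x, hx⟩ (fun k y => u k y) k
  have hs : ∀ k, (k + 1) • (s (k+1)).val = (s k).val := fun k => hu k (s k)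
  have hf : ∀ k, ∃ f : A →+ C,
      (QuotientAddGroup.mk' (Lft π (AddCommGroup.torsion A)) f) = (s k).val := fun k =>
    QuotientAddGroup.mk'_surjective _ _
  choose f hf using hf
  have hg : ∀ k, ∃ g : A →+ D, ∀ t ∈ AddCommGroup.torsion A,
      π (g t) = f k t - (k + 1) • f (k+1) t := by
    intro k
    have h1 : f k - (k + 1) • f (k+1) ∈ Lft π (AddCommGroup.torsion A) := by
      rw [← QuotientAddGroup.eq_zero_iff, ← QuotientAddGroup.mk'_apply, map_sub, map_nsmul,
        hf k, hf (k+1), hs k, sub_self]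
    obtain ⟨g, hg⟩ := h1
    exact ⟨g, fun t ht => by rw [hg t ht]; simp⟩
  choose g hg using hg
  have hsum : ∀ t ∈ AddCommGroup.torsion A, ∀ k : ℕ,
      f 0 t = k.factorial • f k t + π (∑ j ∈ Finset.range k, j.factorial • g j t) := by
    intro t ht k
    induction k with
    | zero => simp
    | succ k ih =>
      rw [ih, Finset.sum_range_succ, map_add, map_nsmul, hg k t ht, Nat.factorial_succ,
        smul_sub, ← mul_smul, mul_comm (k+1)]
      abel
  -- torsion kills high terms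
  have hkill : ∀ {t : A} {m : ℕ}, 0 < m → m • t = 0 → ∀ j, m ≤ j → ∀ {E : Type} [AddCommGroup E]
      (φ : A →+ E), j.factorial • φ t = 0 := by
    intro t m hm hmt j hj E _ φ
    obtain ⟨c, hc⟩ := Nat.dvd_factorial hm hj
    rw [← map_nsmul, hc, mul_comm, mul_smul, hmt, smul_zero, map_zero]
  have hfin : ∀ t : AddCommGroup.torsion A,
      ((Function.support fun j : ℕ => j.factorial • g j (t : A))).Finite := by
    intro t
    have h1 : IsOfFinAddOrder (t : A) := t.2
    rw [isOfFinAddOrder_iff_nsmul_eq_zero] at h1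
    obtain ⟨m, hm, hmt⟩ := h1
    refine (Set.finite_lt_nat m).subset ?_
    intro j hj
    by_contra hjm
    exact hj (hkill hm hmt j (not_lt.1 hjm) (g j))
  let g' : AddCommGroup.torsion A →+ D :=
    AddMonoidHom.mk' (fun t => ∑ᶠ j : ℕ, j.factorial • g j (t : A)) (by
      intro a b
      rw [← finsum_add_distrib (hfin a) (hfin b)]
      apply finsum_congr
      intro j
      simp)
  have hg' : ∀ t : AddCommGroup.torsion A, π (g' t) = f 0 t := by
    intro t
    have h1 : IsOfFinAddOrder (t : A) := t.2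
    rw [isOfFinAddOrder_iff_nsmul_eq_zero] at h1
    obtain ⟨m, hm, hmt⟩ := h1
    have h2 : g' t = ∑ j ∈ Finset.range m, j.factorial • g j (t : A) := by
      show ∑ᶠ j : ℕ, j.factorial • g j (t : A) = _
      apply finsum_eq_sum_of_support_subset
      intro j hj
      simp only [Finset.coe_range, Set.mem_Iio]
      by_contra hjm
      exact hj (hkill hm hmt j (not_lt.1 hjm) (g j))
    rw [h2, hsum t t.2 m, hkill hm hmt m le_rfl (f m), zero_add]
  obtain ⟨χ, hχ⟩ := fact hD (AddCommGroup.torsion A).subtype g' (by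
    intro a ha
    have : a = 0 := Subtype.ext ha
    rw [this, map_zero])
  have h0 : f 0 ∈ Lft π (AddCommGroup.torsion A) := by
    refine ⟨χ, fun t ht => ?_⟩
    have := hχ ⟨t, ht⟩
    have h3 : χ t = g' ⟨t, ht⟩ := this
    rw [h3, hg']
  have : (x : (A →+ C) ⧸ Lft π (AddCommGroup.torsion A)) = 0 := by
    have h1 : QuotientAddGroup.mk' _ (f 0) = x := hf 0
    rw [← h1, QuotientAddGroup.mk'_apply, QuotientAddGroup.eq_zero_iff]
    exact h0
  exact this

/-- If `Ext(A,B) ≅ V × R` with `V` divisible and `R` reduced then the image of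
`Ext(A/T,B)` has the cardinality of `V` and `Ext(T,B) ≅ R`. -/
theorem tors_split (hD : Dvb D) (hC : Dvb C) {V R : Type} [AddCommGroup V] [AddCommGroup R]
    (hV : Dvb V) (hR : Red R)
    (e : Nonempty ((V × R) ≃+ ((A →+ C) ⧸ Lft π (⊤ : AddSubgroup A)))) :
    #(ExtIm π (AddCommGroup.torsion A)) = #V ∧
      Nonempty (((A →+ C) ⧸ Lft π (AddCommGroup.torsion A)) ≃+ R) := by
  classical
  obtain ⟨e⟩ := e
  set T := AddCommGroup.torsion A with hT
  -- V goes into ExtIm
  have h1 : ∀ v : V, e (v, 0) ∈ ExtIm π T := by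
    let m : ((A →+ C) ⧸ Lft π (⊤ : AddSubgroup A)) →+ ((A →+ C) ⧸ Lft π T) :=
      QuotientAddGroup.map _ _ (AddMonoidHom.id _) (Lft_anti le_top)
    let Ψ : V →+ ((A →+ C) ⧸ Lft π T) :=
      (m.comp e.toAddMonoidHom).comp (AddMonoidHom.inl V R)
    have hΨ : Ψ.range = ⊥ := by
      apply ext_torsion_reduced hD hC
      rintro n hn _ ⟨v, rfl⟩
      obtain ⟨w, hw⟩ := hV n hn v
      exact ⟨Ψ w, ⟨w, rfl⟩, by rw [← map_nsmul, hw]⟩
    intro v
    have h2 : Ψ v = 0 := by
      have : Ψ v ∈ Ψ.range := ⟨v, rfl⟩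
      rw [hΨ] at this
      exact this
    obtain ⟨f, hf⟩ := QuotientAddGroup.mk'_surjective (Lft π (⊤ : AddSubgroup A)) (e (v, 0))
    refine ⟨f, ?_, hf⟩
    have h3 : m (e (v, 0)) = 0 := h2
    rw [← hf] at h3
    have h4 : ((f : A →+ C) : (A →+ C) ⧸ Lft π T) = 0 := h3
    rwa [QuotientAddGroup.eq_zero_iff] at h4
  -- ExtIm goes into V
  have h2 : ∀ x ∈ ExtIm π T, (e.symm x).2 = 0 := by
    let Φ : ((A →+ C) ⧸ Lft π (⊤ : AddSubgroup A)) →+ R :=
      (AddMonoidHom.snd V R).comp e.symm.toAddMonoidHom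
    have hΦ : (ExtIm π T).map Φ = ⊥ := by
      apply hR
      rintro n hn _ ⟨x, hx, rfl⟩
      obtain ⟨y, hy, hyx⟩ := extIm_divisible hD hC n hn x hx
      exact ⟨Φ y, ⟨y, hy, rfl⟩, by rw [← map_nsmul, hyx]⟩
    intro x hx
    have : Φ x ∈ (ExtIm π T).map Φ := ⟨x, hx, rfl⟩
    rw [hΦ] at this
    exact this
  constructor
  · symm
    apply Cardinal.mk_congr
    refine Equiv.ofBijective (fun v => (⟨e (v, 0), h1 v⟩ : ExtIm π T)) ⟨?_, ?_⟩
    · intro v w hvw
      have h3 : e (v, 0) = e (w, 0) := congrArg Subtype.val hvw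
      have h4 := e.injective h3
      exact congrArg Prod.fst h4
    · rintro ⟨x, hx⟩
      refine ⟨(e.symm x).1, Subtype.ext ?_⟩
      have h3 := h2 x hx
      show e ((e.symm x).1, 0) = x
      rw [← h3]
      exact e.apply_symm_apply x
  · let Φ : (A →+ C) →+ R :=
      ((AddMonoidHom.snd V R).comp e.symm.toAddMonoidHom).comp
        (QuotientAddGroup.mk' (Lft π (⊤ : AddSubgroup A)))
    have hΦs : Function.Surjective Φ := by
      intro r
      obtain ⟨f, hf⟩ := QuotientAddGroup.mk'_surjective (Lft π (⊤ : AddSubgroup A)) (e (0, r))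
      refine ⟨f, ?_⟩
      show (e.symm (QuotientAddGroup.mk' (Lft π (⊤ : AddSubgroup A)) f)).2 = r
      rw [hf, e.symm_apply_apply]
    have hker : Φ.ker = Lft π T := by
      ext f
      rw [AddMonoidHom.mem_ker]
      constructor
      · intro h
        have h3 : (e.symm (QuotientAddGroup.mk' (Lft π (⊤ : AddSubgroup A)) f)).2 = 0 := h
        have h4 := h1 (e.symm (QuotientAddGroup.mk' (Lft π (⊤ : AddSubgroup A)) f)).1
        have h5 : e ((e.symm (QuotientAddGroup.mk' (Lft π (⊤ : AddSubgroup A)) f)).1, 0) =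
            QuotientAddGroup.mk' (Lft π (⊤ : AddSubgroup A)) f := by
          rw [← h3]
          exact e.apply_symm_apply _
        rw [h5] at h4
        obtain ⟨f', hf', hff'⟩ := h4
        have h6 : (f' : (A →+ C) ⧸ Lft π (⊤ : AddSubgroup A)) = (f : (A →+ C) ⧸ _) := hff'
        rw [QuotientAddGroup.eq] at h6
        have h7 : -f' + f ∈ Lft π T := Lft_anti le_top h6
        have h8 := (Lft π T).add_mem hf' h7
        simpa using h8
      · intro h
        exact h2 _ ⟨f, h, rfl⟩
    exact ⟨(QuotientAddGroup.quotientAddEquivOfEq hker.symm).trans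
      (QuotientAddGroup.quotientKerEquivOfSurjective Φ hΦs)⟩

end Pool.Agent.ExtSum
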