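import Pool.Agent.ExtSum.Hom

/-! Module LIFT: the relation `L`, the subgroups `Lft`, the cardinals `ext`. -/

set_option autoImplicit false

namespace Pool.Agent.ExtSum

open Cardinal Set

variable {D C X Y : Type} [AddCommGroup D] [AddCommGroup C] [AddCommGroup X] [AddCommGroup Y]
variable {π : D →+ C}

theorem Lft_anti {M N : AddSubgroup X} (h : M ≤ N) : Lft π N ≤ Lft π M := by
  rintro f ⟨g, hg⟩
  exact ⟨g, fun x hx => hg x (h hx)⟩

theorem L.lift {H G : AddSubgroup X} (h : L π H G) (f : X →+ C) (g₀ : X →+ D)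
    (hg : ∀ x ∈ H, π (g₀ x) = f x) :
    ∃ g : X →+ D, (∀ x ∈ H, g x = g₀ x) ∧ ∀ x ∈ G, π (g x) = f x := by
  obtain ⟨g, hg1, hg2⟩ := h (f - π.comp g₀) (fun x hx => by simp [hg x hx])
  refine ⟨g + g₀, fun x hx => by simp [hg1 x hx], fun x hx => ?_⟩
  simp [hg2 x hx]

theorem L.mono {H G G' : AddSubgroup X} (h : L π H G) (hG : G' ≤ G) : L π H G' := by
  intro f hf
  obtain ⟨g, h1, h2⟩ := h f hf
  exact ⟨g, h1, fun x hx => h2 x (hG hx)⟩

theorem L.trans {H G K : AddSubgroup X} (h1 : L π H G) (h2 : L π G K) (hHG : H ≤ G) :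
    L π H K := by
  intro f hf
  obtain ⟨g₁, hg1, hg2⟩ := h1 f hf
  obtain ⟨g, hg3, hg4⟩ := h2.lift f g₁ hg2
  exact ⟨g, fun x hx => (hg3 x (hHG hx)).trans (hg1 x hx), hg4⟩

theorem L_of_le {H G : AddSubgroup X} (h : G ≤ H) : L π H G := by
  intro f hf
  exact ⟨0, fun x _ => rfl, fun x hx => by simp [hf x (h hx)]⟩

theorem L_bot_iff {M : AddSubgroup X} : L π ⊥ M ↔ Lft π M = ⊤ := by
  constructor
  · intro h
    rw [eq_top_iff]
    intro f _
    obtain ⟨g, _, hg⟩ := h f (fun x hx => by simp [(AddSubgroup.mem_bot).1 hx])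
    exact ⟨g, hg⟩
  · intro h f _
    have : f ∈ Lft π M := by rw [h]; trivial
    obtain ⟨g, hg⟩ := this
    exact ⟨g, fun x hx => by simp [(AddSubgroup.mem_bot).1 hx], hg⟩

/-- A homomorphism defined on `A` that is trivial on `P ⊓ A` can be changed outside `A` so that it
kills `P`. -/
theorem Lift_change (hD : Dvb D) {P A : AddSubgroup X} (g : X →+ D)
    (hg : ∀ x ∈ P ⊓ A, g x = 0) :
    ∃ g' : X →+ D, (∀ x ∈ P, g' x = 0) ∧ ∀ x ∈ A, g' x = g x := by
  let φ : (↥P × ↥A) →+ X := (P.subtype.comp (AddMonoidHom.fst P A)) +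
    (A.subtype.comp (AddMonoidHom.snd P A))
  let ψ : (↥P × ↥A) →+ D := (g.comp A.subtype).comp (AddMonoidHom.snd P A)
  obtain ⟨χ, hχ⟩ := fact hD φ ψ (by
    rintro ⟨p, a⟩ h
    have h1 : (p : X) + (a : X) = 0 := by simpa [φ] using h
    have h2 : (a : X) ∈ P := by
      have : (a : X) = -(p : X) := by rw [eq_neg_iff_add_eq_zero, add_comm]; exact h1
      rw [this]; exact P.neg_mem p.2
    show g (a : X) = 0
    exact hg _ ⟨h2, a.2⟩)
  refine ⟨χ, fun x hx => ?_, fun x hx => ?_⟩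
  · have := hχ (⟨x, hx⟩, 0)
    simpa [φ, ψ] using this
  · have := hχ (0, ⟨x, hx⟩)
    simpa [φ, ψ] using this

/-- second isomorphism theorem -/
theorem L_second (hD : Dvb D) {P A : AddSubgroup X} (h : L π (P ⊓ A) A) : L π P A := by
  intro f hf
  obtain ⟨g, h1, h2⟩ := h f (fun x hx => hf x hx.1)
  obtain ⟨g', h3, h4⟩ := Lift_change hD g h1
  exact ⟨g', h3, fun x hx => by rw [h4 x hx]; exact h2 x hx⟩

theorem L_modular (hD : Dvb D) {P Q H : AddSubgroup X} (hPQ : P ≤ Q)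
    (h : L π ((H ⊓ Q) ⊔ P) Q) : L π (H ⊔ P) Q := by
  apply L_second hD
  have : (H ⊔ P) ⊓ Q = (H ⊓ Q) ⊔ P := by
    rw [sup_comm H P, sup_comm (H ⊓ Q) P, sup_inf_assoc_of_le _ hPQ]
  rw [this]
  exact h

theorem L_map (hD : Dvb D) (hC : Dvb C) (φ : Y →+ X) {H K : AddSubgroup Y} (hk : φ.ker ≤ H) :
    L π (H.map φ) (K.map φ) ↔ L π H K := by
  constructor
  · intro h f hf
    obtain ⟨f', hf'⟩ := fact hC φ f (fun a ha => hf a (hk ha))
    obtain ⟨g', h1, h2⟩ := h f' (by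
      rintro x ⟨y, hy, rfl⟩
      rw [hf']; exact hf y hy)
    refine ⟨g'.comp φ, fun x hx => h1 _ ⟨x, hx, rfl⟩, fun x hx => ?_⟩
    rw [AddMonoidHom.comp_apply, h2 _ ⟨x, hx, rfl⟩, hf']
  · intro h f' hf'
    obtain ⟨g, h1, h2⟩ := h (f'.comp φ) (fun x hx => hf' _ ⟨x, hx, rfl⟩)
    obtain ⟨g', hg'⟩ := fact hD φ g (fun a ha => h1 a (hk ha))
    refine ⟨g', ?_, ?_⟩
    · rintro x ⟨y, hy, rfl⟩
      rw [hg']; exact h1 y hy
    · rintro x ⟨y, hy, rfl⟩
      rw [hg', h2 y hy]; rfl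

theorem Lft_eq {H G : AddSubgroup X} (h : L π H G) (hHG : H ≤ G) : Lft π H = Lft π G := by
  apply le_antisymm _ (Lft_anti hHG)
  rintro f ⟨g₀, hg₀⟩
  obtain ⟨g, _, hg⟩ := h.lift f g₀ hg₀
  exact ⟨g, hg⟩

theorem Lift_ext_le_of_le {P Q : AddSubgroup (X →+ C)} (h : P ≤ Q) :
    #((X →+ C) ⧸ Q) ≤ #((X →+ C) ⧸ P) := by
  refine Cardinal.mk_le_of_surjective
    (f := QuotientAddGroup.map P Q (AddMonoidHom.id _) (by simpa using h)) ?_
  intro y
  obtain ⟨f, rfl⟩ := QuotientAddGroup.mk_surjective y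
  exact ⟨(f : (X →+ C) ⧸ P), rfl⟩

theorem ext_mono {M N : AddSubgroup X} (h : M ≤ N) : ext π M ≤ ext π N :=
  Lift_ext_le_of_le (Lft_anti h)

theorem ext_map (hD : Dvb D) (hC : Dvb C) (φ : Y →+ X) (hφ : Function.Injective φ)
    (K : AddSubgroup Y) : ext π (K.map φ) = ext π K := by
  have hker : ∀ a, φ a = 0 → a = 0 := fun a ha => hφ (by rw [ha, map_zero])
  have hmem : ∀ f : X →+ C, f ∈ Lft π (K.map φ) ↔ f.comp φ ∈ Lft π K := by
    intro f
    constructor
    · rintro ⟨g, hg⟩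
      exact ⟨g.comp φ, fun x hx => hg _ ⟨x, hx, rfl⟩⟩
    · rintro ⟨g, hg⟩
      obtain ⟨g', hg'⟩ := fact hD φ g (fun a ha => by rw [hker a ha, map_zero])
      refine ⟨g', ?_⟩
      rintro x ⟨y, hy, rfl⟩
      rw [hg']; exact hg y hy
  let res : (X →+ C) →+ (Y →+ C) := AddMonoidHom.compHom' φ
  have hres : ∀ f, res f = f.comp φ := fun f => rfl
  have hle : Lft π (K.map φ) ≤ (Lft π K).comap res := fun f hf => (hmem f).1 hf
  let Ψ : ((X →+ C) ⧸ Lft π (K.map φ)) →+ ((Y →+ C) ⧸ Lft π K) :=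
    QuotientAddGroup.map _ _ res hle
  apply Cardinal.mk_congr
  refine Equiv.ofBijective Ψ ⟨?_, ?_⟩
  · rw [injective_iff_map_eq_zero]
    intro a ha
    obtain ⟨f, rfl⟩ := QuotientAddGroup.mk_surjective a
    have : ((res f : Y →+ C) : (Y →+ C) ⧸ Lft π K) = 0 := ha
    rw [QuotientAddGroup.eq_zero_iff] at this
    rw [QuotientAddGroup.eq_zero_iff]
    exact (hmem f).2 this
  · intro b
    obtain ⟨f, rfl⟩ := QuotientAddGroup.mk_surjective b
    obtain ⟨f', hf'⟩ := fact hC φ f (fun a ha => by rw [hker a ha, map_zero])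
    refine ⟨(f' : (X →+ C) ⧸ Lft π (K.map φ)), ?_⟩
    have : res f' = f := by ext y; exact hf' y
    show ((res f' : Y →+ C) : (Y →+ C) ⧸ Lft π K) = _
    rw [this]

theorem ext_le (M : AddSubgroup X) : ext π M ≤ #C ^ #M := by
  classical
  have hinj : Function.Injective
      (fun (c : (X →+ C) ⧸ Lft π M) => (fun (m : M) => (c.out : X →+ C) (m : X))) := by
    intro a b hab
    have h1 : ∀ m ∈ M, (a.out : X →+ C) m = (b.out : X →+ C) m := fun m hm =>
      congrFun hab ⟨m, hm⟩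
    rw [← QuotientAddGroup.out_eq' a, ← QuotientAddGroup.out_eq' b]
    rw [QuotientAddGroup.eq]
    refine ⟨0, fun x hx => ?_⟩
    simp [h1 x hx]
  calc ext π M ≤ #(M → C) := Cardinal.mk_le_of_injective hinj
    _ = #C ^ #M := by rw [Cardinal.power_def]

/-- Eklof's lemma -/
theorem L_chain (hD : Dvb D) {I : Type} [LinearOrder I] [WellFoundedLT I] (P : AddSubgroup X)
    (Q : I → AddSubgroup X) (hQ : Monotone Q) (h : ∀ i, L π (P ⊔ ⨆ j < i, Q j) (Q i)) :
    L π P (⨆ i, Q i) := by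
  intro f hf
  by_cases hI : Nonempty I
  swap
  · have hI' : IsEmpty I := not_nonempty_iff.1 hI
    refine ⟨0, fun _ _ => rfl, fun x hx => ?_⟩
    rw [iSup_of_empty] at hx
    simp [(AddSubgroup.mem_bot).1 hx]
  obtain ⟨g, hg⟩ := rec_hom (I := I) hD (fun i => P ⊔ Q i) (fun a b hab => sup_le_sup_left (hQ hab) P)
    (fun i g => (∀ x ∈ P, g x = 0) ∧ ∀ x ∈ Q i, π (g x) = f x)
    (by
      rintro i g g' hgg' ⟨h1, h2⟩
      exact ⟨fun x hx => (hgg' x (AddSubgroup.mem_sup_left hx)).symm.trans (h1 x hx),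
        fun x hx => by rw [← hgg' x (AddSubgroup.mem_sup_right hx)]; exact h2 x hx⟩)
    (by
      intro i g hgj
      by_cases hne : ∃ j, j < i
      · obtain ⟨j0, hj0⟩ := hne
        have hgP : ∀ x ∈ P, g x = 0 := (hgj j0 hj0).1
        have hgS : ∀ x ∈ P ⊔ ⨆ j < i, Q j, π (g x) = f x := by
          have hle : P ⊔ (⨆ j < i, Q j) ≤ (π.comp g - f).ker := by
            refine sup_le ?_ (iSup₂_le ?_)
            · intro x hx
              rw [AddMonoidHom.mem_ker]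
              simp [hgP x hx, hf x hx]
            · intro j hj x hx
              rw [AddMonoidHom.mem_ker]
              simp [(hgj j hj).2 x hx]
          intro x hx
          have := hle hx
          rw [AddMonoidHom.mem_ker] at this
          simpa [sub_eq_zero] using this
        obtain ⟨g', h1, h2⟩ := (h i).lift f g hgS
        have hmono : ∀ j < i, P ⊔ Q j ≤ P ⊔ ⨆ k < i, Q k := fun j hj =>
          sup_le_sup_left (le_iSup₂ (f := fun (k : I) (_ : k < i) => Q k) j hj) P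
        refine ⟨g', ?_, ?_, h2⟩
        · intro j hj x hx
          exact h1 x (hmono j hj hx)
        · intro x hx
          rw [h1 x (AddSubgroup.mem_sup_left hx)]
          exact hgP x hx
      · have hbot : (⨆ j < i, Q j) = ⊥ := by
          rw [eq_bot_iff]
          exact iSup₂_le (fun j hj => (hne ⟨j, hj⟩).elim)
        have hi := h i
        rw [hbot, sup_bot_eq] at hi
        obtain ⟨g', h1, h2⟩ := hi f hf
        exact ⟨g', fun j hj => (hne ⟨j, hj⟩).elim, h1, h2⟩)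
  obtain ⟨i0⟩ := hI
  refine ⟨g, (hg i0).1, ?_⟩
  have hle : (⨆ i, Q i) ≤ (π.comp g - f).ker := by
    refine iSup_le (fun i x hx => ?_)
    rw [AddMonoidHom.mem_ker]
    simp [(hg i).2 x hx]
  intro x hx
  have := hle hx
  rw [AddMonoidHom.mem_ker] at this
  simpa [sub_eq_zero] using this

end Pool.Agent.ExtSum
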