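import Pool.Agent.ExtSum.Hom
import Pool.Agent.ExtSum.Lift

/-! Module TORS2: bounds from `Ext(T,B) ≅ ∏ ℤ/p`. -/

set_option autoImplicit false

namespace Pool.Agent.ExtSum

open Cardinal Set

variable {D C A : Type} [AddCommGroup D] [AddCommGroup C] [AddCommGroup A]
variable {π : D →+ C}

/-- if `B = ker π` is `p`-divisible then so is `Ext(A,B)` -/
theorem ext_pdiv (hD : Dvb D) (hC : Dvb C) (hπ : Function.Surjective π) (p : ℕ)
    (hB : ∀ b ∈ π.ker, ∃ b' ∈ π.ker, p • b' = b) (f : A →+ C) :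
    ∃ (f' : A →+ C) (g : A →+ D), ∀ x, f x = π (g x) + p • f' x := by
  let Ψ : D × C →+ C :=
    { toFun := fun x => π x.1 + p • x.2
      map_zero' := by simp
      map_add' := by
        intro x y
        show π (x.1 + y.1) + p • (x.2 + y.2) = π x.1 + p • x.2 + (π y.1 + p • y.2)
        rw [map_add, smul_add]
        abel }
  have hΨ : ∀ x : D × C, Ψ x = π x.1 + p • x.2 := fun _ => rfl
  have hK : ∀ x : D × C, x ∈ Ψ.ker → ∃ e : D, x = (-(p • e), π e) := by
    rintro ⟨d, c⟩ hx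
    have hx : π d + p • c = 0 := hx
    obtain ⟨e, he⟩ := hπ c
    have h1 : d + p • e ∈ π.ker := by
      rw [AddMonoidHom.mem_ker, map_add, map_nsmul, he]
      exact hx
    obtain ⟨b, hb, hpb⟩ := hB _ h1
    refine ⟨e - b, ?_⟩
    rw [AddMonoidHom.mem_ker] at hb
    rw [map_sub, hb, sub_zero, he, nsmul_sub, hpb]
    ext
    · show d = -(p • e - (d + p • e))
      abel
    · rfl
  have hKd : Dvb Ψ.ker := by
    rintro n hn ⟨x, hx⟩
    obtain ⟨e, he⟩ := hK x hx
    obtain ⟨e', he'⟩ := hD n hn e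
    refine ⟨⟨(-(p • e'), π e'), ?_⟩, ?_⟩
    · rw [AddMonoidHom.mem_ker, hΨ]
      show π (-(p • e')) + p • π e' = 0
      rw [map_neg, map_nsmul, neg_add_cancel]
    · ext
      · show n • (-(p • e')) = x.1
        rw [he, ← he', smul_neg, smul_comm]
      · show n • π e' = x.2
        rw [he, ← he', map_nsmul]
  obtain ⟨r, hr⟩ := fact hKd Ψ.ker.subtype (AddMonoidHom.id _) (by
    intro a ha
    rw [AddSubgroup.subtype_apply] at ha
    rw [AddMonoidHom.id_apply]
    exact Subtype.ext ha)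
  have hDC : Dvb (D × C) := by
    intro n hn x
    obtain ⟨d, hd⟩ := hD n hn x.1
    obtain ⟨c, hc⟩ := hC n hn x.2
    exact ⟨(d, c), by ext <;> assumption⟩
  obtain ⟨χ, hχ⟩ := fact hDC Ψ (AddMonoidHom.id _ - Ψ.ker.subtype.comp r) (by
    intro a ha
    have h1 := hr ⟨a, ha⟩
    rw [AddSubgroup.subtype_apply, AddMonoidHom.id_apply] at h1
    rw [AddMonoidHom.sub_apply, AddMonoidHom.id_apply, AddMonoidHom.comp_apply, h1]
    exact sub_self a)
  have hχ2 : ∀ c, Ψ (χ c) = c := by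
    intro c
    obtain ⟨d, hd⟩ := hπ c
    have h1 : Ψ (d, 0) = c := by
      rw [hΨ]
      show π d + p • (0 : C) = c
      rw [smul_zero, add_zero, hd]
    rw [← h1, hχ, AddMonoidHom.sub_apply, map_sub, AddMonoidHom.id_apply]
    have h2 : Ψ ((Ψ.ker.subtype.comp r) (d, 0)) = 0 := (r (d, 0)).2
    rw [h2, sub_zero]
  refine ⟨(AddMonoidHom.snd D C).comp (χ.comp f), (AddMonoidHom.fst D C).comp (χ.comp f),
    fun x => ?_⟩
  exact (hχ2 (f x)).symm

/-- the equality of classes modulo `Lft` -/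
theorem Tors2_eq {T : AddSubgroup A} {f f' : A →+ C}
    (h : (QuotientAddGroup.mk f : (A →+ C) ⧸ Lft π T) = QuotientAddGroup.mk f') :
    ∃ g : A →+ D, ∀ x ∈ T, π (g x) = f x - f' x := by
  rw [QuotientAddGroup.eq_iff_sub_mem] at h
  obtain ⟨g, hg⟩ := h
  exact ⟨g, fun x hx => by rw [hg x hx, AddMonoidHom.sub_apply]⟩

/-- there is `p`-torsion -/
theorem exists_ptorsion (hD : Dvb D) (hC : Dvb C) (hπ : Function.Surjective π)
    (e : Nonempty (((A →+ C) ⧸ Lft π (AddCommGroup.torsion A)) ≃+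
      (∀ p : Nat.Primes, ZMod p))) (p : ℕ) (hp : p.Prime) :
    ∃ t : A, t ≠ 0 ∧ p • t = 0 := by
  obtain ⟨e⟩ := e
  by_contra hcon
  push Not at hcon
  have h1 : ∀ t : A, p • t = 0 → t = 0 := fun t ht => by
    by_contra h
    exact hcon t h ht
  have hdiv : ∀ t ∈ AddCommGroup.torsion A, ∃ t' ∈ AddCommGroup.torsion A, p • t' = t := by
    intro t ht
    have hfin : IsOfFinAddOrder t := ht
    have hn : 0 < addOrderOf t := hfin.addOrderOf_pos
    have hcop : Nat.Coprime p (addOrderOf t) := by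
      rw [Nat.Prime.coprime_iff_not_dvd hp]
      rintro ⟨m, hm⟩
      have h2 : m • t = 0 := by
        apply h1
        rw [smul_smul, ← hm]
        exact addOrderOf_nsmul_eq_zero t
      have h3 := addOrderOf_dvd_iff_nsmul_eq_zero.2 h2
      have hm0 : 0 < m := by
        rcases Nat.eq_zero_or_pos m with h | h
        · rw [h, mul_zero] at hm
          omega
        · exact h
      have h4 := Nat.le_of_dvd hm0 h3
      have h5 : 1 < p := hp.one_lt
      have h6 : m * 2 ≤ m * p := Nat.mul_le_mul_left m h5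
      rw [hm, mul_comm p m] at h4
      omega
    have hb := Nat.gcd_eq_gcd_ab p (addOrderOf t)
    rw [hcop.gcd_eq_one] at hb
    refine ⟨(Nat.gcdA p (addOrderOf t)) • t, AddSubgroup.zsmul_mem _ ht _, ?_⟩
    have h2 : ((1 : ℕ) : ℤ) • t = t := by simp
    have h3 : ((p : ℤ) * Nat.gcdA p (addOrderOf t)) • t = p • (Nat.gcdA p (addOrderOf t) • t) := by
      rw [mul_smul, natCast_zsmul]
    have h4 : ((addOrderOf t : ℤ) * Nat.gcdB p (addOrderOf t)) • t = 0 := by
      rw [mul_comm, mul_smul, natCast_zsmul, addOrderOf_nsmul_eq_zero, smul_zero]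
    rw [hb, add_smul, h3, h4, add_zero] at h2
    exact h2
  -- the element which is `1` at `p`
  let x : ∀ q : Nat.Primes, ZMod q := Pi.single ⟨p, hp⟩ 1
  have hx : p • x = 0 := by
    funext q
    show p • x q = 0
    by_cases hq : q = ⟨p, hp⟩
    · subst hq
      rw [nsmul_eq_mul]
      have h3 : ((p : ℕ) : ZMod ((⟨p, hp⟩ : Nat.Primes) : ℕ)) = 0 := ZMod.natCast_self p
      rw [h3, zero_mul]
    · have : x q = 0 := Pi.single_eq_of_ne hq 1
      rw [this, smul_zero]
  have hx0 : x ≠ 0 := by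
    intro h
    have h2 : x ⟨p, hp⟩ = 0 := congrFun h ⟨p, hp⟩
    have h3 : x ⟨p, hp⟩ = 1 := Pi.single_eq_same _ _
    have : Fact p.Prime := ⟨hp⟩
    exact one_ne_zero (α := ZMod p) (h3.symm.trans h2)
  obtain ⟨f, hf⟩ := QuotientAddGroup.mk_surjective (e.symm x)
  have hpf : (QuotientAddGroup.mk (p • f) : (A →+ C) ⧸ Lft π (AddCommGroup.torsion A)) =
      QuotientAddGroup.mk 0 := by
    have h2 : (QuotientAddGroup.mk (p • f) : (A →+ C) ⧸ Lft π (AddCommGroup.torsion A)) =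
        p • QuotientAddGroup.mk f := rfl
    have h3 : (QuotientAddGroup.mk 0 : (A →+ C) ⧸ Lft π (AddCommGroup.torsion A)) = 0 := rfl
    rw [h2, h3, hf, ← map_nsmul, hx, map_zero]
  obtain ⟨g, hg⟩ := Tors2_eq hpf
  obtain ⟨χ, hχ⟩ := fact hD (p • (AddCommGroup.torsion A).subtype)
    (g.comp (AddCommGroup.torsion A).subtype) (by
      intro a ha
      have h2 : p • (a : A) = 0 := ha
      have h3 : (a : A) = 0 := h1 _ h2
      show g (a : A) = 0
      rw [h3, map_zero])
  have hfL : f ∈ Lft π (AddCommGroup.torsion A) := by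
    refine ⟨χ, fun t ht => ?_⟩
    obtain ⟨t', ht', rfl⟩ := hdiv t ht
    have h2 : χ (p • t') = g t' := hχ ⟨t', ht'⟩
    rw [h2, hg t' ht', AddMonoidHom.zero_apply, sub_zero, AddMonoidHom.smul_apply, map_nsmul]
  have h2 : (QuotientAddGroup.mk f : (A →+ C) ⧸ Lft π (AddCommGroup.torsion A)) = 0 :=
    (QuotientAddGroup.eq_zero_iff f).2 hfL
  rw [h2] at hf
  apply hx0
  have h3 := congrArg e hf
  rw [map_zero, e.apply_symm_apply] at h3
  exact h3.symm

/-- the class of `1` at `p` generates the product modulo `p` -/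
theorem Tors2_prod (p : ℕ) (hp : p.Prime) (x : ∀ q : Nat.Primes, ZMod q) :
    ∃ (k : ℤ) (y : ∀ q : Nat.Primes, ZMod q),
      x = k • (Pi.single ⟨p, hp⟩ 1 : ∀ q : Nat.Primes, ZMod q) + p • y := by
  classical
  have h1 : ∀ q : Nat.Primes, q ≠ ⟨p, hp⟩ → ∃ y : ZMod q, x q = p • y := by
    intro q hq
    have : Fact (q : ℕ).Prime := ⟨q.2⟩
    have h2 : ((p : ℕ) : ZMod q) ≠ 0 := by
      intro h
      rw [ZMod.natCast_eq_zero_iff] at h
      have h3 := (Nat.prime_dvd_prime_iff_eq q.2 hp).1 h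
      exact hq (Subtype.ext h3)
    refine ⟨((p : ℕ) : ZMod q)⁻¹ * x q, ?_⟩
    rw [nsmul_eq_mul, ← mul_assoc, mul_inv_cancel₀ h2, one_mul]
  choose! y hy using h1
  obtain ⟨k, hk⟩ := ZMod.intCast_surjective (n := ((⟨p, hp⟩ : Nat.Primes) : ℕ)) (x ⟨p, hp⟩)
  refine ⟨k, Function.update y ⟨p, hp⟩ 0, ?_⟩
  funext q
  rw [Pi.add_apply, Pi.smul_apply, Pi.smul_apply]
  by_cases hq : q = ⟨p, hp⟩
  · subst hq
    have h1 : (Pi.single (⟨p, hp⟩ : Nat.Primes) 1 : ∀ q : Nat.Primes, ZMod q) ⟨p, hp⟩ = 1 :=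
      Pi.single_eq_same _ _
    have h2 : Function.update y (⟨p, hp⟩ : Nat.Primes) 0 ⟨p, hp⟩ = 0 := Function.update_self _ _ _
    have h3 : x ⟨p, hp⟩ = k • (Pi.single (⟨p, hp⟩ : Nat.Primes) 1 : ∀ q : Nat.Primes, ZMod q)
        ⟨p, hp⟩ + p • Function.update y (⟨p, hp⟩ : Nat.Primes) 0 ⟨p, hp⟩ := by
      rw [h1, h2, smul_zero, add_zero, zsmul_eq_mul, mul_one, hk]
    exact h3
  · rw [Pi.single_eq_of_ne hq, smul_zero, zero_add, Function.update_of_ne hq]
    exact hy q hq

theorem ker_cyclic (hD : Dvb D) (hC : Dvb C) (hπ : Function.Surjective π)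
    (e : Nonempty (((A →+ C) ⧸ Lft π (AddCommGroup.torsion A)) ≃+
      (∀ p : Nat.Primes, ZMod p))) (p : ℕ) (hp : p.Prime) :
    ∃ b₀ : π.ker, ∀ b : π.ker, ∃ (k : ℤ) (b' : π.ker), b = k • b₀ + p • b' := by
  obtain ⟨t, ht0, hpt⟩ := exists_ptorsion hD hC hπ e p hp
  obtain ⟨e⟩ := e
  have htT : t ∈ AddCommGroup.torsion A := by
    show IsOfFinAddOrder t
    rw [isOfFinAddOrder_iff_nsmul_eq_zero]
    exact ⟨p, hp.pos, hpt⟩
  obtain ⟨f₀, hf₀⟩ := QuotientAddGroup.mk_surjective (e.symm (Pi.single ⟨p, hp⟩ 1))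
  obtain ⟨d₀, hd₀⟩ := hπ (f₀ t)
  refine ⟨⟨p • d₀, ?_⟩, ?_⟩
  · rw [AddMonoidHom.mem_ker, map_nsmul, hd₀, ← map_nsmul, hpt, map_zero]
  rintro ⟨b, hb⟩
  rw [AddMonoidHom.mem_ker] at hb
  obtain ⟨d, hd⟩ := hD p hp.ne_zero b
  -- a homomorphism with value `π d` at `t`
  have hdvd : ∀ n : ℤ, n • t = 0 → (p : ℤ) ∣ n := by
    intro n hn
    by_contra h
    have hcop : IsCoprime (p : ℤ) n :=
      ((Nat.prime_iff_prime_int.1 hp).coprime_iff_not_dvd).2 h
    obtain ⟨u, v, huv⟩ := hcop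
    apply ht0
    have h2 : (1 : ℤ) • t = t := one_smul _ _
    rw [← huv, add_smul, mul_smul, mul_smul, hn, natCast_zsmul, hpt, smul_zero, smul_zero,
      add_zero] at h2
    exact h2.symm
  obtain ⟨f, hf⟩ := fact hC (zmultiplesHom A t) (zmultiplesHom C (π d)) (by
    intro n hn
    rw [zmultiplesHom_apply] at hn ⊢
    obtain ⟨m, rfl⟩ := hdvd n hn
    rw [mul_comm, mul_smul, natCast_zsmul, ← map_nsmul, hd, hb, smul_zero])
  have hft : f t = π d := by
    have h2 := hf 1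
    rwa [zmultiplesHom_apply, zmultiplesHom_apply, one_smul, one_smul] at h2
  obtain ⟨k, y, hky⟩ := Tors2_prod p hp (e (QuotientAddGroup.mk f))
  obtain ⟨f₁, hf₁⟩ := QuotientAddGroup.mk_surjective (e.symm y)
  have h3 : (QuotientAddGroup.mk f : (A →+ C) ⧸ Lft π (AddCommGroup.torsion A)) =
      QuotientAddGroup.mk (k • f₀ + p • f₁) := by
    have h4 : (QuotientAddGroup.mk (k • f₀ + p • f₁) :
        (A →+ C) ⧸ Lft π (AddCommGroup.torsion A)) =
        k • QuotientAddGroup.mk f₀ + p • QuotientAddGroup.mk f₁ := rfl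
    rw [h4, hf₀, hf₁]
    apply e.injective
    rw [hky, map_add, map_zsmul, map_nsmul, e.apply_symm_apply, e.apply_symm_apply]
  obtain ⟨g, hg⟩ := Tors2_eq h3
  have h5 := hg t htT
  rw [AddMonoidHom.add_apply, AddMonoidHom.smul_apply, AddMonoidHom.smul_apply, ← map_nsmul f₁,
    hpt, map_zero, add_zero, hft, ← hd₀] at h5
  refine ⟨k, ⟨d - k • d₀ - g t, ?_⟩, ?_⟩
  · rw [AddMonoidHom.mem_ker, map_sub, map_sub, map_zsmul, h5, sub_self]
  · apply Subtype.ext
    show b = k • (p • d₀) + p • (d - k • d₀ - g t)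
    rw [nsmul_sub, nsmul_sub, hd, ← map_nsmul g, hpt, map_zero, sub_zero, smul_comm k p]
    abel

/-- The product of all `ℤ/p` has at most continuum many elements. -/
theorem Tors2_card_prod : #(∀ p : Nat.Primes, ZMod p) ≤ 𝔠 := by
  have h1 : #(∀ p : Nat.Primes, ZMod p) ≤ #(Nat.Primes → ℕ) := by
    refine mk_le_of_injective (f := fun x q => (x q).val) ?_
    intro x y hxy
    funext q
    have : NeZero (q : ℕ) := ⟨q.2.ne_zero⟩
    exact ZMod.val_injective q (congrFun hxy q)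
  refine h1.trans ?_
  rw [← power_def, mk_nat]
  refine (power_le_power_left aleph0_ne_zero mk_le_aleph0).trans ?_
  rw [aleph0_power_aleph0]

theorem Tors2_vec (p : ℕ) [Fact p.Prime] {V W : Type} [AddCommGroup V] [Module (ZMod p) V]
    (F : (V →ₗ[ZMod p] ZMod p) → W) (hF : ∀ χ χ', F χ = F χ' → ∀ v, χ v - χ' v ≠ 1) :
    #V ≤ #W := by
  classical
  have h1 : #(V →ₗ[ZMod p] ZMod p) ≤ #W := by
    refine mk_le_of_injective (f := F) ?_
    intro χ χ' hχ
    by_contra hne
    obtain ⟨v, hv⟩ : ∃ v, χ v ≠ χ' v := by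
      by_contra h
      push Not at h
      exact hne (LinearMap.ext h)
    have hv : χ v - χ' v ≠ 0 := sub_ne_zero.2 hv
    apply hF χ χ' hχ ((χ v - χ' v)⁻¹ • v)
    rw [map_smul, map_smul, smul_eq_mul, smul_eq_mul, ← mul_sub, inv_mul_cancel₀ hv]
  have h2 : #V ≤ #(V →ₗ[ZMod p] ZMod p) := by
    refine mk_le_of_injective (f := (Module.Basis.ofVectorSpace (ZMod p) V).toDual) ?_
    intro a b h
    exact Module.Basis.toDual_injective _ h
  exact h2.trans h1

theorem Tors2_card_p (hD : Dvb D) (hC : Dvb C) (hπ : Function.Surjective π)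
    (e : Nonempty (((A →+ C) ⧸ Lft π (AddCommGroup.torsion A)) ≃+
      (∀ p : Nat.Primes, ZMod p))) (p : ℕ) (hp : p.Prime) :
    #{a : A // p • a = 0} ≤ 𝔠 := by
  obtain ⟨e⟩ := e
  have : Fact p.Prime := ⟨hp⟩
  -- `B` is not `p`-divisible
  have hnot : ∃ b₁ ∈ π.ker, ∀ b' ∈ π.ker, p • b' ≠ b₁ := by
    by_contra hcon
    push Not at hcon
    obtain ⟨f, hf⟩ := QuotientAddGroup.mk_surjective (e.symm (Pi.single ⟨p, hp⟩ 1))
    obtain ⟨f', g, hfg⟩ := ext_pdiv hD hC hπ p hcon f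
    have h1 : (QuotientAddGroup.mk f : (A →+ C) ⧸ Lft π (AddCommGroup.torsion A)) =
        QuotientAddGroup.mk (p • f') := by
      rw [QuotientAddGroup.eq_iff_sub_mem]
      refine ⟨g, fun x _ => ?_⟩
      rw [AddMonoidHom.sub_apply, hfg x, AddMonoidHom.smul_apply, add_sub_cancel_right]
    have h2 : (QuotientAddGroup.mk (p • f') : (A →+ C) ⧸ Lft π (AddCommGroup.torsion A)) =
        p • QuotientAddGroup.mk f' := rfl
    rw [hf, h2] at h1
    have h3 := congrArg e h1
    rw [e.apply_symm_apply, map_nsmul] at h3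
    have h4 : (Pi.single (⟨p, hp⟩ : Nat.Primes) 1 : ∀ q : Nat.Primes, ZMod q) ⟨p, hp⟩ =
        p • (e (QuotientAddGroup.mk f')) ⟨p, hp⟩ := congrFun h3 ⟨p, hp⟩
    have h6 : (Pi.single (⟨p, hp⟩ : Nat.Primes) 1 : ∀ q : Nat.Primes, ZMod q) ⟨p, hp⟩ = 1 :=
      Pi.single_eq_same _ _
    have h5 : ((p : ℕ) : ZMod ((⟨p, hp⟩ : Nat.Primes) : ℕ)) = 0 := ZMod.natCast_self p
    rw [nsmul_eq_mul, h5, zero_mul, h6] at h4
    exact one_ne_zero (α := ZMod p) h4
  obtain ⟨b₁, hb₁, hb₁'⟩ := hnot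
  rw [AddMonoidHom.mem_ker] at hb₁
  obtain ⟨d₁, hd₁⟩ := hD p hp.ne_zero b₁
  let V : AddSubgroup A :=
    { carrier := {a | p • a = 0}
      zero_mem' := smul_zero p
      add_mem' := by
        intro a b ha hb
        have ha : p • a = 0 := ha
        have hb : p • b = 0 := hb
        show p • (a + b) = 0
        rw [smul_add, ha, hb, add_zero]
      neg_mem' := by
        intro a ha
        have ha : p • a = 0 := ha
        show p • (-a) = 0
        rw [smul_neg, ha, neg_zero] }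
  have hV : ∀ v : V, p • v = 0 := fun v => Subtype.ext v.2
  letI : Module (ZMod p) V := AddCommGroup.zmodModule hV
  let θ : ZMod p →+ C := ZMod.lift p ⟨zmultiplesHom C (π d₁), by
    rw [zmultiplesHom_apply, natCast_zsmul, ← map_nsmul, hd₁, hb₁]⟩
  have hθ : θ 1 = π d₁ := by
    have h1 := ZMod.lift_coe p (⟨zmultiplesHom C (π d₁), by
      rw [zmultiplesHom_apply, natCast_zsmul, ← map_nsmul, hd₁, hb₁]⟩ :
        {f : ℤ →+ C // f p = 0}) 1
    rw [Int.cast_one] at h1
    rw [show θ 1 = _ from h1]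
    show zmultiplesHom C (π d₁) 1 = π d₁
    rw [zmultiplesHom_apply, one_smul]
  have hf : ∀ χ : V →+ ZMod p, ∃ f : A →+ C, ∀ v : V, f v = θ (χ v) := by
    intro χ
    obtain ⟨f, hf⟩ := fact hC V.subtype (θ.comp χ) (by
      intro v hv
      have h2 : v = 0 := Subtype.ext hv
      rw [h2, map_zero])
    exact ⟨f, fun v => hf v⟩
  choose F hF using hf
  have h1 : #V ≤ #(∀ p : Nat.Primes, ZMod p) := by
    refine Tors2_vec p (fun χ => e (QuotientAddGroup.mk (F χ.toAddMonoidHom))) ?_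
    intro χ χ' hχ v' h3
    have h2 := Tors2_eq (e.injective hχ)
    obtain ⟨g, hg⟩ := h2
    have hv'T : (v' : A) ∈ AddCommGroup.torsion A := by
      show IsOfFinAddOrder (v' : A)
      rw [isOfFinAddOrder_iff_nsmul_eq_zero]
      exact ⟨p, hp.pos, v'.2⟩
    have h4 := hg v' hv'T
    rw [hF, hF, ← map_sub] at h4
    have h4 : π (g v') = θ 1 := by
      rw [h4]
      exact congrArg θ h3
    rw [hθ] at h4
    have h5 : d₁ - g v' ∈ π.ker := by
      rw [AddMonoidHom.mem_ker, map_sub, h4, sub_self]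
    apply hb₁' _ h5
    have h6 : p • (v' : A) = 0 := v'.2
    rw [nsmul_sub, hd₁, ← map_nsmul, h6, map_zero, sub_zero]
  exact h1.trans Tors2_card_prod

theorem tors_card (hD : Dvb D) (hC : Dvb C) (hπ : Function.Surjective π)
    (e : Nonempty (((A →+ C) ⧸ Lft π (AddCommGroup.torsion A)) ≃+
      (∀ p : Nat.Primes, ZMod p))) :
    #(AddCommGroup.torsion A) ≤ 𝔠 := by
  have h1 : ∀ n : ℕ, n ≠ 0 → #{a : A // n • a = 0} ≤ 𝔠 := by
    intro n
    induction n using induction_on_primes with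
    | zero => exact fun h => absurd rfl h
    | one =>
      intro _
      have : Subsingleton {a : A // 1 • a = 0} := ⟨fun a b => Subtype.ext (by
        have ha := a.2
        have hb := b.2
        rw [one_smul] at ha hb
        rw [ha, hb])⟩
      exact (le_one_iff_subsingleton.2 this).trans (one_lt_aleph0.le.trans aleph0_le_continuum)
    | prime_mul p n hp ih =>
      intro hpn
      have hn : n ≠ 0 := right_ne_zero_of_mul hpn
      have h2 := ih hn
      have h3 := Tors2_card_p hD hC hπ e p hp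
      classical
      let s : {a : A // n • a = 0} → A := fun y =>
        if h : ∃ a : A, p • a = y.1 then h.choose else 0
      have hs : ∀ a : A, ∀ y : {a : A // n • a = 0}, p • a = y.1 → p • s y = y.1 := by
        intro a y h
        have h4 : ∃ a : A, p • a = y.1 := ⟨a, h⟩
        have h5 : s y = h4.choose := dif_pos h4
        rw [h5]
        exact h4.choose_spec
      have h4 : ∀ a : {a : A // (p * n) • a = 0}, n • (p • a.1) = 0 := by
        intro a
        rw [smul_smul, mul_comm n p]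
        exact a.2
      let ψ : {a : A // (p * n) • a = 0} → {a : A // n • a = 0} × {a : A // p • a = 0} :=
        fun a => (⟨p • a.1, h4 a⟩, ⟨a.1 - s ⟨p • a.1, h4 a⟩, by
          rw [nsmul_sub, hs a.1 _ rfl, sub_self]⟩)
      have h5 : Function.Injective ψ := by
        intro a b hab
        have h6 : (⟨p • a.1, h4 a⟩ : {a : A // n • a = 0}) = ⟨p • b.1, h4 b⟩ :=
          congrArg Prod.fst hab
        have h7 : a.1 - s ⟨p • a.1, h4 a⟩ = b.1 - s ⟨p • b.1, h4 b⟩ :=
          congrArg (fun q => (q.2 : A)) hab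
        rw [h6] at h7
        exact Subtype.ext (sub_left_injective h7)
      have h6 := mk_le_of_injective h5
      rw [mk_prod, lift_id, lift_id] at h6
      refine h6.trans ((mul_le_mul' h2 h3).trans ?_)
      rw [continuum_mul_self]
  have h2 : (AddCommGroup.torsion A : Set A) = ⋃ n : ℕ, {a : A | (n + 1) • a = 0} := by
    ext a
    rw [mem_iUnion]
    constructor
    · intro h
      have h : IsOfFinAddOrder a := h
      rw [isOfFinAddOrder_iff_nsmul_eq_zero] at h
      obtain ⟨n, hn, h⟩ := h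
      exact ⟨n - 1, by
        show (n - 1 + 1) • a = 0
        rw [Nat.sub_add_cancel hn]; exact h⟩
    · rintro ⟨n, hn⟩
      show IsOfFinAddOrder a
      rw [isOfFinAddOrder_iff_nsmul_eq_zero]
      exact ⟨n + 1, Nat.succ_pos n, hn⟩
  have h3 : #(AddCommGroup.torsion A) = #(AddCommGroup.torsion A : Set A) := rfl
  rw [h3, h2]
  refine (mk_iUnion_le _).trans ?_
  refine (mul_le_mul' (mk_le_aleph0 (α := ℕ)) (ciSup_le' (a := 𝔠) fun n => ?_)).trans ?_
  · exact h1 (n + 1) (Nat.succ_ne_zero n)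
  · rw [aleph0_mul_continuum]

end Pool.Agent.ExtSum
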