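import Pool.Agent.ExtSum.Defs

/-! Module CARD: cardinalities of subgroups, clubs of closure points, increments. -/

set_option autoImplicit false

namespace Pool.Agent.ExtSum

open Cardinal Set

variable {X : Type} [AddCommGroup X]

theorem mk_closure_le (Y : Set X) : #(AddSubgroup.closure Y) ≤ max #Y ℵ₀ := by
  have h1 : ((AddSubgroup.closure Y : AddSubgroup X) : Set X) =
      Set.range (Finsupp.linearCombination ℤ (Subtype.val : Y → X)) := by
    rw [← Submodule.span_int_eq_addSubgroupClosure]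
    ext x
    rw [Submodule.coe_toAddSubgroup, SetLike.mem_coe, Finsupp.mem_span_iff_linearCombination]
    rfl
  calc #(AddSubgroup.closure Y) = #((AddSubgroup.closure Y : AddSubgroup X) : Set X) := rfl
    _ ≤ #(Y →₀ ℤ) := by rw [h1]; exact mk_range_le
    _ ≤ max #Y ℵ₀ := by
      rcases isEmpty_or_nonempty Y with h | h
      · have : #(Y →₀ ℤ) ≤ 1 := by
          rw [Cardinal.le_one_iff_subsingleton]; infer_instance
        exact this.trans (one_le_aleph0.trans (le_max_right _ _))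
      · simp

theorem card_mk_closure_le_of {Y : Set X} {θ : Cardinal.{0}} (hθ : ℵ₀ ≤ θ) (hY : #Y ≤ θ) :
    #(AddSubgroup.closure Y) ≤ θ :=
  (mk_closure_le Y).trans (max_le hY hθ)

theorem mk_iSup_le {I : Type} (A : I → AddSubgroup X) (θ : Cardinal.{0}) (hθ : ℵ₀ ≤ θ)
    (hI : #I ≤ θ) (hA : ∀ i, #(A i) ≤ θ) : #(⨆ i, A i : AddSubgroup X) ≤ θ := by
  rw [AddSubgroup.iSup_eq_closure]
  refine card_mk_closure_le_of hθ ?_
  refine (mk_iUnion_le _).trans ?_
  refine (mul_le_mul' hI (ciSup_le' hA)).trans ?_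
  rw [mul_eq_self hθ]

theorem mk_sup_le {A B : AddSubgroup X} {θ : Cardinal.{0}} (hθ : ℵ₀ ≤ θ) (hA : #A ≤ θ)
    (hB : #B ≤ θ) : #(A ⊔ B : AddSubgroup X) ≤ θ := by
  rw [AddSubgroup.sup_eq_closure]
  refine card_mk_closure_le_of hθ ?_
  refine (mk_union_le _ _).trans ?_
  refine (add_le_add hA hB).trans ?_
  rw [add_eq_self hθ]

/-- transfinite choice of increments -/
theorem exists_inc {I : Type} [LinearOrder I] [WellFoundedLT I]
    (Φ : AddSubgroup X → AddSubgroup X) :
    ∃ A : I → AddSubgroup X, ∀ i, A i = Φ (⨆ j < i, A j) := by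
  refine ⟨WellFounded.fix (C := fun _ => AddSubgroup X) (wellFounded_lt (α := I))
    (fun i F => Φ (⨆ (j : I) (h : j < i), F j h)), fun i => ?_⟩
  rw [WellFounded.fix_eq]

section
variable {α : Type} [LinearOrder α] [WellFoundedLT α] [IsRegularCardinalOrder α]

theorem mk_Iio_lt (hα : ℵ₀ < #α) (a : α) : #(Iio a) < #α :=
  Cardinal.mk_Iio_lt a Cardinal.ord_cardinalMk

theorem bdd_of_mk_lt (hα : ℵ₀ < #α) (S : Set α) (hS : #S < #α) : ∃ a, ∀ s ∈ S, s < a := by
  rw [← not_isCofinal_iff]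
  intro h
  have := Order.cof_le h
  rw [Order.cof_eq_cardinalMk] at this
  exact absurd hS (not_lt.mpr this)

theorem isClub_closed (hα : ℵ₀ < #α) (h : α → α) : IsClub {a | ∀ b < a, h b < a} := by
  refine ⟨?_, ?_⟩
  · rw [dirSupClosed_iff_of_linearOrder]
    intro d hd hne a ha b hb
    obtain ⟨c, hc, hbc⟩ := (lt_isLUB_iff ha).1 hb
    exact (hd hc b hbc).trans_le (ha.1 hc)
  · intro x
    have hstep : ∀ y : α, ∃ z : α, y < z ∧ ∀ b ≤ y, h b < z := by
      intro y
      obtain ⟨z, hz⟩ := bdd_of_mk_lt hα (insert y (h '' (Iic y))) (by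
        refine (mk_insert_le).trans_lt ?_
        have h1 : #(Iic y) < #α := by
          rw [← Iio_insert]
          refine (mk_insert_le).trans_lt ?_
          exact add_lt_of_lt hα.le (mk_Iio_lt hα y) (one_lt_aleph0.trans hα)
        exact add_lt_of_lt hα.le (mk_image_le.trans_lt h1) (one_lt_aleph0.trans hα))
      exact ⟨z, hz y (mem_insert _ _), fun b hb => hz _ (mem_insert_of_mem _ ⟨b, hb, rfl⟩)⟩
    choose nx hnx1 hnx2 using hstep
    let g : ℕ → α := fun n => nx^[n] x
    have hg : ∀ n, g (n + 1) = nx (g n) := fun n => Function.iterate_succ_apply' nx n x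
    obtain ⟨u, hu⟩ := bdd_of_mk_lt hα (range g) (by
      refine lt_of_le_of_lt ?_ hα
      exact mk_range_le.trans (by simp))
    -- least upper bound
    let U : Set α := upperBounds (range g)
    have hUne : U.Nonempty := ⟨u, fun s hs => (hu s hs).le⟩
    have hUlub : IsLUB (range g) (WellFounded.min (wellFounded_lt (α := α)) U hUne) :=
      ⟨WellFounded.min_mem _ _ _, fun y hy => not_lt.1 (WellFounded.not_lt_min _ U hy)⟩
    refine ⟨_, ?_, hUlub.1 ⟨0, rfl⟩⟩
    intro b hb
    obtain ⟨_, ⟨n, rfl⟩, hbn⟩ := (lt_isLUB_iff hUlub).1 hb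
    have := hnx2 (g n) b hbn.le
    rw [← hg] at this
    exact this.trans_le (hUlub.1 ⟨n + 1, rfl⟩)

theorem card_isRegular (hα : ℵ₀ < #α) : (#α).IsRegular := by
  refine ⟨hα.le, ?_⟩
  rw [Cardinal.ord_cardinalMk (α := α), Ordinal.cof_type, Order.cof_eq_cardinalMk]

/-- In a regular cardinal, increments of size `< #α` give partial sums of size `< #α`. -/
theorem mk_partial_lt (hα : ℵ₀ < #α) (A : α → AddSubgroup X) (hA : ∀ a, #(A a) < #α) (a : α) :
    #(⨆ b < a, A b : AddSubgroup X) < #α := by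
  have h1 : (⨆ b < a, A b : AddSubgroup X) = ⨆ b : Iio a, A b := by
    rw [iSup_subtype']; rfl
  rw [h1, AddSubgroup.iSup_eq_closure]
  refine (mk_closure_le _).trans_lt (max_lt ?_ hα)
  exact (card_iUnion_lt_iff_forall_of_isRegular (card_isRegular hα) (mk_Iio_lt hα a)).2
    fun i => hA i

/-- Increments that stay of size `≤ θ` below `succ θ`. -/
theorem mk_partial_le {θ : Cardinal.{0}} (hθ : ℵ₀ ≤ θ) (hα : #α = Order.succ θ)
    (A : α → AddSubgroup X)
    (hA : ∀ a, #(⨆ b < a, A b : AddSubgroup X) ≤ θ → #(A a) ≤ θ) (a : α) :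
    #(⨆ b < a, A b : AddSubgroup X) ≤ θ ∧ #(A a) ≤ θ := by
  induction a using WellFoundedLT.induction with
  | ind a ih =>
    have h2 : #(⨆ b < a, A b : AddSubgroup X) ≤ θ := by
      have h1 : (⨆ b < a, A b : AddSubgroup X) = ⨆ b : Iio a, A b := by
        rw [iSup_subtype']; rfl
      rw [h1]
      refine mk_iSup_le _ θ hθ ?_ fun i => (ih i.1 i.2).2
      have h3 : ℵ₀ < #α := by rw [hα]; exact Order.lt_succ_of_le hθ
      have := mk_Iio_lt h3 a
      rw [hα] at this
      exact Order.lt_succ_iff.1 this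
    exact ⟨h2, hA a h2⟩

end

/-- every regular cardinal is the cardinal of a regular cardinal order -/
theorem exists_regular_order (κ : Cardinal.{0}) (hκ : κ.IsRegular) :
    ∃ (α : Type) (_ : LinearOrder α) (_ : WellFoundedLT α) (_ : IsRegularCardinalOrder α),
      #α = κ := by
  refine ⟨κ.ord.ToType, inferInstance, inferInstance, ⟨?_⟩, by simp⟩
  rw [Ordinal.cof_toType, hκ.cof_ord, Ordinal.type_toType]

end Pool.Agent.ExtSum
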