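import Pool.Agent.ExtSum.Lift
import Pool.Agent.ExtSum.Card

/-! Module BETHA. -/

set_option autoImplicit false

namespace Pool.Agent.ExtSum

open Cardinal Set Ordinal

variable {D C : Type} [AddCommGroup D] [AddCommGroup C]
variable {π : D →+ C} {ρ : Cardinal.{0}}

theorem betha_lt_iff {c : Cardinal.{0}} : c < ℶ_ ω ↔ ∃ n : ℕ, c ≤ ℶ_ (n : Ordinal.{0}) := by
  constructor
  · intro h
    rw [beth_limit isSuccLimit_omega0] at h
    have : Nonempty (Iio (ω : Ordinal.{0})) := ⟨⟨0, omega0_pos⟩⟩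
    obtain ⟨⟨a, ha⟩, hc⟩ := exists_lt_of_lt_ciSup h
    obtain ⟨n, rfl⟩ := lt_omega0.1 ha
    exact ⟨n, hc.le⟩
  · rintro ⟨n, hn⟩
    exact hn.trans_lt (beth_lt_beth.2 (natCast_lt_omega0 n))

theorem betha_power_lt {c d : Cardinal.{0}} (hc : c < ℶ_ ω) (hd : d < ℶ_ ω) : c ^ d < ℶ_ ω := by
  obtain ⟨n, hn⟩ := betha_lt_iff.1 hc
  obtain ⟨m, hm⟩ := betha_lt_iff.1 hd
  rw [betha_lt_iff]
  refine ⟨max n m + 1, ?_⟩
  have hn' : c ≤ ℶ_ ((max n m : ℕ) : Ordinal.{0}) :=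
    hn.trans (beth_le_beth.2 (by exact_mod_cast le_max_left n m))
  have hm' : d ≤ ℶ_ ((max n m : ℕ) : Ordinal.{0}) :=
    hm.trans (beth_le_beth.2 (by exact_mod_cast le_max_right n m))
  calc c ^ d ≤ (ℶ_ ((max n m : ℕ) : Ordinal.{0})) ^ d := power_le_power_right hn'
    _ ≤ (ℶ_ ((max n m : ℕ) : Ordinal.{0})) ^ (ℶ_ ((max n m : ℕ) : Ordinal.{0})) :=
        power_le_power_left (beth_ne_zero _) hm'
    _ = 2 ^ (ℶ_ ((max n m : ℕ) : Ordinal.{0})) := power_self_eq (aleph0_le_beth _)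
    _ = ℶ_ (((max n m + 1 : ℕ)) : Ordinal.{0}) := by
        rw [Nat.cast_add, Nat.cast_one, beth_add_one]

theorem betha_le_sum : ℶ_ ω ≤ Cardinal.sum (fun n : ℕ => ℶ_ (n : Ordinal.{0})) := by
  by_contra h
  rw [not_le, betha_lt_iff] at h
  obtain ⟨n, hn⟩ := h
  have h1 : ℶ_ ((n + 1 : ℕ) : Ordinal.{0}) ≤ Cardinal.sum (fun n : ℕ => ℶ_ (n : Ordinal.{0})) :=
    le_sum (fun n : ℕ => ℶ_ (n : Ordinal.{0})) (n + 1)
  have h2 : ℶ_ (n : Ordinal.{0}) < ℶ_ ((n + 1 : ℕ) : Ordinal.{0}) :=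
    beth_lt_beth.2 (by exact_mod_cast Nat.lt_succ_self n)
  exact absurd (h1.trans hn) (not_le.2 h2)

/-- counting -/
theorem betha_count {X : Type} [AddCommGroup X] (G' G : AddSubgroup X) (E : Set (X →+ C))
    (θ : Cardinal.{0}) (hθ : ℵ₀ ≤ θ) (hE : #E ≤ θ) (hG' : #C ^ #G' ≤ θ) (hG : θ < ext π G)
    (f : X →+ C) :
    ∃ h : X →+ C, (∀ x ∈ G', h x = 0) ∧ ∀ e ∈ E, f + h - e ∉ Lft π G := by
  classical
  by_contra hcon
  push Not at hcon
  choose! e heE heL using hcon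
  -- section of the restriction
  let s : (G' → C) → (X →+ C) := fun u =>
    if h : ∃ r : X →+ C, ∀ x : G', r x = u x then h.choose else 0
  let r : ((X →+ C) ⧸ Lft π G) → (X →+ C) := Quotient.out
  have hr : ∀ q, (QuotientAddGroup.mk (r q) : (X →+ C) ⧸ Lft π G) = q := fun q =>
    Quotient.out_eq q
  let u : ((X →+ C) ⧸ Lft π G) → (G' → C) := fun q x => r q x
  have hs : ∀ q, ∀ x ∈ G', (r q - s (u q)) x = 0 := by
    intro q x hx
    have hex : ∃ t : X →+ C, ∀ x : G', t x = u q x := ⟨r q, fun x => rfl⟩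
    have h1 : s (u q) = hex.choose := dif_pos hex
    have h2 := hex.choose_spec ⟨x, hx⟩
    rw [AddMonoidHom.sub_apply, h1, h2]
    exact sub_self _
  let Ψ : ((X →+ C) ⧸ Lft π G) → (G' → C) × E := fun q =>
    (u q, ⟨e (r q - s (u q)), heE _ (hs q)⟩)
  have hinj : Function.Injective Ψ := by
    intro q q' hqq
    have h1 : u q = u q' := congrArg Prod.fst hqq
    have h2 : e (r q - s (u q)) = e (r q' - s (u q')) :=
      congrArg Subtype.val (congrArg Prod.snd hqq)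
    have h3 := (Lft π G).sub_mem (heL _ (hs q)) (heL _ (hs q'))
    rw [h2, h1] at h3
    have h4 : r q - r q' ∈ Lft π G := by
      have : f + (r q - s (u q')) - e (r q' - s (u q')) -
          (f + (r q' - s (u q')) - e (r q' - s (u q'))) = r q - r q' := by abel
      rwa [this] at h3
    rw [← hr q, ← hr q']
    rw [QuotientAddGroup.eq]
    have := (Lft π G).neg_mem h4
    rwa [show -(r q - r q') = -r q + r q' by abel] at this
  have hcard := mk_le_of_injective hinj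
  have : ext π G ≤ θ := by
    refine hcard.trans ?_
    rw [mk_prod, Cardinal.lift_id, Cardinal.lift_id]
    refine (mul_le_mul' (b := θ) (d := θ) ?_ hE).trans (mul_eq_self hθ).le
    rw [← Cardinal.power_def]
    exact hG'
  exact absurd hG (not_lt.2 this)

/-- Step 0 (no diamonds) -/
theorem beth_bound (hD : Dvb D) (hC : Dvb C) (hρω : #C < ℶ_ ω) (X : Type) [AddCommGroup X]
    (hX : ext π (⊤ : AddSubgroup X) ≤ ℶ_ ω) :
    ∃ τ < ℶ_ ω, ∀ G : AddSubgroup X, #G < ℶ_ ω → ext π G ≤ τ := by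
  classical
  by_contra hcon
  push Not at hcon
  -- choice of the sets `E n`
  obtain ⟨j⟩ : Nonempty (((X →+ C) ⧸ Lft π (⊤ : AddSubgroup X)) ↪
      (Σ n : ℕ, (ℶ_ (n : Ordinal.{0})).out)) := by
    have h1 : #((X →+ C) ⧸ Lft π (⊤ : AddSubgroup X)) ≤
        #(Σ n : ℕ, (ℶ_ (n : Ordinal.{0})).out) := by
      rw [mk_sigma]
      simp only [mk_out]
      exact hX.trans betha_le_sum
    exact h1
  let E : ℕ → Set (X →+ C) := fun n =>
    {f | ∃ q : (X →+ C) ⧸ Lft π (⊤ : AddSubgroup X), (j q).1 = n ∧ Quotient.out q = f}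
  have hE : ∀ n, #(E n) ≤ ℶ_ (n : Ordinal.{0}) := by
    intro n
    have hchoice : ∀ f : E n, ∃ y : (ℶ_ (n : Ordinal.{0})).out,
        ∃ q : (X →+ C) ⧸ Lft π (⊤ : AddSubgroup X), Quotient.out q = f.1 ∧ j q = ⟨n, y⟩ := by
      rintro ⟨f, q, hq, hf⟩
      have haux : ∀ (p : Σ n : ℕ, (ℶ_ (n : Ordinal.{0})).out), p.1 = n →
          ∃ y : (ℶ_ (n : Ordinal.{0})).out, p = ⟨n, y⟩ := by
        rintro ⟨m, y⟩ hm
        have hm' : m = n := hm
        subst hm'
        exact ⟨y, rfl⟩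
      obtain ⟨y, hy⟩ := haux (j q) hq
      exact ⟨y, q, hf, hy⟩
    choose y q hqf hjq using hchoice
    have hinj : Function.Injective y := by
      intro a b hab
      have h1 : j (q a) = j (q b) := by rw [hjq, hjq, hab]
      have h2 : q a = q b := j.injective h1
      apply Subtype.ext
      rw [← hqf a, ← hqf b, h2]
    have := mk_le_of_injective hinj
    rwa [mk_out] at this
  have hcover : ∀ f : X →+ C, ∃ n, ∃ e ∈ E n, f - e ∈ Lft π (⊤ : AddSubgroup X) := by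
    intro f
    refine ⟨(j (f : (X →+ C) ⧸ Lft π (⊤ : AddSubgroup X))).1, _, ⟨_, rfl, rfl⟩, ?_⟩
    have h1 : (QuotientAddGroup.mk (Quotient.out (f : (X →+ C) ⧸ Lft π (⊤ : AddSubgroup X))) :
        (X →+ C) ⧸ Lft π (⊤ : AddSubgroup X)) = f := Quotient.out_eq _
    rw [QuotientAddGroup.eq] at h1
    rwa [show f - Quotient.out (f : (X →+ C) ⧸ Lft π (⊤ : AddSubgroup X)) =
      -Quotient.out (f : (X →+ C) ⧸ Lft π (⊤ : AddSubgroup X)) + f by abel]
  -- the sequence of subgroups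
  have hstep : ∀ (n : ℕ) (G : {G : AddSubgroup X // #G < ℶ_ ω}),
      ∃ G' : {G : AddSubgroup X // #G < ℶ_ ω}, G.1 ≤ G'.1 ∧
        max (ℶ_ (n : Ordinal.{0})) (#C ^ #G.1) < ext π G'.1 := by
    rintro n ⟨G, hG⟩
    obtain ⟨G', hG', hlt⟩ := hcon (max (ℶ_ (n : Ordinal.{0})) (#C ^ #G))
      (max_lt (beth_lt_beth.2 (natCast_lt_omega0 n)) (betha_power_lt hρω hG))
    refine ⟨⟨G ⊔ G', ?_⟩, le_sup_left, hlt.trans_le (ext_mono le_sup_right)⟩
    obtain ⟨a, ha⟩ := betha_lt_iff.1 hG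
    obtain ⟨b, hb⟩ := betha_lt_iff.1 hG'
    rw [betha_lt_iff]
    refine ⟨max a b, mk_sup_le (aleph0_le_beth _) ?_ ?_⟩
    · exact ha.trans (beth_le_beth.2 (by exact_mod_cast le_max_left a b))
    · exact hb.trans (beth_le_beth.2 (by exact_mod_cast le_max_right a b))
  choose nx hnx1 hnx2 using hstep
  let s : ℕ → {G : AddSubgroup X // #G < ℶ_ ω} := fun n =>
    Nat.rec ⟨⊥, by
      refine lt_of_le_of_lt (b := ℵ₀) ?_ ?_
      · exact (mk_le_aleph0)
      · rw [← beth_zero]; exact beth_lt_beth.2 omega0_pos⟩ (fun n G => nx n G) n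
  have hs : ∀ n, s (n + 1) = nx n (s n) := fun n => rfl
  have hsmono : Monotone fun n => (s n).1 := monotone_nat_of_le_succ fun n => by
    rw [hs]; exact hnx1 n (s n)
  obtain ⟨g, hg⟩ := rec_hom (I := ℕ) hC (fun n => (s (n + 1)).1)
    (fun a b hab => hsmono (Nat.succ_le_succ hab))
    (fun n g => ∀ e ∈ E n, g - e ∉ Lft π (s (n + 1)).1)
    (by
      intro i g g' hgg h e he hL
      apply h e he
      obtain ⟨t, ht⟩ := hL
      exact ⟨t, fun x hx => by
        rw [ht x hx, AddMonoidHom.sub_apply, AddMonoidHom.sub_apply, hgg x hx]⟩)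
    (by
      intro i g _
      obtain ⟨h, hh, hE'⟩ := betha_count (π := π) (s i).1 (s (i + 1)).1 (E i)
        (max (ℶ_ (i : Ordinal.{0})) (#C ^ #(s i).1))
        ((aleph0_le_beth _).trans (le_max_left _ _)) ((hE i).trans (le_max_left _ _))
        (le_max_right _ _) (hnx2 i (s i)) g
      refine ⟨g + h, fun j hj x hx => ?_, hE'⟩
      have hx' : x ∈ (s i).1 := hsmono (Nat.succ_le_of_lt hj) hx
      rw [AddMonoidHom.add_apply, hh x hx', add_zero])
  obtain ⟨n, e, he, hL⟩ := hcover g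
  exact hg n e he (Lft_anti le_top hL)

end Pool.Agent.ExtSum
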