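import Pool.Agent.ExtSum.MainZ
import Pool.Agent.ExtSum.BethA

/-! Module BETH: under diamonds `Ext(X, ker π)` never has `ℶ_ω` elements. -/

set_option autoImplicit false

namespace Pool.Agent.ExtSum

open Cardinal Set Ordinal

variable {D C : Type} [AddCommGroup D] [AddCommGroup C]
variable {π : D →+ C} {ρ : Cardinal.{0}}

theorem Beth_strong : IsStrongLimit (ℶ_ ω : Cardinal.{0}) :=
  isStrongLimit_beth.2 isSuccLimit_omega0.isSuccPrelimit

theorem Beth_two_power {c : Cardinal.{0}} (h : c < ℶ_ ω) : (2 : Cardinal.{0}) ^ c < ℶ_ ω :=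
  Beth_strong.isStrongPrelimit h

theorem Beth_power {c d : Cardinal.{0}} (hc : c < ℶ_ ω) (hd : d < ℶ_ ω) : c ^ d < ℶ_ ω := by
  calc c ^ d ≤ (2 ^ c) ^ d := power_le_power_right (cantor c).le
    _ = 2 ^ (c * d) := (power_mul).symm
    _ < _ := Beth_two_power (mul_lt_of_lt (aleph0_le_beth _) hc hd)

theorem Beth_not_regular : ¬ (ℶ_ ω : Cardinal.{0}).IsRegular := by
  intro h
  have h0 : (ℵ₀ : Cardinal.{0}) < ℶ_ ω := by
    rw [← beth_zero]; exact beth_lt_beth.2 omega0_pos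
  have h1 : (⨆ n : ℕ, (ℶ_ (n : Ordinal.{0}) : Cardinal.{0})) < ℶ_ ω := by
    apply iSup_lt_of_lt_cof_ord
    · rw [h.cof_ord, mk_nat]; exact h0
    · intro n; exact beth_lt_beth.2 (natCast_lt_omega0 n)
  have h2 : (ℶ_ ω : Cardinal.{0}) ≤ ⨆ n : ℕ, (ℶ_ (n : Ordinal.{0}) : Cardinal.{0}) := by
    rw [beth_limit isSuccLimit_omega0]
    apply ciSup_le'
    rintro ⟨a, ha⟩
    obtain ⟨n, rfl⟩ := lt_omega0.1 ha
    exact le_ciSup (f := fun n : ℕ => (ℶ_ (n : Ordinal.{0}) : Cardinal.{0}))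
      Cardinal.bddAbove_of_small n
  exact absurd h1 (not_lt.2 h2)

/-- the case `#X ≤ ℶ_ω` -/
theorem Beth_aux (hD : Dvb D) (hC : Dvb C) (hρ : ℵ₀ ≤ ρ) (hDρ : #D ≤ ρ) (hCρ : #C ≤ ρ)
    (hρω : ρ < ℶ_ ω) (dia : DiamondsAbove ρ) (X : Type) [AddCommGroup X]
    (hX : #X ≤ ℶ_ ω) : ext π (⊤ : AddSubgroup X) ≠ ℶ_ ω := by
  intro hext
  rcases hX.lt_or_eq with hlt | heq
  · have h1 := ext_le (π := π) (⊤ : AddSubgroup X)
    rw [Cardinal.mk_congr (AddSubgroup.topEquiv (G := X)).toEquiv, hext] at h1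
    exact absurd (Beth_power (lt_of_le_of_lt hCρ hρω) hlt) (not_lt.2 h1)
  · obtain ⟨τ₀, hτ₀, hb⟩ := beth_bound (π := π) hD hC (lt_of_le_of_lt hCρ hρω) X hext.le
    set τ : Cardinal.{0} := max τ₀ ρ with hτdef
    have hτ : τ < ℶ_ ω := max_lt hτ₀ hρω
    have hρτ : ρ ≤ τ := le_max_right _ _
    have hb' : ∀ G : AddSubgroup X, #G < ℶ_ ω → ext π G ≤ τ := fun G hG =>
      (hb G hG).trans (le_max_left _ _)
    have hsucc : Order.succ τ < ℶ_ ω := Beth_strong.isSuccLimit.succ_lt hτ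
    obtain ⟨H, _, hH, hHL⟩ := good (π := π) (X := X) hD hC hρ hDρ dia hρτ hsucc
      (F_all hD hC hρ hDρ dia _)
      (fun G hG => Z_sub hD hC hρ hDρ dia hρτ G (hb' G hG))
      (fun G hG => (hb' G (lt_of_le_of_lt hG hsucc)).trans (Order.le_succ τ)) ∅ (by simp)
    have hHω : #H < ℶ_ ω := lt_of_le_of_lt hH hτ
    have hL := MainZ_quot hD hC hρ hDρ dia hρω Beth_not_regular X heq H hHω hHL
    have h1 : ext π (⊤ : AddSubgroup X) = ext π H := by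
      unfold ext
      rw [Lft_eq hL le_top]
    have h2 := hb' H hHω
    rw [← h1, hext] at h2
    exact absurd hτ (not_lt.2 h2)

theorem ext_ne_beth (hD : Dvb D) (hC : Dvb C) (hρ : ℵ₀ ≤ ρ) (hDρ : #D ≤ ρ) (hCρ : #C ≤ ρ)
    (hρω : ρ < ℶ_ ω) (dia : DiamondsAbove ρ) (X : Type) [AddCommGroup X] :
    ext π (⊤ : AddSubgroup X) ≠ ℶ_ ω := by
  intro hext
  obtain ⟨H, hH, hL⟩ := Z_all (π := π) hD hC hρ hDρ dia hρω.le X hext.le
  have h1 : ext π (⊤ : AddSubgroup X) = ext π H := by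
    unfold ext
    rw [Lft_eq hL le_top]
  apply Beth_aux (π := π) hD hC hρ hDρ hCρ hρω dia ↥H hH
  rw [MainZ_ext_type hD hC, ← h1, hext]

end Pool.Agent.ExtSum
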