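import Pool.Agent.ExtSum.Defs

/-! Module CARDB: a reduced group `B` with all `B/pB` cyclic has at most `2^ℵ₀` elements. -/

set_option autoImplicit false

namespace Pool.Agent.ExtSum

open Cardinal Set

/-- A subgroup that is `p`-divisible for all primes `p` is divisible. -/
theorem CARDB_dvb {B : Type} [AddCommGroup B] (S : AddSubgroup B)
    (h : ∀ p : ℕ, p.Prime → ∀ x ∈ S, ∃ y ∈ S, p • y = x) :
    ∀ n : ℕ, n ≠ 0 → ∀ x ∈ S, ∃ y ∈ S, n • y = x := by
  intro n
  induction n using Nat.recOnMul with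
  | zero => intro h0; exact absurd rfl h0
  | one => intro _ x hx; exact ⟨x, hx, one_nsmul x⟩
  | prime p hp => intro _; exact h p hp
  | mul a b ha hb =>
    intro hab x hx
    have ha0 : a ≠ 0 := fun h => hab (by simp [h])
    have hb0 : b ≠ 0 := fun h => hab (by simp [h])
    obtain ⟨y, hy, rfl⟩ := ha ha0 x hx
    obtain ⟨z, hz, rfl⟩ := hb hb0 y hy
    exact ⟨z, hz, by rw [mul_nsmul']⟩

/-- finite `p`-torsion -/
theorem CARDB_fin {B : Type} [AddCommGroup B] (hB : Red B) (p : ℕ) (hp : p.Prime)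
    (h : ∃ b₀ : B, ∀ b : B, ∃ (k : ℤ) (b' : B), b = k • b₀ + p • b') :
    {x : B | p • x = 0}.Finite := by
  obtain ⟨b₀, hb⟩ := h
  -- the p-primary part
  let P : Set B := {x | ∃ k : ℕ, p ^ k • x = 0}
  have hPadd : ∀ x ∈ P, ∀ y ∈ P, x + y ∈ P := by
    rintro x ⟨k, hk⟩ y ⟨l, hl⟩
    refine ⟨k + l, ?_⟩
    rw [nsmul_add, pow_add, mul_comm, mul_nsmul', hk, mul_comm, mul_nsmul', hl]
    simp
  have hPz : ∀ x ∈ P, ∀ m : ℤ, m • x ∈ P := by
    rintro x ⟨k, hk⟩ m
    exact ⟨k, by rw [smul_comm, hk, smul_zero]⟩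
  have hPp : ∀ x : B, p • x ∈ P → x ∈ P := by
    rintro x ⟨k, hk⟩
    exact ⟨k + 1, by rw [pow_succ, mul_nsmul', hk]⟩
  have hcop : ∀ m : ℤ, ¬ (p : ℤ) ∣ m → ∃ u v : ℤ, u * m + v * p = 1 := by
    intro m hm
    have : IsCoprime m (p : ℤ) := by
      rw [isCoprime_comm]
      exact (Prime.coprime_iff_not_dvd (Nat.prime_iff_prime_int.mp hp)).2 hm
    exact this
  -- `P = ℤ x₁ + p P`
  obtain ⟨x₁, hx₁, hx⟩ : ∃ x₁ ∈ P, ∀ x ∈ P, ∃ (k : ℤ) (y : B), y ∈ P ∧ x = k • x₁ + p • y := by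
    by_cases hP : ∀ x ∈ P, ∃ y : B, p • y = x
    · refine ⟨0, ⟨0, by simp⟩, ?_⟩
      intro x hx
      obtain ⟨y, hy⟩ := hP x hx
      exact ⟨0, y, hPp y (by rw [hy]; exact hx), by simp [hy]⟩
    · push Not at hP
      obtain ⟨x₁, hx₁, hno⟩ := hP
      refine ⟨x₁, hx₁, ?_⟩
      obtain ⟨m, b', hm⟩ := hb x₁
      have hpm : ¬ (p : ℤ) ∣ m := by
        rintro ⟨c, rfl⟩
        apply hno (c • b₀ + b')
        rw [hm, nsmul_add, mul_smul, natCast_zsmul]
      obtain ⟨u, v, huv⟩ := hcop m hpm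
      have hb0 : b₀ = u • x₁ + p • (v • b₀ - u • b') := by
        have : b₀ = (u * m + v * p) • b₀ := by rw [huv, one_zsmul]
        conv_lhs => rw [this]
        rw [hm, ← natCast_zsmul b' p, ← natCast_zsmul _ p]
        module
      intro x hx
      obtain ⟨k, b'', hk⟩ := hb x
      refine ⟨k * u, k • (v • b₀ - u • b') + b'', ?_, ?_⟩
      · apply hPp
        have : p • (k • (v • b₀ - u • b') + b'') = x + (-(k * u)) • x₁ := by
          rw [hk]
          conv_rhs => rw [hb0]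
          rw [← natCast_zsmul _ p, ← natCast_zsmul _ p, ← natCast_zsmul _ p]
          module
        rw [this]
        exact hPadd x hx _ (hPz _ hx₁ _)
      · rw [hk]
        conv_lhs => rw [hb0]
        rw [← natCast_zsmul _ p, ← natCast_zsmul _ p, ← natCast_zsmul _ p]
        module
  obtain ⟨k, hk⟩ := hx₁
  -- `p^k P` is divisible
  let S : AddSubgroup B :=
    { carrier := {x | ∃ y ∈ P, p ^ k • y = x}
      zero_mem' := ⟨0, ⟨0, by simp⟩, by simp⟩
      add_mem' := by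
        rintro x y ⟨a, ha, rfl⟩ ⟨b, hb, rfl⟩
        exact ⟨a + b, hPadd a ha b hb, by rw [nsmul_add]⟩
      neg_mem' := by
        rintro x ⟨a, ha, rfl⟩
        refine ⟨-a, ?_, by simp⟩
        have := hPz a ha (-1)
        simpa using this }
  have hS : S = ⊥ := by
    apply hB
    apply CARDB_dvb
    intro q hq x hxS
    by_cases hqp : q = p
    · subst hqp
      obtain ⟨y, hy, rfl⟩ := hxS
      obtain ⟨m, z, hz, hyz⟩ := hx y hy
      refine ⟨q ^ k • z, ⟨z, hz, rfl⟩, ?_⟩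
      rw [hyz, nsmul_add, smul_comm (q ^ k) m x₁, hk, smul_zero, zero_add, smul_comm]
    · obtain ⟨y, hy, rfl⟩ := hxS
      obtain ⟨j, hj⟩ := hy
      have hc : IsCoprime (q : ℤ) ((p ^ j : ℕ) : ℤ) :=
        Nat.isCoprime_iff_coprime.2 (Nat.Coprime.pow_right j ((Nat.coprime_primes hq hp).2 hqp))
      obtain ⟨u, v, huv⟩ := hc
      refine ⟨p ^ k • (u • y), ⟨u • y, hPz y ⟨j, hj⟩ u, rfl⟩, ?_⟩
      rw [smul_comm]
      congr 1
      have : y = (u * (q : ℤ) + v * ((p ^ j : ℕ) : ℤ)) • y := by rw [huv, one_zsmul]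
      conv_rhs => rw [this]
      rw [add_smul, mul_smul, mul_smul, natCast_zsmul, natCast_zsmul, hj, smul_zero, add_zero,
        smul_comm]
  have hPS : ∀ x ∈ P, p ^ k • x = 0 := by
    intro x hx
    have : p ^ k • x ∈ S := ⟨x, hx, rfl⟩
    rw [hS] at this
    exact this
  -- `P = ℤ x₁`
  have hit : ∀ j : ℕ, ∀ x ∈ P, ∃ (m : ℤ) (y : B), y ∈ P ∧ x = m • x₁ + p ^ j • y := by
    intro j
    induction j with
    | zero => intro x hx; exact ⟨0, x, hx, by simp⟩
    | succ j ih =>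
      intro x hx'
      obtain ⟨m, y, hy, e⟩ := ih x hx'
      obtain ⟨m', y', hy', e'⟩ := hx y hy
      refine ⟨m + (p ^ j : ℕ) * m', y', hy', ?_⟩
      rw [e, e', add_smul, mul_smul, natCast_zsmul, nsmul_add, pow_succ, mul_nsmul', add_assoc]
  have hPx : ∀ x ∈ P, ∃ m : ℤ, x = m • x₁ := by
    intro x hx'
    obtain ⟨m, y, hy, e⟩ := hit k x hx'
    exact ⟨m, by rw [e, hPS y hy, add_zero]⟩
  -- finiteness
  have hfin : (Set.range fun i : Fin (p ^ k) => (i : ℕ) • x₁).Finite := Set.finite_range _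
  refine hfin.subset ?_
  intro x hx'
  obtain ⟨m, rfl⟩ := hPx x ⟨1, by simpa using hx'⟩
  have hpk : 0 < ((p ^ k : ℕ) : ℤ) := by
    have := pow_pos hp.pos k
    exact_mod_cast this
  have h1 : 0 ≤ m % ((p ^ k : ℕ) : ℤ) := Int.emod_nonneg _ hpk.ne'
  have h2 : m % ((p ^ k : ℕ) : ℤ) < ((p ^ k : ℕ) : ℤ) := Int.emod_lt_of_pos _ hpk
  refine ⟨⟨(m % ((p ^ k : ℕ) : ℤ)).toNat, by omega⟩, ?_⟩
  simp only
  rw [← natCast_zsmul, Int.toNat_of_nonneg h1]
  conv_rhs => rw [← Int.emod_add_mul_ediv m ((p ^ k : ℕ) : ℤ)]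
  rw [add_smul, mul_comm, mul_smul, natCast_zsmul, hk, smul_zero, add_zero]

/-- countable invariants modulo `n` -/
theorem CARDB_code {B : Type} [AddCommGroup B]
    (h : ∀ p : ℕ, p.Prime → ∃ b₀ : B, ∀ b : B, ∃ (k : ℤ) (b' : B), b = k • b₀ + p • b') :
    ∀ n : ℕ, n ≠ 0 → ∃ c : B → ℕ, ∀ x y, c x = c y → ∃ z, x - y = n • z := by
  intro n
  induction n using Nat.recOnMul with
  | zero => intro h0; exact absurd rfl h0
  | one => intro _; exact ⟨fun _ => 0, fun x y _ => ⟨x - y, by simp⟩⟩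
  | prime p hp =>
    intro _
    obtain ⟨b₀, hb⟩ := h p hp
    choose k b' hk using hb
    refine ⟨fun x => Encodable.encode (k x), fun x y hxy => ?_⟩
    have : k x = k y := Encodable.encode_injective hxy
    refine ⟨b' x - b' y, ?_⟩
    conv_lhs => rw [hk x, hk y, this]
    rw [nsmul_sub]
    abel
  | mul m n hm hn =>
    intro hmn
    have hm0 : m ≠ 0 := fun h => hmn (by simp [h])
    have hn0 : n ≠ 0 := fun h => hmn (by simp [h])
    obtain ⟨c, hc⟩ := hm hm0
    obtain ⟨d, hd⟩ := hn hn0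
    have hB : Nonempty B := ⟨0⟩
    let r : B → B := fun x => Function.invFun c (c x)
    have hr : ∀ x, c (r x) = c x := fun x => Function.invFun_eq ⟨x, rfl⟩
    choose y hy using fun x => hc x (r x) (hr x).symm
    refine ⟨fun x => Nat.pair (c x) (d (y x)), fun x x' hxx => ?_⟩
    obtain ⟨h1, h2⟩ := Nat.pair_eq_pair.1 hxx
    obtain ⟨z, hz⟩ := hd _ _ h2
    have hrr : r x = r x' := by simp only [r, h1]
    refine ⟨z, ?_⟩
    have e : x - x' = m • (y x) - m • (y x') := by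
      rw [← hy x, ← hy x', hrr]; abel
    rw [e, ← nsmul_sub, hz, mul_nsmul']

theorem card_reduced (B : Type) [AddCommGroup B] (hB : Red B)
    (h : ∀ p : ℕ, p.Prime → ∃ b₀ : B, ∀ b : B, ∃ (k : ℤ) (b' : B), b = k • b₀ + p • b') :
    #B ≤ 𝔠 := by
  classical
  -- the first Ulm subgroup is zero
  let S : AddSubgroup B :=
    { carrier := {x | ∀ n : ℕ, n ≠ 0 → ∃ y, n • y = x}
      zero_mem' := fun n _ => ⟨0, by simp⟩
      add_mem' := by
        intro a b ha hb n hn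
        obtain ⟨y, rfl⟩ := ha n hn
        obtain ⟨z, rfl⟩ := hb n hn
        exact ⟨y + z, by rw [nsmul_add]⟩
      neg_mem' := by
        intro a ha n hn
        obtain ⟨y, rfl⟩ := ha n hn
        exact ⟨-y, by simp⟩ }
  have hS : S = ⊥ := by
    apply hB
    apply CARDB_dvb
    intro p hp x hx
    have hfin := CARDB_fin hB p hp (h p hp)
    -- approximations
    have hx' : ∀ n : ℕ, ∃ z, (p * n.factorial) • z = x := fun n =>
      hx _ (Nat.mul_ne_zero hp.ne_zero (Nat.factorial_ne_zero n))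
    choose z hz using hx'
    obtain ⟨y₀, hy₀⟩ := hx p hp.ne_zero
    have hY : {y : B | p • y = x}.Finite := by
      refine (hfin.image (fun t => y₀ + t)).subset ?_
      intro y hy
      refine ⟨y - y₀, ?_, by simp⟩
      change p • (y - y₀) = 0
      rw [nsmul_sub, hy₀, (hy : p • y = x), sub_self]
    have hmem : ∀ n : ℕ, n.factorial • z n ∈ {y : B | p • y = x} := by
      intro n
      change p • (n.factorial • z n) = x
      rw [← mul_nsmul', hz]
    have : Finite {y : B // y ∈ {y : B | p • y = x}} := hY.to_subtype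
    obtain ⟨y, hinf⟩ := Finite.exists_infinite_fiber
      (fun n : ℕ => (⟨n.factorial • z n, hmem n⟩ : {y : B // y ∈ {y : B | p • y = x}}))
    refine ⟨y.1, ?_, y.2⟩
    intro n hn
    obtain ⟨m, hm, hmn⟩ := (Set.infinite_coe_iff.1 hinf).exists_gt n
    have e : m.factorial • z m = y.1 := congrArg Subtype.val hm
    obtain ⟨c, hc⟩ := Nat.dvd_factorial (Nat.pos_of_ne_zero hn) hmn.le
    exact ⟨c • z m, by rw [← e, hc, mul_nsmul']⟩
  have hcode := CARDB_code h
  have hcode' : ∀ n : ℕ, ∃ c : B → ℕ, ∀ x y, c x = c y → ∃ z, x - y = (n + 1) • z := fun n =>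
    hcode (n + 1) (Nat.succ_ne_zero n)
  choose c hc using hcode'
  have hinj : Function.Injective (fun (x : B) (n : ℕ) => c n x) := by
    intro x y hxy
    have hxS : x - y ∈ S := by
      intro n hn
      obtain ⟨z, hz⟩ := hc (n - 1) x y (congrFun hxy (n - 1))
      refine ⟨z, ?_⟩
      rw [hz]
      congr 1
      omega
    rw [hS] at hxS
    exact sub_eq_zero.1 hxS
  calc #B ≤ #(ℕ → ℕ) := mk_le_of_injective hinj
    _ = 𝔠 := by simp

end Pool.Agent.ExtSum
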