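import Mathlib

/-!
# Direct sums of groups `Ext(A,B)` (MP_51b9a2_al): definitions

All groups live in `Type`.  `IsExt` and `Closure` are literally the notions of the frozen
statement `S01453`.
-/

set_option autoImplicit false

namespace Pool.Agent.ExtSum

open Cardinal Set

/-- `G` is isomorphic to some `Ext(A,B)`: `A = (ι →₀ ℤ) ⧸ R`, and `Ext(A,B)` is computed as
`Hom(R,B)` modulo the restrictions of homomorphisms `(ι →₀ ℤ) → B`. -/
def IsExt (G : Type) [AddCommGroup G] : Prop :=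
  ∃ (ι : Type) (B : Type) (_ : AddCommGroup B) (R : AddSubgroup (ι →₀ ℤ)),
    Nonempty (G ≃+ ((↥R →+ B) ⧸ (AddMonoidHom.compHom' (P := B) R.subtype).range))

/-- The class of the groups `Ext(A,B)` is closed under (binary) direct sums. -/
def Closure : Prop :=
  ∀ (G₁ G₂ : Type) [AddCommGroup G₁] [AddCommGroup G₂],
    IsExt G₁ → IsExt G₂ → IsExt (G₁ × G₂)

/-- divisible abelian group -/
def Dvb (D : Type) [AddCommGroup D] : Prop := ∀ n : ℕ, n ≠ 0 → ∀ x : D, ∃ y : D, n • y = x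

/-- `B` has no nonzero divisible subgroup. -/
def Red (B : Type) [AddCommGroup B] : Prop :=
  ∀ S : AddSubgroup B, (∀ n : ℕ, n ≠ 0 → ∀ x ∈ S, ∃ y ∈ S, n • y = x) → S = ⊥

/-- An uncountable regular cardinal `κ` is strongly compact if every `κ`-complete proper filter
(on any set) can be extended to a `κ`-complete ultrafilter. -/
def IsStronglyCompact (κ : Cardinal.{0}) : Prop :=
  ℵ₀ < κ ∧ κ.IsRegular ∧
    ∀ (X : Type) (f : Filter X), f.NeBot → CardinalInterFilter f κ →
      ∃ U : Ultrafilter X, (U : Filter X) ≤ f ∧ CardinalInterFilter (U : Filter X) κ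

/-- Jensen's diamond `◇(S)` for a set `S` of elements of a well-ordered set (in practice a
regular uncountable cardinal): there are `A a ⊆ {b | b < a}` guessing every `Z` on a stationary
subset of `S`. -/
def Diamond {α : Type} [LinearOrder α] (S : Set α) : Prop :=
  ∃ A : α → Set α, ∀ Z : Set α, IsStationary {a | a ∈ S ∧ Z ∩ Iio a = A a ∩ Iio a}

/-- The weak diamond of Devlin and Shelah for `S`: for every colouring `F` of the bounded sets
with two colours there is `ψ` such that for every `Z` the set of the `a ∈ S` with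
`F a (Z ∩ a) = ψ a` is stationary. -/
def WeakDiamond {α : Type} [LinearOrder α] (S : Set α) : Prop :=
  ∀ F : α → Set α → Prop, ∃ ψ : α → Prop,
    ∀ Z : Set α, IsStationary {a | a ∈ S ∧ (F a (Z ∩ Iio a) ↔ ψ a)}

theorem Diamond.weak {α : Type} [LinearOrder α] {S : Set α} (h : Diamond S) :
    WeakDiamond S := by
  obtain ⟨A, hA⟩ := h
  intro F
  refine ⟨fun a => F a (A a ∩ Iio a), fun Z => (hA Z).mono ?_⟩
  rintro a ⟨haS, haZ⟩
  exact ⟨haS, by rw [haZ]⟩

/-- The weak diamond for all regular cardinals `κ > ρ` and all stationary `S ⊆ κ`. -/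
def DiamondsAbove (ρ : Cardinal.{0}) : Prop :=
  ∀ (α : Type) [LinearOrder α] [WellFoundedLT α] [IsRegularCardinalOrder α] (S : Set α),
    ρ < #α → IsStationary S → WeakDiamond S

section
variable {D C X : Type} [AddCommGroup D] [AddCommGroup C] [AddCommGroup X]

/-- The homomorphisms `f : X → C` whose restriction to `M` lifts through `π : D → C`. -/
def Lft (π : D →+ C) (M : AddSubgroup X) : AddSubgroup (X →+ C) where
  carrier := {f | ∃ g : X →+ D, ∀ x ∈ M, π (g x) = f x}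
  zero_mem' := ⟨0, fun x _ => by simp⟩
  add_mem' := by
    rintro f f' ⟨g, hg⟩ ⟨g', hg'⟩
    exact ⟨g + g', fun x hx => by simp [hg x hx, hg' x hx]⟩
  neg_mem' := by
    rintro f ⟨g, hg⟩
    exact ⟨-g, fun x hx => by simp [hg x hx]⟩

theorem mem_Lft {π : D →+ C} {M : AddSubgroup X} {f : X →+ C} :
    f ∈ Lft π M ↔ ∃ g : X →+ D, ∀ x ∈ M, π (g x) = f x := Iff.rfl

/-- The cardinal of `Ext(M, ker π)` (`D`, `C` divisible, `π` onto): `Hom(X,C)` modulo the
homomorphisms that lift on `M`. -/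
noncomputable def ext (π : D →+ C) (M : AddSubgroup X) : Cardinal.{0} := #((X →+ C) ⧸ Lft π M)

/-- The image of `Ext(X/T, B)` in `Ext(X,B)`, `B = ker π`. -/
def ExtIm (π : D →+ C) (T : AddSubgroup X) :
    AddSubgroup ((X →+ C) ⧸ Lft π (⊤ : AddSubgroup X)) :=
  (Lft π T).map (QuotientAddGroup.mk' (Lft π (⊤ : AddSubgroup X)))

/-- `L π H G` for `H ≤ G` says `Ext(G/H, ker π) = 0`: every `f : G → C` that kills `H` has a lift
`g : G → D` that kills `H` (all homomorphisms are extended to the ambient group `X`). -/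
def L (π : D →+ C) (H G : AddSubgroup X) : Prop :=
  ∀ f : X →+ C, (∀ x ∈ H, f x = 0) →
    ∃ g : X →+ D, (∀ x ∈ H, g x = 0) ∧ ∀ x ∈ G, π (g x) = f x

/-- A (relative) Hill system for `P ≤ Q`. -/
structure HS (ρ : Cardinal.{0}) (π : D →+ C) (P Q : AddSubgroup X)
    (R : Set (AddSubgroup X)) : Prop where
  le : P ≤ Q
  le_mem : ∀ H ∈ R, P ≤ H
  mem_le : ∀ H ∈ R, H ≤ Q
  bot : P ∈ R
  chain : ∀ c : Set (AddSubgroup X), c ⊆ R → c.Nonempty → IsChain (· ≤ ·) c → sSup c ∈ R
  small : ∀ θ : Cardinal.{0}, ρ ≤ θ → ∀ Y : Set X, Y ⊆ Q → #Y ≤ θ →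
    ∃ H ∈ R, Y ⊆ H ∧ ∃ Z : Set X, #Z ≤ θ ∧ H = P ⊔ AddSubgroup.closure Z
  lift : ∀ H ∈ R, L π H Q

/-- Every group `X` of size `< κ` with `Ext(X, ker π) = 0` has a Hill system. -/
def FBelow (ρ : Cardinal.{0}) (π : D →+ C) (κ : Cardinal.{0}) : Prop :=
  ∀ (X : Type) [AddCommGroup X], #X < κ → L π (⊥ : AddSubgroup X) ⊤ →
    ∃ R, HS ρ π (⊥ : AddSubgroup X) ⊤ R

end

end Pool.Agent.ExtSum
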