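import Pool.Agent.ExtSum.Lift
import Pool.Agent.ExtSum.Card

/-! Module DIA: the diamond lemma. -/

set_option autoImplicit false

namespace Pool.Agent.ExtSum

open Cardinal Set

variable {D C X : Type} [AddCommGroup D] [AddCommGroup C] [AddCommGroup X]
variable {π : D →+ C}

theorem Dia_isClub_Ioi {α : Type} [LinearOrder α] [WellFoundedLT α]
    [IsRegularCardinalOrder α] (hα : ℵ₀ < #α) (ν : α) : IsClub (Ioi ν) := by
  refine ⟨?_, ?_⟩
  · intro t ht ht0 _ x hx
    obtain ⟨y, hy⟩ := ht0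
    exact lt_of_lt_of_le (ht hy) (hx.1 hy)
  · intro a
    obtain ⟨b, hb⟩ := bdd_of_mk_lt hα {max a ν} (by
      rw [mk_singleton]
      exact one_lt_aleph0.trans hα)
    have h1 := hb (max a ν) rfl
    exact ⟨b, lt_of_le_of_lt (le_max_right _ _) h1, (lt_of_le_of_lt (le_max_left _ _) h1).le⟩

theorem Dia_mem_partial {α : Type} [LinearOrder α] (A : α → AddSubgroup X) {a b0 : α}
    (hb0 : b0 < a) {y : X} (hy : y ∈ (⨆ b < a, A b : AddSubgroup X)) :
    ∃ b < a, y ∈ ((⨆ c < b, A c) ⊔ A b : AddSubgroup X) := by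
  have hle : (⨆ b < a, A b : AddSubgroup X) ≤
      ⨆ b : Iio a, ((⨆ c < (b : α), A c) ⊔ A (b : α) : AddSubgroup X) := by
    refine iSup₂_le fun b hb => ?_
    exact le_trans le_sup_right
      (le_iSup (fun b : Iio a => ((⨆ c < (b : α), A c) ⊔ A (b : α) : AddSubgroup X)) ⟨b, hb⟩)
  have : Nonempty (Iio a) := ⟨⟨b0, hb0⟩⟩
  have hmono : Monotone
      (fun b : Iio a => ((⨆ c < (b : α), A c) ⊔ A (b : α) : AddSubgroup X)) := by
    intro b b' hbb
    rcases hbb.eq_or_lt with h | h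
    · rw [h]
    · refine le_trans ?_ le_sup_left
      refine sup_le ?_ ?_
      · exact iSup₂_le fun c hc => le_iSup₂_of_le c (lt_trans hc h) le_rfl
      · exact le_iSup₂_of_le (b : α) h le_rfl
  have h2 := hle hy
  rw [AddSubgroup.mem_iSup_of_directed hmono.directed_le] at h2
  obtain ⟨b, hb⟩ := h2
  exact ⟨b, b.2, hb⟩

/-- glue the homomorphisms `G b`, `b < a` -/
noncomputable def Dia_gl {α : Type} [LinearOrder α] (N : α → AddSubgroup X) (a : α)
    (G : (b : α) → b < a → (X →+ C)) : X →+ C :=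
  open Classical in
  if h : ∃ g' : X →+ C, ∀ b, ∀ hb : b < a, ∀ x ∈ N b, g' x = G b hb x then h.choose else 0

theorem Dia_gl_spec {α : Type} [LinearOrder α] (N : α → AddSubgroup X) (a : α)
    (G : (b : α) → b < a → (X →+ C))
    (h : ∃ g' : X →+ C, ∀ b, ∀ hb : b < a, ∀ x ∈ N b, g' x = G b hb x) :
    ∀ b, ∀ hb : b < a, ∀ x ∈ N b, Dia_gl N a G x = G b hb x := by
  unfold Dia_gl
  rw [dif_pos h]
  exact h.choose_spec

/-- the tree of homomorphisms -/
theorem Dia_tree (hC : Dvb C) {α : Type} [LinearOrder α] [WellFoundedLT α]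
    (N : α → AddSubgroup X) (hN : Monotone N) (k : α → (X →+ C))
    (hk : ∀ a b, b < a → ∀ x ∈ N b, k a x = 0) :
    ∃ (ft : Set α → (X →+ C)) (gt : Set α → α → (X →+ C)),
      (∀ t t' a, t ∩ Iio a = t' ∩ Iio a → gt t a = gt t' a) ∧
      (∀ t a, ∀ b < a, ∀ x ∈ N b, ft t x = gt t a x) ∧
      (∀ t, ∀ a ∈ t, ∀ x ∈ N a, ft t x = gt t a x + k a x) ∧
      (∀ t, ∀ a ∉ t, ∀ x ∈ N a, ft t x = gt t a x) := by
  classical
  let st : Set α → (a : α) → ((b : α) → b < a → (X →+ C)) → (X →+ C) := fun t a G =>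
    Dia_gl N a G + (if a ∈ t then k a else 0)
  let f : Set α → α → (X →+ C) := fun t => WellFounded.fix wellFounded_lt (st t)
  let gt : Set α → α → (X →+ C) := fun t a => Dia_gl N a (fun b _ => f t b)
  have hfix : ∀ t a, f t a = gt t a + (if a ∈ t then k a else 0) := fun t a =>
    WellFounded.fix_eq wellFounded_lt (st t) a
  have hcoh : ∀ t a, (∀ b < a, ∀ x ∈ N b, f t a x = f t b x) ∧
      (∀ b < a, ∀ x ∈ N b, gt t a x = f t b x) := by
    intro t a
    induction a using WellFoundedLT.induction with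
    | _ a ih =>
      obtain ⟨gs, hgs⟩ := glue hC (I := Iio a) (fun j => N j) (fun u v huv => hN huv)
        (fun j => f t j) (by
          rintro ⟨u, hu⟩ ⟨v, hv⟩ huv x hx
          rcases eq_or_lt_of_le (show u ≤ v from huv) with h | h
          · subst h; rfl
          · exact (ih v hv).1 u h x hx)
      have h1 := Dia_gl_spec (C := C) N a (fun b _ => f t b) ⟨gs, fun b hb x hx => hgs ⟨b, hb⟩ x hx⟩
      refine ⟨fun b hb x hx => ?_, fun b hb x hx => h1 b hb x hx⟩
      rw [hfix, AddMonoidHom.add_apply]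
      have h2 : gt t a x = f t b x := h1 b hb x hx
      have h3 : (if a ∈ t then k a else 0 : X →+ C) x = 0 := by
        by_cases hat : a ∈ t
        · rw [if_pos hat]; exact hk a b hb x hx
        · rw [if_neg hat]; rfl
      rw [h2, h3, add_zero]
  have hglue : ∀ t, ∃ g' : X →+ C, ∀ i, ∀ x ∈ N i, g' x = f t i x := fun t =>
    glue hC N hN (f t) (by
      intro a b hab x hx
      rcases eq_or_lt_of_le hab with h | h
      · subst h; rfl
      · exact (hcoh t b).1 a h x hx)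
  choose ft hft using hglue
  have hdep : ∀ a, ∀ t t', t ∩ Iio a = t' ∩ Iio a → ∀ b < a, f t b = f t' b := by
    intro a
    intro t t' h b
    induction b using WellFoundedLT.induction with
    | _ b ih =>
      intro hb
      rw [hfix, hfix]
      have h1 : gt t b = gt t' b := by
        show Dia_gl N b (fun c _ => f t c) = Dia_gl N b (fun c _ => f t' c)
        congr 1
        funext c hc
        exact ih c hc (lt_trans hc hb)
      have h2 : b ∈ t ↔ b ∈ t' := by
        have := Set.ext_iff.1 h b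
        simpa [hb] using this
      rw [h1]
      by_cases hbt : b ∈ t
      · rw [if_pos hbt, if_pos (h2.1 hbt)]
      · rw [if_neg hbt, if_neg (fun h' => hbt (h2.2 h'))]
  refine ⟨ft, gt, ?_, ?_, ?_, ?_⟩
  · intro t t' a h
    show Dia_gl N a (fun c _ => f t c) = Dia_gl N a (fun c _ => f t' c)
    congr 1
    funext c hc
    exact hdep a t t' h c hc
  · intro t a b hb x hx
    rw [hft t b x hx]
    exact ((hcoh t a).2 b hb x hx).symm
  · intro t a ha x hx
    rw [hft t a x hx, hfix, if_pos ha, AddMonoidHom.add_apply]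
  · intro t a ha x hx
    rw [hft t a x hx, hfix, if_neg ha, add_zero]

/-- If the partial sums `M a = ⨆ b < a, A b` of small increments satisfy `¬ L (M a) (M a ⊔ A a)`
for all `a` in a set `S` with the weak diamond, then `Ext(⨆ A, ker π)` has more than `#α`
elements. -/
theorem diamond_ext (hD : Dvb D) (hC : Dvb C) {α : Type} [LinearOrder α] [WellFoundedLT α]
    [IsRegularCardinalOrder α] (hα : ℵ₀ < #α) (hDα : #D < #α) {S : Set α}
    (dia : WeakDiamond S)
    (A : α → AddSubgroup X) (hA : ∀ a, #(A a) < #α)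
    (bad : ∀ a ∈ S, ¬ L π (⨆ b < a, A b) ((⨆ b < a, A b) ⊔ A a)) :
    #α < ext π (⨆ a, A a) := by
  classical
  by_contra hcon
  rw [not_lt] at hcon
  set Y : AddSubgroup X := ⨆ a, A a with hY
  set M : α → AddSubgroup X := fun a => ⨆ b < a, A b with hM
  set N : α → AddSubgroup X := fun a => M a ⊔ A a with hN
  have hMN : ∀ a, M a ≤ N a := fun a => le_sup_left
  have hNM : ∀ {b a}, b < a → N b ≤ M a := by
    intro b a hba
    refine sup_le ?_ ?_
    · exact iSup₂_le fun c hc => le_iSup₂_of_le c (lt_trans hc hba) le_rfl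
    · exact le_iSup₂_of_le b hba le_rfl
  have hNmono : Monotone N := by
    intro b a hba
    rcases hba.eq_or_lt with h | h
    · rw [h]
    · exact (hNM h).trans (hMN a)
  have hMY : ∀ a, M a ≤ Y := fun a => iSup₂_le fun b _ => le_iSup A b
  have hNY : ∀ a, N a ≤ Y := fun a => sup_le (hMY a) (le_iSup A a)
  have hMmem : ∀ {a b0 : α}, b0 < a → ∀ {y}, y ∈ M a → ∃ b < a, y ∈ N b := by
    intro a b0 hb0 y hy
    exact Dia_mem_partial A hb0 hy
  -- representatives
  obtain ⟨e⟩ : Nonempty (((X →+ C) ⧸ Lft π Y) ↪ α) := by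
    rw [← Cardinal.le_def]
    exact hcon
  have hF : ∃ F : α → (X →+ C), ∀ f : X →+ C, ∃ ν, f - F ν ∈ Lft π Y := by
    refine ⟨fun ν => (Function.invFun e ν).out, fun f => ⟨e (QuotientAddGroup.mk f), ?_⟩⟩
    have h1 : Function.invFun e (e (QuotientAddGroup.mk f)) = QuotientAddGroup.mk f :=
      Function.leftInverse_invFun e.injective _
    simp only [h1]
    have h2 : (QuotientAddGroup.mk (QuotientAddGroup.mk f : (X →+ C) ⧸ Lft π Y).out :
        (X →+ C) ⧸ Lft π Y) = QuotientAddGroup.mk f := Quotient.out_eq' _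
    have h3 := (QuotientAddGroup.eq).1 h2
    have h4 : f - (QuotientAddGroup.mk f : (X →+ C) ⧸ Lft π Y).out =
        -(QuotientAddGroup.mk f : (X →+ C) ⧸ Lft π Y).out + f := by abel
    rw [h4]
    exact h3
  obtain ⟨F, hF⟩ := hF
  -- cardinalities
  have hYc : #Y ≤ #α := mk_iSup_le A #α hα.le le_rfl fun i => (hA i).le
  have hMc : ∀ a, #(M a) < #α := fun a => mk_partial_lt hα A hA a
  have hNc : ∀ a, #(N a) < #α := by
    intro a
    refine lt_of_le_of_lt (mk_sup_le (θ := max (max #(M a) #(A a)) ℵ₀) (le_max_right _ _)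
      ((le_max_left _ _).trans (le_max_left _ _)) ((le_max_right _ _).trans (le_max_left _ _))) ?_
    exact max_lt (max_lt (hMc a) (hA a)) hα
  obtain ⟨c⟩ : Nonempty (((Y × D) ⊕ (α ⊕ α)) ↪ α) := by
    rw [← Cardinal.le_def, ← Cardinal.add_def, ← Cardinal.mul_def, ← Cardinal.add_def]
    have h1 : #Y * #D ≤ #α := by
      refine (mul_le_mul' hYc hDα.le).trans ?_
      rw [mul_eq_self hα.le]
    rw [add_eq_self hα.le]
    refine (add_le_add h1 le_rfl).trans ?_
    rw [add_eq_self hα.le]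
  -- codes
  let Z : (X →+ D) → α → Set α → Set α := fun g ν t =>
    {z | (∃ y : Y, z = c (Sum.inl (y, g y))) ∨ z = c (Sum.inr (Sum.inl ν)) ∨
      ∃ s ∈ t, z = c (Sum.inr (Sum.inr s))}
  have hh : ∀ b : α, ∃ t : α, (c (Sum.inr (Sum.inl b)) < t ∧ c (Sum.inr (Sum.inr b)) < t) ∧
      ∀ (y : Y) (d : D), (y : X) ∈ N b → c (Sum.inl (y, d)) < t := by
    intro b
    let T : Set α := range (fun p : {y : Y // (y : X) ∈ N b} × D => c (Sum.inl (p.1.1, p.2)))
    have hT : #T < #α := by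
      refine lt_of_le_of_lt mk_range_le ?_
      rw [← Cardinal.mul_def]
      refine mul_lt_of_lt hα.le ?_ hDα
      refine lt_of_le_of_lt ?_ (hNc b)
      refine mk_le_of_injective (f := fun y : {y : Y // (y : X) ∈ N b} =>
        (⟨(y.1 : X), y.2⟩ : N b)) ?_
      intro y y' hyy
      have := congrArg Subtype.val hyy
      exact Subtype.ext (Subtype.ext this)
    have hsing : ∀ u : α, ∃ v, u < v := by
      intro u
      obtain ⟨v, hv⟩ := bdd_of_mk_lt hα {u} (by
        rw [mk_singleton]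
        exact one_lt_aleph0.trans hα)
      exact ⟨v, hv u rfl⟩
    obtain ⟨t, ht⟩ := bdd_of_mk_lt hα T hT
    obtain ⟨t', ht'⟩ := hsing (c (Sum.inr (Sum.inl b)))
    obtain ⟨t'', ht''⟩ := hsing (c (Sum.inr (Sum.inr b)))
    refine ⟨max t (max t' t''), ⟨?_, ?_⟩, fun y d hy => ?_⟩
    · exact lt_of_lt_of_le ht' ((le_max_left _ _).trans (le_max_right _ _))
    · exact lt_of_lt_of_le ht'' ((le_max_right _ _).trans (le_max_right _ _))
    · exact lt_of_lt_of_le (ht _ ⟨(⟨y, hy⟩, d), rfl⟩) (le_max_left _ _)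
  choose h hh1 hh2 using hh
  set E : Set α := {a | ∀ b < a, h b < a} with hE
  have hEclub : IsClub E := isClub_closed hα h
  -- decoding
  have decode : ∀ {a : α}, a ∈ E → ∀ {ν ν' : α}, ν < a → ν' < a → ∀ {g g' : X →+ D}
      {t t' : Set α}, Z g ν t ∩ Iio a = Z g' ν' t' ∩ Iio a →
      ν = ν' ∧ (∀ x ∈ M a, g x = g' x) ∧ t ∩ Iio a ⊆ t' ∩ Iio a := by
    intro a ha ν ν' hν hν' g g' t t' hZ
    have h1 : c (Sum.inr (Sum.inl ν)) ∈ Z g ν t ∩ Iio a :=
      ⟨Or.inr (Or.inl rfl), lt_trans (hh1 ν).1 (ha ν hν)⟩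
    rw [hZ] at h1
    refine ⟨?_, ?_, ?_⟩
    · rcases h1.1 with ⟨y, hy⟩ | hy | ⟨s, _, hy⟩
      · exact absurd (c.injective hy) (by simp)
      · exact Sum.inl.inj (Sum.inr.inj (c.injective hy))
      · exact absurd (c.injective hy) (by simp)
    · intro x hx
      obtain ⟨b, hb, hxb⟩ := hMmem hν hx
      have h2 : c (Sum.inl ((⟨x, hMY a hx⟩ : Y), g x)) ∈ Z g ν t ∩ Iio a :=
        ⟨Or.inl ⟨⟨x, hMY a hx⟩, rfl⟩, lt_trans (hh2 b ⟨x, hMY a hx⟩ (g x) hxb) (ha b hb)⟩
      rw [hZ] at h2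
      rcases h2.1 with ⟨y, hy⟩ | hy | ⟨s, _, hy⟩
      · have h3 := Sum.inl.inj (c.injective hy)
        have h4 := Prod.mk.inj h3
        have h5 : x = (y : X) := congrArg Subtype.val h4.1
        have h6 : g x = g' (y : X) := h4.2
        have h7 : g' (y : X) = g' x := by rw [← h5]
        exact h6.trans h7
      · exact absurd (c.injective hy) (by simp)
      · exact absurd (c.injective hy) (by simp)
    · rintro s ⟨hst, hsa⟩
      have h2 : c (Sum.inr (Sum.inr s)) ∈ Z g ν t ∩ Iio a :=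
        ⟨Or.inr (Or.inr ⟨s, hst, rfl⟩), lt_trans (hh1 s).2 (ha s hsa)⟩
      rw [hZ] at h2
      rcases h2.1 with ⟨y, hy⟩ | hy | ⟨s', hs', hy⟩
      · exact absurd (c.injective hy) (by simp)
      · exact absurd (c.injective hy) (by simp)
      · have h3 : s = s' := Sum.inr.inj (Sum.inr.inj (c.injective hy))
        exact ⟨h3 ▸ hs', hsa⟩
  -- the bad homomorphisms
  have hk : ∀ a, ∃ k : X →+ C, (∀ x ∈ M a, k x = 0) ∧ (a ∈ S → ∀ g : X →+ D,
      (∀ x ∈ M a, g x = 0) → ∃ x ∈ N a, π (g x) ≠ k x) := by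
    intro a
    by_cases haS : a ∈ S
    · have hb := bad a haS
      unfold L at hb
      push Not at hb
      obtain ⟨k, hk, hk'⟩ := hb
      exact ⟨k, hk, fun _ g hg => hk' g hg⟩
    · exact ⟨0, fun _ _ => rfl, fun h' => absurd h' haS⟩
  choose k hk0 hk1 using hk
  obtain ⟨ft, gt, hdep, hlow, hin, hout⟩ := Dia_tree hC N hNmono k
    (fun a b hb x hx => hk0 a x (hNM hb hx))
  have hlowM : ∀ t a, ∀ b < a, ∀ x ∈ M a, ft t x = gt t a x := by
    intro t a b0 hb0 x hx
    obtain ⟨b, hb, hxb⟩ := hMmem hb0 hx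
    exact hlow t a b hb x hxb
  obtain ⟨ψ, hψ⟩ := dia (fun a Z' => ∃ (g : X →+ D) (ν : α) (t : Set α), ν < a ∧
    Z g ν t ∩ Iio a = Z' ∧ (∀ x ∈ M a, π (g x) = gt t a x - F ν x) ∧
    ∃ g' : X →+ D, (∀ x ∈ M a, g' x = g x) ∧ ∀ x ∈ N a, π (g' x) = gt t a x + k a x - F ν x)
  let t : Set α := {a | ¬ ψ a}
  obtain ⟨ν, g, hg⟩ := hF (ft t)
  have hclub : IsClub (E ∩ Ioi ν) := by
    refine IsClub.inter ?_ hEclub (Dia_isClub_Ioi hα ν)
    rw [Order.cof_eq_cardinalMk]
    exact hα.ne'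
  obtain ⟨a, ⟨haS, haZ⟩, haE, haν⟩ := hψ (Z g ν t) hclub
  have haν : ν < a := haν
  by_cases hψa : ψ a
  · obtain ⟨g1, ν1, t1, hν1, hZ1, hg1, g2, hg2, hg3⟩ := haZ.2 hψa
    obtain ⟨hνν, hgg, htt⟩ := decode haE hν1 haν hZ1
    obtain ⟨_, _, htt'⟩ := decode haE haν hν1 hZ1.symm
    subst hνν
    have htt'' : t1 ∩ Iio a = t ∩ Iio a := Subset.antisymm htt htt'
    have hgt : gt t1 a = gt t a := hdep t1 t a htt''
    obtain ⟨x, hx, hne⟩ := hk1 a haS (g2 - g) (fun x hx => by
      rw [AddMonoidHom.sub_apply, hg2 x hx, hgg x hx, sub_self])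
    apply hne
    have h5 : π (g x) = ft t x - F ν1 x := hg x (hNY a hx)
    have h6 : ft t x = gt t a x := hout t a (fun h' => h' hψa) x hx
    rw [AddMonoidHom.sub_apply, map_sub, hg3 x hx, h5, h6, hgt]
    abel
  · apply hψa
    apply haZ.1
    refine ⟨g, ν, t, haν, rfl, fun x hx => ?_, g, fun _ _ => rfl, fun x hx => ?_⟩
    · have h5 : π (g x) = ft t x - F ν x := hg x (hMY a hx)
      rw [h5, hlowM t a ν haν x hx]
    · have h5 : π (g x) = ft t x - F ν x := hg x (hNY a hx)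
      rw [h5, hin t a hψa x hx]

end Pool.Agent.ExtSum
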