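import Pool.Agent.ExtSum.Lift
import Pool.Agent.ExtSum.Card

/-! Module HILL: Hill systems. -/

set_option autoImplicit false

namespace Pool.Agent.ExtSum

open Cardinal Set

variable {D C X : Type} [AddCommGroup D] [AddCommGroup C] [AddCommGroup X]
variable {π : D →+ C} {ρ : Cardinal.{0}}

/-- groups of size at most `ρ` -/
theorem HS_small (hρ : ℵ₀ ≤ ρ) (hX : #X ≤ ρ) (h : L π (⊥ : AddSubgroup X) ⊤) :
    HS ρ π (⊥ : AddSubgroup X) ⊤ {⊥, ⊤} := by
  refine ⟨bot_le, fun H _ => bot_le, fun H _ => le_top, Or.inl rfl, ?_, ?_, ?_⟩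
  · intro c hc hne _
    by_cases ht : (⊤ : AddSubgroup X) ∈ c
    · right
      exact top_le_iff.mp (le_sSup ht)
    · left
      refine le_bot_iff.mp (sSup_le ?_)
      intro H hH
      rcases hc hH with h1 | h1
      · exact h1.le
      · exact absurd (h1 ▸ hH) ht
  · intro θ hθ Y _ _
    refine ⟨⊤, Or.inr rfl, fun x _ => AddSubgroup.mem_top x, Set.univ, ?_, ?_⟩
    · rw [mk_univ]
      exact hX.trans hθ
    · rw [AddSubgroup.closure_univ, sup_top_eq]
  · intro H hH
    rcases hH with h1 | h1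
    · rw [h1]; exact h
    · rw [h1]; exact L_of_le le_rfl

/-- The pull back of a subgroup of `Q/P`. -/
private def hillPull (P Q : AddSubgroup X) (H : AddSubgroup (↥Q ⧸ P.addSubgroupOf Q)) :
    AddSubgroup X :=
  (H.comap (QuotientAddGroup.mk' (P.addSubgroupOf Q))).map Q.subtype

private theorem mem_hillPull {P Q : AddSubgroup X} {H : AddSubgroup (↥Q ⧸ P.addSubgroupOf Q)}
    {x : X} : x ∈ hillPull P Q H ↔
      ∃ hx : x ∈ Q, QuotientAddGroup.mk' (P.addSubgroupOf Q) ⟨x, hx⟩ ∈ H := by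
  constructor
  · rintro ⟨y, hy, rfl⟩
    exact ⟨y.2, hy⟩
  · rintro ⟨hx, h⟩
    exact ⟨⟨x, hx⟩, h, rfl⟩

private theorem hillPull_le_iff {P Q : AddSubgroup X}
    {H K : AddSubgroup (↥Q ⧸ P.addSubgroupOf Q)} :
    hillPull P Q H ≤ hillPull P Q K ↔ H ≤ K := by
  constructor
  · intro h z hz
    obtain ⟨y, rfl⟩ := QuotientAddGroup.mk'_surjective (P.addSubgroupOf Q) z
    have h1 : (y : X) ∈ hillPull P Q H := mem_hillPull.mpr ⟨y.2, hz⟩
    obtain ⟨_, h2⟩ := mem_hillPull.mp (h h1)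
    exact h2
  · intro h x hx
    obtain ⟨h1, h2⟩ := mem_hillPull.mp hx
    exact mem_hillPull.mpr ⟨h1, h h2⟩

private theorem L_hillPull (hD : Dvb D) (hC : Dvb C) {P Q : AddSubgroup X}
    (H : AddSubgroup (↥Q ⧸ P.addSubgroupOf Q)) :
    L π (hillPull P Q H) Q ↔ L π H ⊤ := by
  have e1 := L_map (π := π) hD hC Q.subtype
    (H := H.comap (QuotientAddGroup.mk' (P.addSubgroupOf Q))) (K := ⊤)
    (by
      intro x hx
      have : x = 0 := by
        have h0 : (x : X) = 0 := hx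
        exact Subtype.ext h0
      rw [this]
      exact AddSubgroup.zero_mem _)
  have e2 := L_map (π := π) hD hC (QuotientAddGroup.mk' (P.addSubgroupOf Q))
    (H := H.comap (QuotientAddGroup.mk' (P.addSubgroupOf Q))) (K := ⊤)
    (by
      intro x hx
      have h0 : QuotientAddGroup.mk' (P.addSubgroupOf Q) x = 0 := hx
      show QuotientAddGroup.mk' (P.addSubgroupOf Q) x ∈ H
      rw [h0]
      exact H.zero_mem)
  have t1 : (⊤ : AddSubgroup ↥Q).map Q.subtype = Q := by
    rw [← AddMonoidHom.range_eq_map, AddSubgroup.range_subtype]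
  have t2 : (⊤ : AddSubgroup ↥Q).map (QuotientAddGroup.mk' (P.addSubgroupOf Q)) = ⊤ := by
    rw [← AddMonoidHom.range_eq_map]
    exact AddMonoidHom.range_eq_top.mpr (QuotientAddGroup.mk'_surjective _)
  have t3 : (H.comap (QuotientAddGroup.mk' (P.addSubgroupOf Q))).map
      (QuotientAddGroup.mk' (P.addSubgroupOf Q)) = H :=
    AddSubgroup.map_comap_eq_self_of_surjective (QuotientAddGroup.mk'_surjective _) H
  rw [t1] at e1
  rw [t2, t3] at e2
  exact e1.trans e2.symm

private theorem hillPull_bot {P Q : AddSubgroup X} (hPQ : P ≤ Q) : hillPull P Q ⊥ = P := by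
  ext x
  rw [mem_hillPull]
  constructor
  · rintro ⟨hx, h⟩
    have h1 : QuotientAddGroup.mk' (P.addSubgroupOf Q) ⟨x, hx⟩ = 0 := by simpa using h
    have h2 : (⟨x, hx⟩ : ↥Q) ∈ P.addSubgroupOf Q := by
      rw [← QuotientAddGroup.ker_mk' (P.addSubgroupOf Q)]
      exact h1
    exact AddSubgroup.mem_addSubgroupOf.mp h2
  · intro hx
    refine ⟨hPQ hx, ?_⟩
    have h2 : (⟨x, hPQ hx⟩ : ↥Q) ∈ P.addSubgroupOf Q := AddSubgroup.mem_addSubgroupOf.mpr hx
    rw [← QuotientAddGroup.ker_mk' (P.addSubgroupOf Q)] at h2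
    have h3 : QuotientAddGroup.mk' (P.addSubgroupOf Q) ⟨x, hPQ hx⟩ = 0 := h2
    rw [h3]
    exact AddSubgroup.zero_mem _

/-- pull back of a Hill system of `Q/P` -/
theorem HS_pull (hD : Dvb D) (hC : Dvb C) (hρ : ℵ₀ ≤ ρ) {P Q : AddSubgroup X} (hPQ : P ≤ Q)
    (h : ∃ R, HS ρ π (⊥ : AddSubgroup (↥Q ⧸ P.addSubgroupOf Q)) ⊤ R) :
    ∃ R, HS ρ π P Q R := by
  obtain ⟨R, hR⟩ := h
  refine ⟨hillPull P Q '' R, hPQ, ?_, ?_, ?_, ?_, ?_, ?_⟩
  · rintro _ ⟨H, hH, rfl⟩
    calc P = hillPull P Q ⊥ := (hillPull_bot hPQ).symm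
      _ ≤ hillPull P Q H := hillPull_le_iff.mpr bot_le
  · rintro _ ⟨H, hH, rfl⟩
    intro x hx
    exact (mem_hillPull.mp hx).1
  · exact ⟨⊥, hR.bot, hillPull_bot hPQ⟩
  · intro c hc hne hch
    set c0 : Set (AddSubgroup (↥Q ⧸ P.addSubgroupOf Q)) := {H | H ∈ R ∧ hillPull P Q H ∈ c}
      with hc0
    have hsub : c0 ⊆ R := fun H hH => hH.1
    have hne0 : c0.Nonempty := by
      obtain ⟨K, hK⟩ := hne
      obtain ⟨H, hH, rfl⟩ := hc hK
      exact ⟨H, hH, hK⟩
    have hch0 : IsChain (· ≤ ·) c0 := by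
      intro H hH K hK hHK
      have hne' : hillPull P Q H ≠ hillPull P Q K := by
        intro he
        apply hHK
        exact le_antisymm (hillPull_le_iff.mp he.le) (hillPull_le_iff.mp he.ge)
      rcases hch hH.2 hK.2 hne' with h1 | h1
      · exact Or.inl (hillPull_le_iff.mp h1)
      · exact Or.inr (hillPull_le_iff.mp h1)
    refine ⟨sSup c0, hR.chain c0 hsub hne0 hch0, ?_⟩
    apply le_antisymm
    · intro x hx
      obtain ⟨hxQ, hx2⟩ := mem_hillPull.mp hx
      rw [AddSubgroup.mem_sSup_of_directedOn hne0 hch0.directedOn] at hx2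
      obtain ⟨H, hH, hxH⟩ := hx2
      have h1 : hillPull P Q H ≤ sSup c := le_sSup hH.2
      exact h1 (mem_hillPull.mpr ⟨hxQ, hxH⟩)
    · apply sSup_le
      intro K hK
      obtain ⟨H, hH, rfl⟩ := hc hK
      exact hillPull_le_iff.mpr (le_sSup ⟨hH, hK⟩)
  · intro θ hθ Y hYQ hY
    set Y0 : Set (↥Q ⧸ P.addSubgroupOf Q) :=
      Set.range (fun y : Y => QuotientAddGroup.mk' (P.addSubgroupOf Q) ⟨y.1, hYQ y.2⟩) with hY0
    have hY0c : #Y0 ≤ θ := mk_range_le.trans hY
    obtain ⟨H, hH, hYH, Z0, hZ0, hHZ⟩ := hR.small θ hθ Y0 (fun x _ => AddSubgroup.mem_top x) hY0c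
    have hs : ∀ z : ↥Q ⧸ P.addSubgroupOf Q,
        ∃ y : ↥Q, QuotientAddGroup.mk' (P.addSubgroupOf Q) y = z :=
      QuotientAddGroup.mk'_surjective _
    choose s hs using hs
    refine ⟨hillPull P Q H, ⟨H, hH, rfl⟩, ?_, (fun z => (s z : X)) '' Z0, mk_image_le.trans hZ0, ?_⟩
    · intro y hy
      exact mem_hillPull.mpr ⟨hYQ hy, hYH ⟨⟨y, hy⟩, rfl⟩⟩
    · apply le_antisymm
      · intro x hx
        obtain ⟨hxQ, hx2⟩ := mem_hillPull.mp hx
        rw [hHZ, bot_sup_eq] at hx2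
        -- the closure of `Z0` is the image of the closure of the lifted set
        have key : ∀ z ∈ AddSubgroup.closure Z0,
            ∃ y : ↥Q, (y : X) ∈ AddSubgroup.closure ((fun z => (s z : X)) '' Z0) ∧
              QuotientAddGroup.mk' (P.addSubgroupOf Q) y = z := by
          intro z hz
          induction hz using AddSubgroup.closure_induction with
          | mem z hz =>
            exact ⟨s z, AddSubgroup.subset_closure ⟨z, hz, rfl⟩, hs z⟩
          | zero => exact ⟨0, by simp, map_zero _⟩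
          | add a b _ _ ha hb =>
            obtain ⟨y, hy, rfl⟩ := ha
            obtain ⟨y', hy', rfl⟩ := hb
            exact ⟨y + y', by
              rw [AddSubgroup.coe_add]; exact AddSubgroup.add_mem _ hy hy', map_add _ _ _⟩
          | neg a _ ha =>
            obtain ⟨y, hy, rfl⟩ := ha
            exact ⟨-y, by
              rw [AddSubgroup.coe_neg]; exact AddSubgroup.neg_mem _ hy, map_neg _ _⟩
        obtain ⟨y, hy, hyx⟩ := key _ hx2
        have h0 : QuotientAddGroup.mk' (P.addSubgroupOf Q) (⟨x, hxQ⟩ - y) = 0 := by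
          rw [map_sub, hyx, sub_self]
        have h1 : (⟨x, hxQ⟩ - y : ↥Q) ∈ P.addSubgroupOf Q := by
          rw [← QuotientAddGroup.ker_mk' (P.addSubgroupOf Q)]
          exact h0
        have h2 : x - y ∈ P := by
          have := AddSubgroup.mem_addSubgroupOf.mp h1
          simpa using this
        have h3 : x = (x - y) + y := by abel
        rw [h3]
        exact AddSubgroup.add_mem _ (AddSubgroup.mem_sup_left h2) (AddSubgroup.mem_sup_right hy)
      · apply sup_le
        · calc P = hillPull P Q ⊥ := (hillPull_bot hPQ).symm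
            _ ≤ hillPull P Q H := hillPull_le_iff.mpr bot_le
        · rw [AddSubgroup.closure_le]
          rintro _ ⟨z, hz, rfl⟩
          refine mem_hillPull.mpr ⟨(s z).2, ?_⟩
          have : QuotientAddGroup.mk' (P.addSubgroupOf Q) ⟨(s z : X), (s z).2⟩ = z := hs z
          rw [this, hHZ]
          exact AddSubgroup.mem_sup_right (AddSubgroup.subset_closure hz)
  · rintro _ ⟨H, hH, rfl⟩
    exact (L_hillPull hD hC H).mpr (hR.lift H hH)

/-- relative Hill systems from `FBelow` -/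
theorem HS_of_FBelow (hD : Dvb D) (hC : Dvb C) (hρ : ℵ₀ ≤ ρ) {κ : Cardinal.{0}}
    (hF : FBelow ρ π κ) {P Q : AddSubgroup X} (hPQ : P ≤ Q) (hQ : #Q < κ) (h : L π P Q) :
    ∃ R, HS ρ π P Q R := by
  apply HS_pull hD hC hρ hPQ
  apply hF
  · refine lt_of_le_of_lt ?_ hQ
    exact mk_le_of_surjective (QuotientAddGroup.mk'_surjective (P.addSubgroupOf Q))
  · rw [← L_hillPull hD hC, hillPull_bot hPQ]
    exact h

end Pool.Agent.ExtSum
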