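import Pool.Agent.ExtSum.Defs
import Pool.Agent.ExtSum.Lift
import Pool.Agent.ExtSum.Card

/-! Module HILLB: gluing of Hill systems along a chain. -/

set_option autoImplicit false

namespace Pool.Agent.ExtSum

open Cardinal Set

variable {D C X : Type} [AddCommGroup D] [AddCommGroup C] [AddCommGroup X]
variable {π : D →+ C} {ρ : Cardinal.{0}}

/-- one closure step -/
theorem HillB_step (hρ : ℵ₀ ≤ ρ) {I : Type} [LinearOrder I] (Q : I → AddSubgroup X)
    (R : I → Set (AddSubgroup X)) (hR : ∀ i, HS ρ π (⨆ j < i, Q j) (Q i) (R i))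
    {θ : Cardinal.{0}} (hθ : ρ ≤ θ) (Z : Set X) (hZ : #Z ≤ θ) :
    ∃ Z' : Set X, Z ⊆ Z' ∧ #Z' ≤ θ ∧ ∀ i, ∃ K ∈ R i,
      AddSubgroup.closure Z ⊓ Q i ≤ K ∧
      K ≤ (AddSubgroup.closure Z' ⊓ Q i) ⊔ (⨆ j < i, Q j) := by
  classical
  have hθ' : ℵ₀ ≤ θ := hρ.trans hθ
  set H := AddSubgroup.closure Z with hH
  have hHθ : #H ≤ θ := (mk_closure_le Z).trans (max_le hZ hθ')
  set T : Set I := {i | ¬ (H ⊓ Q i ≤ ⨆ j < i, Q j)} with hT
  have hTx : ∀ i : T, ∃ x, x ∈ H ∧ x ∈ Q i ∧ x ∉ ⨆ j < (i : I), Q j := by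
    intro i
    have := i.2
    simp only [hT, mem_ofPred_eq, SetLike.le_def, not_forall] at this
    obtain ⟨x, hx, hx'⟩ := this
    exact ⟨x, hx.1, hx.2, hx'⟩
  choose x hxH hxQ hxP using hTx
  have hlt : ∀ i j : T, (i : I) < j → x i ≠ x j := by
    intro i j hij h
    apply hxP j
    rw [← h]
    exact (le_iSup₂ (f := fun (k : I) (_ : k < (j : I)) => Q k) (i : I) hij) (hxQ i)
  have hTθ : #T ≤ θ := by
    refine le_trans ?_ hHθ
    refine Cardinal.mk_le_of_injective (f := fun i : T => (⟨x i, hxH i⟩ : H)) ?_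
    intro i j hij
    have h' : x i = x j := congrArg Subtype.val hij
    by_contra hne
    have hne' : (i : I) ≠ j := fun h => hne (Subtype.ext h)
    rcases lt_or_gt_of_ne hne' with h | h
    · exact hlt i j h h'
    · exact hlt j i h h'.symm
  have hsm : ∀ i : I, ∃ K ∈ R i, ((H ⊓ Q i : AddSubgroup X) : Set X) ⊆ K ∧ ∃ Z : Set X, #Z ≤ θ ∧
      K = (⨆ j < i, Q j) ⊔ AddSubgroup.closure Z := by
    intro i
    refine (hR i).small θ hθ _ ?_ ?_
    · intro y hy; exact hy.2
    · refine le_trans (Cardinal.mk_le_mk_of_subset (t := (H : Set X)) ?_) hHθ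
      intro y hy; exact hy.1
  choose K hKR hKle Zi hZi hKeq using hsm
  refine ⟨Z ∪ ⋃ i : T, Zi i, subset_union_left, ?_, ?_⟩
  · refine (Cardinal.mk_union_le _ _).trans ?_
    refine Cardinal.add_le_of_le hθ' hZ ?_
    refine (Cardinal.mk_iUnion_le _).trans ?_
    refine Cardinal.mul_le_of_le hθ' hTθ ?_
    exact ciSup_le' (fun i => hZi i)
  · intro i
    by_cases hi : i ∈ T
    · refine ⟨K i, hKR i, hKle i, ?_⟩
      rw [hKeq i]
      refine sup_le le_sup_right (le_trans (le_inf ?_ ?_) le_sup_left)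
      · apply AddSubgroup.closure_mono
        refine subset_union_of_subset_right ?_ _
        exact subset_iUnion (fun i : T => Zi i) ⟨i, hi⟩
      · refine le_trans ?_ ((hR i).mem_le _ (hKR i))
        conv_rhs => rw [hKeq i]
        exact le_sup_right
    · refine ⟨⨆ j < i, Q j, (hR i).bot, ?_, le_sup_right⟩
      simpa [hT] using hi

/-- gluing of Hill systems along a chain -/
theorem HS_glue (hD : Dvb D) (hρ : ℵ₀ ≤ ρ) {I : Type} [LinearOrder I] [WellFoundedLT I]
    (Q : I → AddSubgroup X) (hQ : Monotone Q) (htop : ⨆ i, Q i = ⊤)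
    (R : I → Set (AddSubgroup X)) (hR : ∀ i, HS ρ π (⨆ j < i, Q j) (Q i) (R i)) :
    ∃ R', HS ρ π (⊥ : AddSubgroup X) ⊤ R' := by
  classical
  refine ⟨{H | ∀ i, (H ⊓ Q i) ⊔ (⨆ j < i, Q j) ∈ R i}, ?_⟩
  refine ⟨bot_le, fun H _ => bot_le, fun H _ => le_top, ?_, ?_, ?_, ?_⟩
  · intro i
    rw [bot_inf_eq, bot_sup_eq]
    exact (hR i).bot
  · intro c hc hne hch i
    have key : (sSup c ⊓ Q i) ⊔ (⨆ j < i, Q j) =
        sSup ((fun H : AddSubgroup X => (H ⊓ Q i) ⊔ (⨆ j < i, Q j)) '' c) := by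
      apply le_antisymm
      · apply sup_le
        · rintro y ⟨hy1, hy2⟩
          have hy1' : y ∈ sSup c := hy1
          rw [AddSubgroup.mem_sSup_of_directedOn hne hch.directedOn] at hy1'
          obtain ⟨H, hHc, hyH⟩ := hy1'
          have h1 : (H ⊓ Q i) ⊔ (⨆ j < i, Q j) ≤
              sSup ((fun H : AddSubgroup X => (H ⊓ Q i) ⊔ (⨆ j < i, Q j)) '' c) :=
            le_sSup ⟨H, hHc, rfl⟩
          exact h1 (le_sup_left (a := H ⊓ Q i) ⟨hyH, hy2⟩)
        · obtain ⟨H, hHc⟩ := hne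
          have h1 : (H ⊓ Q i) ⊔ (⨆ j < i, Q j) ≤
              sSup ((fun H : AddSubgroup X => (H ⊓ Q i) ⊔ (⨆ j < i, Q j)) '' c) :=
            le_sSup ⟨H, hHc, rfl⟩
          exact le_trans le_sup_right h1
      · apply sSup_le
        rintro _ ⟨H, hHc, rfl⟩
        exact sup_le_sup_right (inf_le_inf_right _ (le_sSup hHc)) _
    show (sSup c ⊓ Q i) ⊔ (⨆ j < i, Q j) ∈ R i
    rw [key]
    apply (hR i).chain
    · rintro _ ⟨H, hHc, rfl⟩
      exact hc hHc i
    · exact hne.image _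
    · rintro _ ⟨H, hHc, rfl⟩ _ ⟨H', hHc', rfl⟩ _
      rcases hch.total hHc hHc' with h | h
      · left; exact sup_le_sup_right (inf_le_inf_right _ h) _
      · right; exact sup_le_sup_right (inf_le_inf_right _ h) _
  · intro θ hθ Y _ hYθ
    have hθ' : ℵ₀ ≤ θ := hρ.trans hθ
    have step := fun (Z : {Z : Set X // #Z ≤ θ}) => HillB_step hρ Q R hR hθ Z.1 Z.2
    choose S hS1 hS2 hS3 using step
    let F : ℕ → {Z : Set X // #Z ≤ θ} :=
      fun n => Nat.rec ⟨Y, hYθ⟩ (fun _ Z => ⟨S Z, hS2 Z⟩) n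
    have hF1 : ∀ n, (F n).1 ⊆ (F (n+1)).1 := fun n => hS1 (F n)
    have hFmono : Monotone (fun n => (F n).1) := monotone_nat_of_le_succ hF1
    have hF3 : ∀ n i, ∃ K ∈ R i,
      AddSubgroup.closure (F n).1 ⊓ Q i ≤ K ∧
      K ≤ (AddSubgroup.closure (F (n+1)).1 ⊓ Q i) ⊔ (⨆ j < i, Q j) := fun n i => hS3 (F n) i
    choose K hKR hK1 hK2 using hF3
    set W : Set X := ⋃ n, (F n).1 with hW
    have hWn : ∀ n, (F n).1 ⊆ W := fun n => subset_iUnion (fun n => (F n).1) n
    have hclW : AddSubgroup.closure W = ⨆ n, AddSubgroup.closure (F n).1 := by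
      rw [hW, AddSubgroup.closure_iUnion]
    refine ⟨AddSubgroup.closure W, ?_, ?_, W, ?_, ?_⟩
    · intro i
      have hKmono : Monotone (fun n => K n i) := by
        apply monotone_nat_of_le_succ
        intro n
        refine (hK2 n i).trans (sup_le (hK1 (n+1) i) ((hR i).le_mem _ (hKR (n+1) i)))
      have heq : (AddSubgroup.closure W ⊓ Q i) ⊔ (⨆ j < i, Q j) = sSup (range (fun n => K n i)) := by
        apply le_antisymm
        · apply sup_le
          · rintro y ⟨hy1, hy2⟩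
            have hy1' : y ∈ AddSubgroup.closure W := hy1
            rw [hclW, AddSubgroup.mem_iSup_of_directed] at hy1'
            · obtain ⟨n, hn⟩ := hy1'
              have h1 : K n i ≤ sSup (range (fun n => K n i)) := le_sSup ⟨n, rfl⟩
              exact h1 (hK1 n i ⟨hn, hy2⟩)
            · apply Monotone.directed_le
              intro a b hab
              exact AddSubgroup.closure_mono (hFmono hab)
          · have h1 : K 0 i ≤ sSup (range (fun n => K n i)) := le_sSup ⟨0, rfl⟩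
            exact le_trans ((hR i).le_mem _ (hKR 0 i)) h1
        · apply sSup_le
          rintro _ ⟨n, rfl⟩
          refine (hK2 n i).trans (sup_le_sup_right (inf_le_inf_right _ ?_) _)
          exact AddSubgroup.closure_mono (hWn (n+1))
      show (AddSubgroup.closure W ⊓ Q i) ⊔ (⨆ j < i, Q j) ∈ R i
      rw [heq]
      apply (hR i).chain
      · rintro _ ⟨n, rfl⟩
        exact hKR n i
      · exact range_nonempty _
      · exact hKmono.isChain_range
    · exact (hWn 0).trans AddSubgroup.subset_closure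
    · refine (Cardinal.mk_iUnion_le _).trans ?_
      refine Cardinal.mul_le_of_le hθ' ?_ (ciSup_le' (fun i => (F i).2))
      simpa using hθ'
    · rw [bot_sup_eq]
  · intro H hH
    rw [← htop]
    apply L_chain hD H Q hQ
    intro i
    exact L_modular hD (hR i).le ((hR i).lift _ (hH i))

end Pool.Agent.ExtSum
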