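import Pool.Agent.ExtSum.Reg
import Pool.Agent.ExtSum.Hill
import Pool.Agent.ExtSum.HillB

/-! Module FREG: Hill systems for groups of regular cardinality. -/

set_option autoImplicit false

namespace Pool.Agent.ExtSum

open Cardinal Set

variable {D C : Type} [AddCommGroup D] [AddCommGroup C]
variable {π : D →+ C} {ρ : Cardinal.{0}}

theorem F_reg (hD : Dvb D) (hC : Dvb C) (hρ : ℵ₀ ≤ ρ) (hDρ : #D ≤ ρ) (dia : DiamondsAbove ρ)
    {κ : Cardinal.{0}} (hκ : κ.IsRegular) (hρκ : ρ < κ) (hF : FBelow ρ π κ)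
    (X : Type) [AddCommGroup X] (hX : #X = κ) (h : L π (⊥ : AddSubgroup X) ⊤) :
    ∃ R, HS ρ π (⊥ : AddSubgroup X) ⊤ R := by
  obtain ⟨α, iα, iw, ir, hα⟩ := exists_regular_order κ hκ
  have hω : ℵ₀ < #α := by rw [hα]; exact lt_of_le_of_lt hρ hρκ
  have hρα : ρ < #α := by rw [hα]; exact hρκ
  have hDα : #D < #α := lt_of_le_of_lt hDρ hρα
  obtain ⟨e⟩ : Nonempty (α ≃ X) := Cardinal.eq.mp (hα.trans hX.symm)
  set A : α → AddSubgroup X := fun a => AddSubgroup.closure {e a} with hA
  have hAc : ∀ a, #(A a) < #α := by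
    intro a
    refine lt_of_le_of_lt (mk_closure_le _) ?_
    rw [mk_singleton, max_eq_right one_lt_aleph0.le]
    exact hω
  have htop : (⨆ a, A a) = ⊤ := by
    rw [eq_top_iff]
    intro x _
    obtain ⟨a, rfl⟩ := e.surjective x
    exact AddSubgroup.mem_iSup_of_mem a (AddSubgroup.subset_closure rfl)
  have hext : ext π (⨆ a, A a) ≤ #α := by
    rw [htop]
    have h1 : Lft π (⊤ : AddSubgroup X) = ⊤ := L_bot_iff.mp h
    have h2 : Subsingleton ((X →+ C) ⧸ Lft π (⊤ : AddSubgroup X)) := by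
      rw [h1]
      exact QuotientAddGroup.subsingleton_quotient_top
    have h3 : ext π (⊤ : AddSubgroup X) ≤ 1 := le_one_iff_subsingleton.mpr h2
    exact h3.trans (one_lt_aleph0.trans hω).le
  obtain ⟨K, hK, hKL⟩ := reg_club (π := π) hD hC hω hDα
    (fun S hS => dia α S hρα hS) A hAc hext
  -- the least element of `K` above `a`
  have hw : ∀ a : α, ∃ c, (c ∈ K ∧ a < c) ∧ ∀ d, d ∈ K → a < d → c ≤ d := by
    intro a
    obtain ⟨b, hb⟩ := bdd_of_mk_lt hω ({a} : Set α) (by
      rw [mk_singleton]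
      exact one_lt_aleph0.trans hω)
    obtain ⟨c, hcK, hbc⟩ := hK.isCofinal b
    obtain ⟨m, hm, hmin⟩ := WellFounded.has_min (wellFounded_lt (α := α)) {c | c ∈ K ∧ a < c}
      ⟨c, hcK, lt_of_lt_of_le (hb a rfl) hbc⟩
    exact ⟨m, hm, fun d hd had => not_lt.mp (hmin d ⟨hd, had⟩)⟩
  choose w hw hwmin using hw
  have hwmono : Monotone w := fun a b hab => hwmin a (w b) (hw b).1 (lt_of_le_of_lt hab (hw b).2)
  set Q : α → AddSubgroup X := fun a => ⨆ b < w a, A b with hQ
  have hQmono : Monotone Q := by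
    intro a b hab
    refine iSup₂_le ?_
    intro c hc
    exact le_iSup₂ (f := fun b' (_ : b' < w b) => A b') c (lt_of_lt_of_le hc (hwmono hab))
  have hQtop : (⨆ i, Q i) = ⊤ := by
    rw [eq_top_iff, ← htop]
    refine iSup_mono ?_
    intro a
    exact le_iSup₂ (f := fun b' (_ : b' < w a) => A b') a (hw a).2
  have key : ∀ i, ∃ R, HS ρ π (⨆ j < i, Q j) (Q i) R := by
    intro i
    have hle : (⨆ j < i, Q j) ≤ Q i := iSup₂_le fun j hj => hQmono hj.le
    have hQi : #(Q i) < κ := by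
      rw [← hα]
      exact mk_partial_lt hω A hAc (w i)
    refine HS_of_FBelow hD hC hρ hF hle hQi ?_
    by_cases hi : ∃ j, j < i
    · obtain ⟨j0, hj0⟩ := hi
      obtain ⟨s, hs⟩ : ∃ s, IsLUB (w '' Iio i) s := by
        obtain ⟨m, hm, hmin⟩ := WellFounded.has_min (wellFounded_lt (α := α))
          (upperBounds (w '' Iio i))
          ⟨w i, by
            rintro _ ⟨j, hj, rfl⟩
            exact hwmono (le_of_lt hj)⟩
        exact ⟨m, hm, fun d hd => not_lt.mp (hmin d hd)⟩
      have hsK : s ∈ K := hK.isLUB_mem (by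
        rintro _ ⟨j, hj, rfl⟩
        exact (hw j).1) (Set.Nonempty.image w ⟨j0, hj0⟩) hs
      have hQs : (⨆ j < i, Q j) = ⨆ b < s, A b := by
        apply le_antisymm
        · refine iSup₂_le ?_
          intro j hj
          refine iSup₂_le ?_
          intro b hb
          have hjs : w j ≤ s := hs.1 (mem_image_of_mem w hj)
          exact le_iSup₂ (f := fun b' (_ : b' < s) => A b') b (lt_of_lt_of_le hb hjs)
        · refine iSup₂_le ?_
          intro b hb
          obtain ⟨_, ⟨j, hj, rfl⟩, hbj⟩ := (lt_isLUB_iff hs).mp hb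
          exact (le_iSup₂ (f := fun b' (_ : b' < w j) => A b') b hbj).trans
            (le_iSup₂ (f := fun j' (_ : j' < i) => Q j') j hj)
      rw [hQs]
      exact hKL s hsK (w i)
    · push Not at hi
      have hb : (⨆ j < i, Q j) = ⊥ := by
        rw [eq_bot_iff]
        exact iSup₂_le fun j hj => absurd hj (not_lt.mpr (hi j))
      rw [hb]
      exact h.mono le_top
  choose R hR using key
  exact HS_glue hD hρ Q hQmono hQtop R hR

end Pool.Agent.ExtSum
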