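import Pool.Agent.ExtSum.MainF

/-! Module MAINZ: groups with small `Ext`. -/

set_option autoImplicit false

namespace Pool.Agent.ExtSum

open Cardinal Set

variable {D C : Type} [AddCommGroup D] [AddCommGroup C]
variable {π : D →+ C} {ρ : Cardinal.{0}}

/-- transfer of a solution from the type `↥G` to the subgroup `G` -/
theorem MainZ_sub_of {X : Type} [AddCommGroup X] (hD : Dvb D) (hC : Dvb C)
    {τ : Cardinal.{0}} (G : AddSubgroup X)
    (h : ∃ H : AddSubgroup ↥G, #H ≤ τ ∧ L π H ⊤) : ∃ H ≤ G, #H ≤ τ ∧ L π H G := by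
  obtain ⟨H, hH, hL⟩ := h
  refine ⟨H.map G.subtype, ?_, ?_, ?_⟩
  · rintro _ ⟨y, _, rfl⟩
    exact y.2
  · have : #(H.map G.subtype : AddSubgroup X) = #H :=
      Cardinal.mk_congr (H.equivMapOfInjective G.subtype G.subtype_injective).symm.toEquiv
    rw [this]; exact hH
  · have hk : G.subtype.ker ≤ H := by
      rw [AddSubgroup.ker_subtype]; exact bot_le
    have := (L_map (π := π) hD hC G.subtype (H := H) (K := ⊤) hk).2 hL
    rwa [← AddMonoidHom.range_eq_map, AddSubgroup.range_subtype] at this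

theorem MainZ_ext_type {X : Type} [AddCommGroup X] (hD : Dvb D) (hC : Dvb C)
    (G : AddSubgroup X) : ext π (⊤ : AddSubgroup ↥G) = ext π G := by
  have := ext_map (π := π) hD hC G.subtype G.subtype_injective ⊤
  rw [← AddMonoidHom.range_eq_map, AddSubgroup.range_subtype] at this
  exact this.symm

/-- the quotient step for singular cardinals -/
theorem MainZ_quot (hD : Dvb D) (hC : Dvb C) (hρ : ℵ₀ ≤ ρ) (hDρ : #D ≤ ρ)
    (dia : DiamondsAbove ρ) {κ : Cardinal.{0}} (hρκ : ρ < κ) (hκ : ¬ κ.IsRegular)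
    (X : Type) [AddCommGroup X] (hX : #X = κ) (H : AddSubgroup X) (hH : #H < κ)
    (h : ∀ G : AddSubgroup X, H ≤ G → #G < κ → L π H G) : L π H ⊤ := by
  have hκ0 : ℵ₀ ≤ κ := hρ.trans hρκ.le
  set q : X →+ X ⧸ H := QuotientAddGroup.mk' H with hq
  have hker : q.ker = H := QuotientAddGroup.ker_mk' H
  have hsurj : Function.Surjective q := QuotientAddGroup.mk'_surjective H
  have hbot : H.map q = ⊥ := (AddSubgroup.map_eq_bot_iff H).2 hker.ge
  have hXprod : #X = #(X ⧸ H) * #H := by
    rw [Cardinal.mk_congr (AddSubgroup.addGroupEquivQuotientProdAddSubgroup (s := H)),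
      Cardinal.mk_prod, Cardinal.lift_id, Cardinal.lift_id]
  have hquot : #(X ⧸ H) = κ := by
    apply le_antisymm
    · rw [← hX]; exact Cardinal.mk_le_of_surjective hsurj
    · by_contra hlt
      push Not at hlt
      have : #(X ⧸ H) * #H < κ := Cardinal.mul_lt_of_lt hκ0 hlt hH
      rw [← hXprod, hX] at this
      exact lt_irrefl _ this
  have hL : L π (⊥ : AddSubgroup (X ⧸ H)) ⊤ := by
    refine S_all hD hC hρ hDρ dia hρκ hκ _ hquot (fun G hG => ?_)
    have hle : H ≤ G.comap q := hker.ge.trans (AddMonoidHom.ker_le_comap q G)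
    have hcard : #(G.comap q : AddSubgroup X) < κ := by
      -- `G.comap q` maps onto `G` with fibres of size `#H`
      let s : ↥(G.comap q) → ↥G × ↥H := fun x =>
        (⟨q x.1, x.2⟩, ⟨x.1 - (Function.surjInv hsurj (q x.1)), hker.le (by
          rw [AddMonoidHom.mem_ker, map_sub, Function.surjInv_eq hsurj, sub_self])⟩)
      have hs : Function.Injective s := by
        intro x y hxy
        have h1 : q x.1 = q y.1 := congrArg Subtype.val (congrArg Prod.fst hxy)
        have h2 : x.1 - (Function.surjInv hsurj (q x.1)) =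
            y.1 - (Function.surjInv hsurj (q y.1)) :=
          congrArg Subtype.val (congrArg Prod.snd hxy)
        rw [h1] at h2
        exact Subtype.ext (sub_left_injective h2)
      have := Cardinal.mk_le_of_injective hs
      rw [Cardinal.mk_prod, Cardinal.lift_id, Cardinal.lift_id] at this
      exact this.trans_lt (Cardinal.mul_lt_of_lt hκ0 hG hH)
    have hL := h (G.comap q) hle hcard
    have := (L_map (π := π) hD hC q (H := H) (K := G.comap q) hker.le).2 hL
    rwa [AddSubgroup.map_comap_eq_self_of_surjective hsurj, hbot] at this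
  apply (L_map (π := π) hD hC q (H := H) (K := ⊤) hker.le).1
  rw [← AddMonoidHom.range_eq_map, AddMonoidHom.range_eq_top.2 hsurj]
  rw [hbot]
  exact hL

theorem MainZ_aux (hD : Dvb D) (hC : Dvb C) (hρ : ℵ₀ ≤ ρ) (hDρ : #D ≤ ρ)
    (dia : DiamondsAbove ρ) {τ : Cardinal.{0}} (hτ : ρ ≤ τ) (μ : Cardinal.{0}) :
    ∀ (X : Type) [AddCommGroup X], #X = μ → ext π (⊤ : AddSubgroup X) ≤ τ →
    ∃ H : AddSubgroup X, #H ≤ τ ∧ L π H ⊤ := by
  induction μ using WellFoundedLT.induction with
  | ind μ ih =>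
    intro X _ hX hext
    have hτ0 : ℵ₀ ≤ τ := hρ.trans hτ
    by_cases hle : μ ≤ τ
    · refine ⟨⊤, ?_, L_of_le le_rfl⟩
      rw [Cardinal.mk_congr (AddSubgroup.topEquiv (G := X)).toEquiv, hX]
      exact hle
    push Not at hle
    have hρμ : ρ < μ := lt_of_le_of_lt hτ hle
    -- induction hypothesis for subgroups
    have hsub : ∀ G : AddSubgroup X, #G < μ → ∃ H ≤ G, #H ≤ τ ∧ L π H G := by
      intro G hG
      apply MainZ_sub_of hD hC G
      apply ih _ hG ↥G rfl
      rw [MainZ_ext_type hD hC]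
      exact (ext_mono le_top).trans hext
    by_cases hreg : μ.IsRegular
    · obtain ⟨α, _, _, _, hα⟩ := exists_regular_order μ hreg
      have hα0 : ℵ₀ < #α := by rw [hα]; exact lt_of_le_of_lt hτ0 hle
      obtain ⟨e⟩ : Nonempty (α ≃ X) := Cardinal.eq.1 (hα.trans hX.symm)
      have hA : ∀ a : α, #(AddSubgroup.closure ({e a} : Set X)) < #α := by
        intro a
        refine (mk_closure_le _).trans_lt ?_
        rw [Cardinal.mk_singleton]
        exact max_lt (Cardinal.one_lt_aleph0.trans hα0) hα0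
      have htop : (⨆ a, AddSubgroup.closure ({e a} : Set X)) = ⊤ := by
        rw [eq_top_iff]
        intro x _
        have hx : x ∈ AddSubgroup.closure ({e (e.symm x)} : Set X) := by
          apply AddSubgroup.subset_closure
          simp
        exact (le_iSup (fun a => AddSubgroup.closure ({e a} : Set X)) (e.symm x)) hx
      obtain ⟨K, hK, hKL⟩ := reg_club (π := π) hD hC hα0
        (by rw [hα]; exact lt_of_le_of_lt hDρ hρμ)
        (fun S hS => dia α S (by rw [hα]; exact hρμ) hS)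
        (fun a => AddSubgroup.closure ({e a} : Set X)) hA (by
          rw [htop, hα]; exact hext.trans hle.le)
      have hne : Nonempty α := by
        rw [← Cardinal.mk_ne_zero_iff, hα]
        exact (pos_of_gt hle).ne'
      obtain ⟨c, hc⟩ := hK.nonempty
      have htopL := reg_top (π := π) hD hα0 _ hK hKL hc
      rw [htop] at htopL
      obtain ⟨H, hHle, hHc, hHL⟩ := hsub (⨆ b < c, AddSubgroup.closure ({e b} : Set X)) (by
        have := mk_partial_lt hα0 _ hA c
        rwa [hα] at this)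
      exact ⟨H, hHc, hHL.trans htopL hHle⟩
    · have hsucc : Order.succ τ < μ := by
        refine lt_of_le_of_ne (Order.succ_le_of_lt hle) ?_
        rintro rfl
        exact hreg (Cardinal.isRegular_succ hτ0)
      obtain ⟨H, _, hH, hHL⟩ := good (π := π) (X := X) hD hC hρ hDρ dia hτ hsucc
        (F_all hD hC hρ hDρ dia μ) hsub
        (fun G _ => ((ext_mono le_top).trans hext).trans (Order.le_succ τ)) ∅ (by simp)
      exact ⟨H, hH, MainZ_quot hD hC hρ hDρ dia hρμ hreg X hX H (lt_of_le_of_lt hH hle) hHL⟩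

theorem Z_all (hD : Dvb D) (hC : Dvb C) (hρ : ℵ₀ ≤ ρ) (hDρ : #D ≤ ρ) (dia : DiamondsAbove ρ)
    {τ : Cardinal.{0}} (hτ : ρ ≤ τ) (X : Type) [AddCommGroup X]
    (hX : ext π (⊤ : AddSubgroup X) ≤ τ) :
    ∃ H : AddSubgroup X, #H ≤ τ ∧ L π H ⊤ :=
  MainZ_aux hD hC hρ hDρ dia hτ #X X rfl hX

/-- the same inside a group -/
theorem Z_sub (hD : Dvb D) (hC : Dvb C) (hρ : ℵ₀ ≤ ρ) (hDρ : #D ≤ ρ) (dia : DiamondsAbove ρ)
    {τ : Cardinal.{0}} (hτ : ρ ≤ τ) {X : Type} [AddCommGroup X] (G : AddSubgroup X)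
    (hX : ext π G ≤ τ) : ∃ H ≤ G, #H ≤ τ ∧ L π H G := by
  apply MainZ_sub_of hD hC G
  apply Z_all hD hC hρ hDρ dia hτ
  rw [MainZ_ext_type hD hC]
  exact hX

end Pool.Agent.ExtSum
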