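import Pool.Agent.ExtSum.BethA
import Pool.Agent.ExtSum.MainZ

/-! Strong limit cardinals of cofinality `ω`: `Ext(X, ker π)` never has `μ` elements if the
lifting problem is compact below `μ`, or if weak diamonds hold. -/

set_option autoImplicit false

namespace Pool.Agent.ExtSum

open Cardinal Set Ordinal

variable {D C : Type} [AddCommGroup D] [AddCommGroup C]
variable {π : D →+ C} {ρ μ : Cardinal.{0}}

/-- `μ` is an uncountable strong limit cardinal of cofinality `ω`. -/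
structure SLo (μ : Cardinal.{0}) : Prop where
  unc : ℵ₀ < μ
  two : ∀ c < μ, 2 ^ c < μ
  cof : ∃ m : ℕ → Cardinal.{0}, (∀ n, m n < μ) ∧ ∀ c < μ, ∃ n, c ≤ m n

theorem SLo.succ (h : SLo μ) {c : Cardinal.{0}} (hc : c < μ) : Order.succ c < μ :=
  (Order.succ_le_of_lt (cantor c)).trans_lt (h.two c hc)

theorem SLo.power (h : SLo μ) {c d : Cardinal.{0}} (hc : c < μ) (hd : d < μ) : c ^ d < μ := by
  calc c ^ d ≤ (2 ^ c) ^ d := power_le_power_right (cantor c).le
    _ = 2 ^ (c * d) := (power_mul).symm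
    _ < _ := h.two _ (mul_lt_of_lt h.unc.le hc hd)

theorem SLo.not_regular (h : SLo μ) : ¬ μ.IsRegular := by
  intro hreg
  obtain ⟨m, hm, hm'⟩ := h.cof
  have h1 : (⨆ n : ℕ, m n) < μ := by
    apply iSup_lt_of_lt_cof_ord
    · rw [hreg.cof_ord, mk_nat]; exact h.unc
    · exact hm
  obtain ⟨n, hn⟩ := hm' _ (h.succ h1)
  have h2 : m n ≤ ⨆ n : ℕ, m n :=
    le_ciSup (f := m) Cardinal.bddAbove_of_small n
  exact absurd (hn.trans h2) (not_le.2 (Order.lt_succ _))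

theorem exists_SLo (ρ : Cardinal.{0}) : ∃ μ, ρ < μ ∧ SLo μ := by
  let m : ℕ → Cardinal.{0} := fun n => Nat.rec (max ρ ℵ₀) (fun _ c => 2 ^ c) n
  have hm0 : m 0 = max ρ ℵ₀ := rfl
  have hms : ∀ n, m (n + 1) = 2 ^ m n := fun n => rfl
  have hlt : ∀ n, m n < m (n + 1) := fun n => by rw [hms]; exact cantor _
  have hle : ∀ n, m n ≤ ⨆ n : ℕ, m n := fun n =>
    le_ciSup (f := m) Cardinal.bddAbove_of_small n
  have hlt' : ∀ n, m n < ⨆ n : ℕ, m n := fun n => (hlt n).trans_le (hle (n + 1))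
  have hex : ∀ c < ⨆ n : ℕ, m n, ∃ n, c ≤ m n := by
    intro c hc
    obtain ⟨n, hn⟩ := exists_lt_of_lt_ciSup hc
    exact ⟨n, hn.le⟩
  refine ⟨⨆ n : ℕ, m n, ?_, ?_, ?_, m, hlt', hex⟩
  · exact (le_max_left _ _).trans_lt (hlt' 0)
  · exact (le_max_right _ _).trans_lt (hlt' 0)
  · intro c hc
    obtain ⟨n, hn⟩ := hex c hc
    refine lt_of_le_of_lt (power_le_power_left two_ne_zero hn) ?_
    rw [← hms]
    exact hlt' (n + 1)

/-- diagonalisation of length `ω` -/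
theorem lim_bound (hμ : SLo μ) (hC : Dvb C) (hCμ : #C < μ) (X : Type)
    [AddCommGroup X] (hX : ext π (⊤ : AddSubgroup X) ≤ μ) :
    ∃ τ < μ, ∀ G : AddSubgroup X, #G < μ → ext π G ≤ τ := by
  classical
  by_contra hcon
  push Not at hcon
  obtain ⟨m₀, hm₀, hm₀'⟩ := hμ.cof
  let m : ℕ → Cardinal.{0} := fun n => max ℵ₀ (m₀ n)
  have hm : ∀ n, m n < μ := fun n => max_lt hμ.unc (hm₀ n)
  have hm' : ∀ c < μ, ∃ n, c ≤ m n := fun c hc => by
    obtain ⟨n, hn⟩ := hm₀' c hc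
    exact ⟨n, hn.trans (le_max_right _ _)⟩
  have haleph : ∀ n, ℵ₀ ≤ m n := fun n => le_max_left _ _
  have hsum : μ ≤ Cardinal.sum m := by
    by_contra h
    rw [not_le] at h
    obtain ⟨n, hn⟩ := hm' _ (hμ.succ h)
    exact absurd (hn.trans (le_sum m n)) (not_le.2 (Order.lt_succ _))
  -- choice of the sets `E n`
  obtain ⟨j⟩ : Nonempty (((X →+ C) ⧸ Lft π (⊤ : AddSubgroup X)) ↪
      (Σ n : ℕ, (m n).out)) := by
    have h1 : #((X →+ C) ⧸ Lft π (⊤ : AddSubgroup X)) ≤ #(Σ n : ℕ, (m n).out) := by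
      rw [mk_sigma]
      simp only [mk_out]
      exact hX.trans hsum
    exact h1
  let E : ℕ → Set (X →+ C) := fun n =>
    {f | ∃ q : (X →+ C) ⧸ Lft π (⊤ : AddSubgroup X), (j q).1 = n ∧ Quotient.out q = f}
  have hE : ∀ n, #(E n) ≤ m n := by
    intro n
    have hchoice : ∀ f : E n, ∃ y : (m n).out,
        ∃ q : (X →+ C) ⧸ Lft π (⊤ : AddSubgroup X), Quotient.out q = f.1 ∧ j q = ⟨n, y⟩ := by
      rintro ⟨f, q, hq, hf⟩
      have haux : ∀ (p : Σ n : ℕ, (m n).out), p.1 = n →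
          ∃ y : (m n).out, p = ⟨n, y⟩ := by
        rintro ⟨m, y⟩ hm
        have hm' : m = n := hm
        subst hm'
        exact ⟨y, rfl⟩
      obtain ⟨y, hy⟩ := haux (j q) hq
      exact ⟨y, q, hf, hy⟩
    choose y q hqf hjq using hchoice
    have hinj : Function.Injective y := by
      intro a b hab
      have h1 : j (q a) = j (q b) := by rw [hjq, hjq, hab]
      have h2 : q a = q b := j.injective h1
      apply Subtype.ext
      rw [← hqf a, ← hqf b, h2]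
    have := mk_le_of_injective hinj
    rwa [mk_out] at this
  have hcover : ∀ f : X →+ C, ∃ n, ∃ e ∈ E n, f - e ∈ Lft π (⊤ : AddSubgroup X) := by
    intro f
    refine ⟨(j (f : (X →+ C) ⧸ Lft π (⊤ : AddSubgroup X))).1, _, ⟨_, rfl, rfl⟩, ?_⟩
    have h1 : (QuotientAddGroup.mk (Quotient.out (f : (X →+ C) ⧸ Lft π (⊤ : AddSubgroup X))) :
        (X →+ C) ⧸ Lft π (⊤ : AddSubgroup X)) = f := Quotient.out_eq _
    rw [QuotientAddGroup.eq] at h1
    rwa [show f - Quotient.out (f : (X →+ C) ⧸ Lft π (⊤ : AddSubgroup X)) =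
      -Quotient.out (f : (X →+ C) ⧸ Lft π (⊤ : AddSubgroup X)) + f by abel]
  -- the sequence of subgroups
  have hstep : ∀ (n : ℕ) (G : {G : AddSubgroup X // #G < μ}),
      ∃ G' : {G : AddSubgroup X // #G < μ}, G.1 ≤ G'.1 ∧
        max (m n) (#C ^ #G.1) < ext π G'.1 := by
    rintro n ⟨G, hG⟩
    obtain ⟨G', hG', hlt⟩ := hcon (max (m n) (#C ^ #G))
      (max_lt (hm n) (hμ.power hCμ hG))
    refine ⟨⟨G ⊔ G', ?_⟩, le_sup_left, hlt.trans_le (ext_mono le_sup_right)⟩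
    refine lt_of_le_of_lt (mk_sup_le (θ := max ℵ₀ (max #G #G')) (le_max_left _ _) ?_ ?_)
      (max_lt hμ.unc (max_lt hG hG'))
    · exact (le_max_left _ _).trans (le_max_right _ _)
    · exact (le_max_right _ _).trans (le_max_right _ _)
  choose nx hnx1 hnx2 using hstep
  let s : ℕ → {G : AddSubgroup X // #G < μ} := fun n =>
    Nat.rec ⟨⊥, by
      refine lt_of_le_of_lt (b := ℵ₀) ?_ hμ.unc
      exact (mk_le_aleph0)⟩ (fun n G => nx n G) n
  have hs : ∀ n, s (n + 1) = nx n (s n) := fun n => rfl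
  have hsmono : Monotone fun n => (s n).1 := monotone_nat_of_le_succ fun n => by
    rw [hs]; exact hnx1 n (s n)
  obtain ⟨g, hg⟩ := rec_hom (I := ℕ) hC (fun n => (s (n + 1)).1)
    (fun a b hab => hsmono (Nat.succ_le_succ hab))
    (fun n g => ∀ e ∈ E n, g - e ∉ Lft π (s (n + 1)).1)
    (by
      intro i g g' hgg h e he hL
      apply h e he
      obtain ⟨t, ht⟩ := hL
      exact ⟨t, fun x hx => by
        rw [ht x hx, AddMonoidHom.sub_apply, AddMonoidHom.sub_apply, hgg x hx]⟩)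
    (by
      intro i g _
      obtain ⟨h, hh, hE'⟩ := betha_count (π := π) (s i).1 (s (i + 1)).1 (E i)
        (max (m i) (#C ^ #(s i).1))
        ((haleph i).trans (le_max_left _ _)) ((hE i).trans (le_max_left _ _))
        (le_max_right _ _) (hnx2 i (s i)) g
      refine ⟨g + h, fun j hj x hx => ?_, hE'⟩
      have hx' : x ∈ (s i).1 := hsmono (Nat.succ_le_of_lt hj) hx
      rw [AddMonoidHom.add_apply, hh x hx', add_zero])
  obtain ⟨n, e, he, hL⟩ := hcover g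
  exact hg n e he (Lft_anti le_top hL)

/-- Compactness of the lifting problem forbids `|Ext(X, ker π)| = μ`. -/
theorem ext_ne_lim_of_compact (hμ : SLo μ) (hC : Dvb C) (hCμ : #C < μ) {κ : Cardinal.{0}}
    (hκ : κ < μ) (X : Type) [AddCommGroup X]
    (hcomp : ∀ f : X →+ C, (∀ G : AddSubgroup X, #G < κ → f ∈ Lft π G) →
      f ∈ Lft π (⊤ : AddSubgroup X)) :
    ext π (⊤ : AddSubgroup X) ≠ μ := by
  intro hext
  obtain ⟨τ₀, hτ₀, hb⟩ := lim_bound (π := π) hμ hC hCμ X hext.le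
  set τ : Cardinal.{0} := max τ₀ (max κ ℵ₀) with hτdef
  have hτ : τ < μ := max_lt hτ₀ (max_lt hκ hμ.unc)
  set θ : Cardinal.{0} := Order.succ τ with hθdef
  have hθ : θ < μ := hμ.succ hτ
  have hθ0 : ℵ₀ ≤ θ := ((le_max_right κ ℵ₀).trans (le_max_right _ _)).trans (Order.le_succ τ)
  have hκθ : κ ≤ θ := ((le_max_left κ ℵ₀).trans (le_max_right _ _)).trans (Order.le_succ τ)
  obtain ⟨j⟩ : Nonempty (θ.out ↪ ((X →+ C) ⧸ Lft π (⊤ : AddSubgroup X))) := by
    have h1 : #(θ.out) ≤ #((X →+ C) ⧸ Lft π (⊤ : AddSubgroup X)) := by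
      rw [mk_out]
      exact hθ.le.trans hext.ge
    exact h1
  let r : θ.out → (X →+ C) := fun i => Quotient.out (j i)
  have hr : ∀ i, (QuotientAddGroup.mk (r i) : (X →+ C) ⧸ Lft π (⊤ : AddSubgroup X)) = j i :=
    fun i => Quotient.out_eq _
  have hex : ∀ p : θ.out × θ.out, ∃ G : AddSubgroup X, #G < κ ⊔ ℵ₀ ∧
      (p.1 ≠ p.2 → r p.1 - r p.2 ∉ Lft π G) := by
    rintro ⟨i, i'⟩
    by_cases h : i = i'
    · refine ⟨⊥, ?_, fun h' => absurd h h'⟩
      refine lt_of_lt_of_le (b := ℵ₀) ?_ le_sup_right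
      exact mk_lt_aleph0
    · have h1 : r i - r i' ∉ Lft π (⊤ : AddSubgroup X) := by
        rw [← QuotientAddGroup.eq_iff_sub_mem, hr, hr]
        exact fun h' => h (j.injective h')
      have h2 := mt (hcomp _) h1
      push Not at h2
      obtain ⟨G, hG, hG'⟩ := h2
      exact ⟨G, lt_of_lt_of_le hG le_sup_left, fun _ => hG'⟩
  choose G hG hG' using hex
  set Q : AddSubgroup X := ⨆ p, G p with hQ
  have hθθ : #(θ.out × θ.out) ≤ θ := by
    rw [← mul_def, mk_out, mul_eq_self hθ0]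
  have hQθ : #Q ≤ θ := mk_iSup_le G θ hθ0 hθθ fun p =>
    (hG p).le.trans (sup_le hκθ hθ0)
  have h3 : θ ≤ ext π Q := by
    have hinj : Function.Injective
        (fun i : θ.out => (QuotientAddGroup.mk (r i) : (X →+ C) ⧸ Lft π Q)) := by
      intro i i' h
      by_contra hne
      have h4 : r i - r i' ∈ Lft π Q := by
        rw [← QuotientAddGroup.eq_iff_sub_mem]; exact h
      exact hG' (i, i') hne (Lft_anti (le_iSup G (i, i')) h4)
    have := mk_le_of_injective hinj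
    rwa [mk_out] at this
  have h5 := hb Q (hQθ.trans_lt hθ)
  have h6 : θ ≤ τ := (h3.trans h5).trans (le_max_left _ _)
  exact absurd h6 (not_le.2 (Order.lt_succ τ))

/-- the case `#X ≤ μ` -/
theorem lim_aux (hμ : SLo μ) (hD : Dvb D) (hC : Dvb C) (hρ : ℵ₀ ≤ ρ) (hDρ : #D ≤ ρ)
    (hCρ : #C ≤ ρ) (hρω : ρ < μ) (dia : DiamondsAbove ρ) (X : Type) [AddCommGroup X]
    (hX : #X ≤ μ) : ext π (⊤ : AddSubgroup X) ≠ μ := by
  intro hext
  rcases hX.lt_or_eq with hlt | heq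
  · have h1 := ext_le (π := π) (⊤ : AddSubgroup X)
    rw [Cardinal.mk_congr (AddSubgroup.topEquiv (G := X)).toEquiv, hext] at h1
    exact absurd (hμ.power (lt_of_le_of_lt hCρ hρω) hlt) (not_lt.2 h1)
  · obtain ⟨τ₀, hτ₀, hb⟩ := lim_bound (π := π) hμ hC (lt_of_le_of_lt hCρ hρω) X hext.le
    set τ : Cardinal.{0} := max τ₀ ρ with hτdef
    have hτ : τ < μ := max_lt hτ₀ hρω
    have hρτ : ρ ≤ τ := le_max_right _ _
    have hb' : ∀ G : AddSubgroup X, #G < μ → ext π G ≤ τ := fun G hG =>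
      (hb G hG).trans (le_max_left _ _)
    have hsucc : Order.succ τ < μ := hμ.succ hτ
    obtain ⟨H, _, hH, hHL⟩ := good (π := π) (X := X) hD hC hρ hDρ dia hρτ hsucc
      (F_all hD hC hρ hDρ dia _)
      (fun G hG => Z_sub hD hC hρ hDρ dia hρτ G (hb' G hG))
      (fun G hG => (hb' G (lt_of_le_of_lt hG hsucc)).trans (Order.le_succ τ)) ∅ (by simp)
    have hHω : #H < μ := lt_of_le_of_lt hH hτ
    have hL := MainZ_quot hD hC hρ hDρ dia hρω hμ.not_regular X heq H hHω hHL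
    have h1 : ext π (⊤ : AddSubgroup X) = ext π H := by
      unfold ext
      rw [Lft_eq hL le_top]
    have h2 := hb' H hHω
    rw [← h1, hext] at h2
    exact absurd hτ (not_lt.2 h2)

/-- Weak diamonds forbid `|Ext(X, ker π)| = μ`. -/
theorem ext_ne_lim (hμ : SLo μ) (hD : Dvb D) (hC : Dvb C) (hρ : ℵ₀ ≤ ρ) (hDρ : #D ≤ ρ)
    (hCρ : #C ≤ ρ) (hρω : ρ < μ) (dia : DiamondsAbove ρ) (X : Type) [AddCommGroup X] :
    ext π (⊤ : AddSubgroup X) ≠ μ := by
  intro hext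
  obtain ⟨H, hH, hL⟩ := Z_all (π := π) hD hC hρ hDρ dia hρω.le X hext.le
  have h1 : ext π (⊤ : AddSubgroup X) = ext π H := by
    unfold ext
    rw [Lft_eq hL le_top]
  apply lim_aux (π := π) hμ hD hC hρ hDρ hCρ hρω dia ↥H hH
  rw [MainZ_ext_type hD hC, ← h1, hext]

end Pool.Agent.ExtSum
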