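import Pool.Agent.ExtSum.SC

/-! `δ`-strongly compact cardinals (Bagaria–Magidor). -/

set_option autoImplicit false

namespace Pool.Agent.ExtSum

open Cardinal Set

variable {D C : Type} [AddCommGroup D] [AddCommGroup C]
variable {π : D →+ C}

/-- `κ` is `δ`-strongly compact: every `κ`-complete proper filter on any set can be extended to a
`δ`-complete ultrafilter. -/
def StronglyCompactFor (δ κ : Cardinal.{0}) : Prop :=
  ∀ (X : Type) (f : Filter X), f.NeBot → CardinalInterFilter f κ →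
    ∃ U : Ultrafilter X, (U : Filter X) ≤ f ∧ CardinalInterFilter (U : Filter X) δ

theorem StronglyCompactFor.mono {δ κ κ' : Cardinal.{0}} (h : StronglyCompactFor δ κ)
    (hκ : κ ≤ κ') : StronglyCompactFor δ κ' := by
  intro X f hf hfκ
  exact h X f hf (CardinalInterFilter.of_cardinalInterFilter_of_le f hκ)

/-- strongly compact cardinals are `δ`-strongly compact for `δ ≤ κ` -/
theorem IsStronglyCompact.for {δ κ : Cardinal.{0}} (h : IsStronglyCompact κ) (hδ : δ ≤ κ) :
    StronglyCompactFor δ κ := by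
  intro X f hf hfκ
  obtain ⟨U, hU1, hU2⟩ := h.2.2 X f hf hfκ
  exact ⟨U, hU1, CardinalInterFilter.of_cardinalInterFilter_of_le (U : Filter X) hδ⟩

/-- The filter of the sets of small subsets of `X` which contain all small sets above a fixed
small set. -/
theorem SC2_fine {δ κ : Cardinal.{0}} (h0 : ℵ₀ < κ) (hreg : κ.IsRegular)
    (hsc : StronglyCompactFor δ κ) (X : Type) :
    ∃ U : Ultrafilter {s : Set X // #s < κ}, CardinalInterFilter
      (U : Filter {s : Set X // #s < κ}) δ ∧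
      ∀ x : X, {s : {s : Set X // #s < κ} | x ∈ s.1} ∈ (U : Filter {s : Set X // #s < κ}) := by
  let f : Filter {s : Set X // #s < κ} :=
    { sets := {A | ∃ Y : Set X, #Y < κ ∧ ∀ s : {s : Set X // #s < κ}, Y ⊆ s.1 → s ∈ A}
      univ_sets := ⟨∅, by rw [mk_eq_zero]; exact (zero_lt_one.trans one_lt_aleph0).trans h0,
        fun _ _ => mem_univ _⟩
      sets_of_superset := by
        rintro A B ⟨Y, hY, h⟩ hAB
        exact ⟨Y, hY, fun s hs => hAB (h s hs)⟩
      inter_sets := by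
        rintro A B ⟨Y, hY, h⟩ ⟨Z, hZ, h'⟩
        refine ⟨Y ∪ Z, (mk_union_le Y Z).trans_lt (add_lt_of_lt h0.le hY hZ), fun s hs => ?_⟩
        exact ⟨h s (subset_union_left.trans hs), h' s (subset_union_right.trans hs)⟩ }
  have hmem : ∀ A, A ∈ f ↔
      ∃ Y : Set X, #Y < κ ∧ ∀ s : {s : Set X // #s < κ}, Y ⊆ s.1 → s ∈ A := fun A => Iff.rfl
  have hne : f.NeBot := by
    rw [Filter.neBot_iff]
    intro hbot
    have h2 : (∅ : Set {s : Set X // #s < κ}) ∈ f := by
      rw [hbot]; exact Filter.mem_bot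
    obtain ⟨Y, hY, h⟩ := (hmem _).1 h2
    exact h ⟨Y, hY⟩ Subset.rfl
  have hci : CardinalInterFilter f κ := by
    refine ⟨fun S hS hSf => ?_⟩
    have h1 : ∀ A : S, ∃ Y : Set X, #Y < κ ∧ ∀ s : {s : Set X // #s < κ}, Y ⊆ s.1 → s ∈ A.1 :=
      fun A => (hmem _).1 (hSf A.1 A.2)
    choose Y hY hYs using h1
    refine (hmem _).2 ⟨⋃ A, Y A, ?_, fun s hs => ?_⟩
    · refine (mk_iUnion_le Y).trans_lt ?_
      refine mul_lt_of_lt h0.le hS ?_
      exact iSup_lt_of_lt_cof_ord (by rw [hreg.cof_ord]; exact hS) hY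
    · rw [mem_sInter]
      intro A hA
      exact hYs ⟨A, hA⟩ s ((subset_iUnion Y ⟨A, hA⟩).trans hs)
  obtain ⟨U, hUf, hU⟩ := hsc _ f hne hci
  refine ⟨U, hU, fun x => hUf ?_⟩
  refine (hmem _).2 ⟨{x}, ?_, fun s hs => ?_⟩
  · rw [mk_singleton]
    exact one_lt_aleph0.trans h0
  · exact hs (mem_singleton x)

theorem sc2_compact {δ κ : Cardinal.{0}} (h0 : ℵ₀ < κ) (hreg : κ.IsRegular)
    (hsc : StronglyCompactFor δ κ) (hDδ : #D < δ) (X : Type)
    [AddCommGroup X] (f : X →+ C) (h : ∀ G : AddSubgroup X, #G < κ → f ∈ Lft π G) :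
    f ∈ Lft π (⊤ : AddSubgroup X) := by
  obtain ⟨U, hU, hx⟩ := SC2_fine h0 hreg hsc X
  have h1 : ∀ s : {s : Set X // #s < κ}, ∃ g : X →+ D, ∀ x ∈ s.1, π (g x) = f x := by
    intro s
    obtain ⟨g, hg⟩ := h (AddSubgroup.closure s.1)
      ((mk_closure_le s.1).trans_lt (max_lt s.2 h0))
    exact ⟨g, fun x hx => hg x (AddSubgroup.subset_closure hx)⟩
  choose g hg using h1
  have h2 : ∀ x : X, ∃ d : D, {s | g s x = d} ∈ (U : Filter {s : Set X // #s < κ}) := fun x =>
    SC_value U hU hDδ (fun s => g s x)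
  choose v hv using h2
  refine ⟨{ toFun := v, map_zero' := ?_, map_add' := ?_ }, ?_⟩
  · obtain ⟨s, hs⟩ := U.neBot.nonempty_of_mem (hv 0)
    have hs : g s 0 = v 0 := hs
    rw [← hs, map_zero]
  · intro x y
    obtain ⟨s, ⟨hs1, hs2⟩, hs3⟩ := U.neBot.nonempty_of_mem
      (Filter.inter_mem (Filter.inter_mem (hv x) (hv y)) (hv (x + y)))
    have hs1 : g s x = v x := hs1
    have hs2 : g s y = v y := hs2
    have hs3 : g s (x + y) = v (x + y) := hs3
    rw [← hs1, ← hs2, ← hs3, map_add]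
  · intro x _
    obtain ⟨s, hs1, hs2⟩ := U.neBot.nonempty_of_mem (Filter.inter_mem (hv x) (hx x))
    have hs1 : g s x = v x := hs1
    show π (v x) = f x
    rw [← hs1]
    exact hg s x hs2

end Pool.Agent.ExtSum
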