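import Pool.Agent.ExtSum.Red
import Pool.Agent.ExtSum.LimA
import Pool.Agent.ExtSum.SC2

/-! Assembly. -/

set_option autoImplicit false

namespace Pool.Agent.ExtSum

open Cardinal Set

/-- The splitting problem is not compact at `κ`: there is an extension
`0 → ker p → E → X → 0` of a group with at most `2^ℵ₀` elements by a torsion-free group `X` that
does not split, but splits over every subgroup of `X` with fewer than `κ` elements. -/
def NonCompactAt (κ : Cardinal.{0}) : Prop :=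
  ∃ (E X : Type) (_ : AddCommGroup E) (_ : AddCommGroup X) (p : E →+ X),
    Function.Surjective p ∧ #p.ker ≤ 𝔠 ∧ (∀ n : ℕ, n ≠ 0 → ∀ x : X, n • x = 0 → x = 0) ∧
    (¬ ∃ s : X →+ E, ∀ x, p (s x) = x) ∧
    ∀ G : AddSubgroup X, #G < κ → ∃ s : ↥G →+ E, ∀ x : G, p (s x) = x

/-- There are a torsion-free group `(ι →₀ ℤ) ⧸ R` and a group `B` with at most `2^ℵ₀` elements
such that `Ext((ι →₀ ℤ) ⧸ R, B)` has exactly `μ` elements. -/
def ExtCard (μ : Cardinal.{0}) : Prop :=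
  ∃ (ι B : Type) (_ : AddCommGroup B) (R : AddSubgroup (ι →₀ ℤ)), #B ≤ 𝔠 ∧
    (∀ n : ℕ, n ≠ 0 → ∀ x : (ι →₀ ℤ) ⧸ R, n • x = 0 → x = 0) ∧
    #((↥R →+ B) ⧸ (AddMonoidHom.compHom' (P := B) R.subtype).range) = μ

/-- The weak diamond fails for some stationary subset of some regular cardinal `> ρ`. -/
def WeakDiamondFailsAbove (ρ : Cardinal.{0}) : Prop :=
  ∃ (α : Type) (_ : LinearOrder α) (_ : WellFoundedLT α) (_ : IsRegularCardinalOrder α)
    (S : Set α), ρ < #α ∧ IsStationary S ∧ ¬ WeakDiamond S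

section
variable {D C F : Type} [AddCommGroup D] [AddCommGroup C] [AddCommGroup F] {π : D →+ C}

theorem nonCompact_of (hπ : Function.Surjective π) (hDc : #D ≤ 𝔠)
    (hF : ∀ n : ℕ, n ≠ 0 → ∀ x : F, n • x = 0 → x = 0) (κ : Cardinal.{0}) (f : F →+ C)
    (h1 : ∀ G : AddSubgroup F, #G < κ → f ∈ Lft π G) (h2 : f ∉ Lft π (⊤ : AddSubgroup F)) :
    NonCompactAt κ := by
  let K : AddSubgroup (D × F) :=
    { carrier := {z | π z.1 = f z.2}
      zero_mem' := by simp
      add_mem' := by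
        intro a b ha hb
        have ha : π a.1 = f a.2 := ha
        have hb : π b.1 = f b.2 := hb
        show π (a.1 + b.1) = f (a.2 + b.2)
        rw [map_add, map_add, ha, hb]
      neg_mem' := by
        intro a ha
        have ha : π a.1 = f a.2 := ha
        show π (-a.1) = f (-a.2)
        rw [map_neg, map_neg, ha] }
  have hK : ∀ z : K, π z.1.1 = f z.1.2 := fun z => z.2
  let p : K →+ F := (AddMonoidHom.snd D F).comp K.subtype
  have hp : ∀ z : K, p z = z.1.2 := fun z => rfl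
  refine ⟨K, F, inferInstance, inferInstance, p, ?_, ?_, hF, ?_, ?_⟩
  · intro x
    obtain ⟨d, hd⟩ := hπ (f x)
    exact ⟨⟨(d, x), hd⟩, rfl⟩
  · refine (mk_le_of_injective (f := fun z : p.ker => z.1.1.1) ?_).trans hDc
    intro a b hab
    have ha : a.1.1.2 = 0 := a.2
    have hb : b.1.1.2 = 0 := b.2
    apply Subtype.ext
    apply Subtype.ext
    exact Prod.ext hab (ha.trans hb.symm)
  · rintro ⟨s, hs⟩
    apply h2
    refine ⟨((AddMonoidHom.fst D F).comp K.subtype).comp s, fun x _ => ?_⟩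
    show π (s x).1.1 = f x
    rw [hK, ← hp, hs]
  · intro G hG
    obtain ⟨g, hg⟩ := h1 G hG
    refine ⟨{ toFun := fun x => ⟨(g x, x), hg x x.2⟩, map_zero' := ?_, map_add' := ?_ },
      fun x => rfl⟩
    · apply Subtype.ext
      simp
    · intro x y
      apply Subtype.ext
      simp

theorem extCard_of (hπ : Function.Surjective π) (hD : Dvb D) (hDc : #D ≤ 𝔠)
    (hF : ∀ n : ℕ, n ≠ 0 → ∀ x : F, n • x = 0 → x = 0) :
    ExtCard (ext π (⊤ : AddSubgroup F)) := by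
  let φ : (F →₀ ℤ) →+ F := Finsupp.liftAddHom fun x => (zmultiplesHom F) x
  have hφ : Function.Surjective φ := fun x => ⟨Finsupp.single x 1, by simp [φ]⟩
  let e : (F →₀ ℤ) ⧸ φ.ker ≃+ F := QuotientAddGroup.quotientKerEquivOfSurjective φ hφ
  refine ⟨F, π.ker, inferInstance, φ.ker, (mk_subtype_le _).trans hDc, ?_, ?_⟩
  · intro n hn x hx
    apply e.injective
    rw [map_zero]
    apply hF n hn
    rw [← map_nsmul, hx, map_zero]
  · obtain ⟨E⟩ := iso_X φ.ker π.ker.subtype (Subtype.val_injective) π hπ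
      (AddSubgroup.range_subtype _) (by
        intro h
        obtain ⟨χ, hχ⟩ := fact hD φ.ker.subtype (π.ker.subtype.comp h) (by
          intro a ha
          have : a = 0 := Subtype.ext ha
          rw [this, map_zero])
        exact ⟨χ, fun x => hχ x⟩)
    obtain ⟨E'⟩ := iso_congr e π
    exact Cardinal.mk_congr (E.trans E').toEquiv

end

theorem local_card (I : Type) (hI : 2 ^ 𝔠 < #I)
    (hE : IsExt ((I →₀ ℚ) × (∀ p : Nat.Primes, ZMod p))) : ExtCard #I := by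
  obtain ⟨D, C, F, _, _, _, π, hπ, hD, hC, hDc, hCc, hF, h⟩ := reduction_local I hI hE
  rw [← h]
  exact extCard_of hπ hD hDc hF

theorem local_limit (I : Type) (hI : 𝔠 < #I) (hS : SLo #I)
    (hE : IsExt ((I →₀ ℚ) × (∀ p : Nat.Primes, ZMod p))) :
    (∀ κ < #I, NonCompactAt κ) ∧ (∀ κ < #I, ¬ StronglyCompactFor (Order.succ 𝔠) κ) ∧
      (∀ ρ < #I, WeakDiamondFailsAbove ρ) := by
  have hI2 : 2 ^ 𝔠 < #I := hS.two _ hI
  obtain ⟨D, C, F, _, _, _, π, hπ, hD, hC, hDc, hCc, hF, h⟩ := reduction_local I hI2 hE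
  refine ⟨fun κ hκ => ?_, fun κ hκ hsc => ?_, fun ρ hρ => ?_⟩
  · by_contra hno
    refine ext_ne_lim_of_compact (π := π) hS hC (hCc.trans_lt hI) hκ F (fun f hf => ?_) h
    by_contra hf'
    exact hno (nonCompact_of hπ hDc hF κ f hf hf')
  · set κ' : Cardinal.{0} := Order.succ (max κ ℵ₀) with hκ'
    have h0 : ℵ₀ < κ' := (le_max_right κ ℵ₀).trans_lt (Order.lt_succ _)
    have hreg : κ'.IsRegular := isRegular_succ (le_max_right _ _)
    have hκκ' : κ ≤ κ' := (le_max_left κ ℵ₀).trans (Order.le_succ _)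
    have hκ'I : κ' < #I := hS.succ (max_lt hκ hS.unc)
    exact ext_ne_lim_of_compact (π := π) hS hC (hCc.trans_lt hI) hκ'I F (fun f hf =>
      sc2_compact h0 hreg (hsc.mono hκκ') (hDc.trans_lt (Order.lt_succ _)) F f hf) h
  · by_contra hno
    set ρ' : Cardinal.{0} := max ρ 𝔠 with hρ'
    have hρ'I : ρ' < #I := max_lt hρ hI
    have dia : DiamondsAbove ρ' := by
      intro α _ _ _ S h1 h2
      by_contra h3
      exact hno ⟨α, _, inferInstance, inferInstance, S, (le_max_left _ _).trans_lt h1, h2, h3⟩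
    exact ext_ne_lim (π := π) hS hD hC (aleph0_le_continuum.trans (le_max_right _ _))
      (hDc.trans (le_max_right _ _)) (hCc.trans (le_max_right _ _)) hρ'I dia F h

theorem main :
    (∀ I : Type, IsExt (I →₀ ℚ)) ∧ IsExt (∀ p : Nat.Primes, ZMod p) ∧
    (∀ I : Type, 2 ^ 𝔠 < #I → IsExt ((I →₀ ℚ) × (∀ p : Nat.Primes, ZMod p)) →
      ExtCard #I) ∧
    (∀ I : Type, 𝔠 < #I → SLo #I → IsExt ((I →₀ ℚ) × (∀ p : Nat.Primes, ZMod p)) →
      (∀ κ < #I, NonCompactAt κ) ∧ (∀ κ < #I, ¬ StronglyCompactFor (Order.succ 𝔠) κ) ∧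
      (∀ ρ < #I, WeakDiamondFailsAbove ρ)) ∧
    (Closure →
      (∀ κ : Cardinal.{0}, NonCompactAt κ) ∧
      (∀ κ : Cardinal.{0}, ¬ StronglyCompactFor (Order.succ 𝔠) κ) ∧
      (∀ κ : Cardinal.{0}, ¬ IsStronglyCompact κ) ∧
      (∀ ρ : Cardinal.{0}, WeakDiamondFailsAbove ρ)) := by
  refine ⟨isExt_V, isExt_prod, local_card, local_limit, fun hcl => ?_⟩
  have key : ∀ κ : Cardinal.{0}, NonCompactAt κ ∧ ¬ StronglyCompactFor (Order.succ 𝔠) κ ∧
      WeakDiamondFailsAbove κ := by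
    intro κ
    obtain ⟨μ, hμ, hS⟩ := exists_SLo (max κ 𝔠)
    have hκ : κ < μ := (le_max_left _ _).trans_lt hμ
    have hc : 𝔠 < μ := (le_max_right _ _).trans_lt hμ
    obtain ⟨I, rfl⟩ : ∃ I : Type, #I = μ := ⟨μ.out, mk_out μ⟩
    obtain ⟨h1, h2, h3⟩ := local_limit I hc hS (hcl _ _ (isExt_V I) isExt_prod)
    exact ⟨h1 κ hκ, h2 κ hκ, h3 κ hκ⟩
  refine ⟨fun κ => (key κ).1, fun κ => (key κ).2.1, fun κ hκ => ?_, fun κ => (key κ).2.2⟩
  have hc : (𝔠 : Cardinal.{0}) < κ := by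
    rw [← Cardinal.two_power_aleph0]
    exact sc_two_power hκ hκ.1
  exact (key κ).2.1 (hκ.for (Order.succ_le_of_lt hc))

end Pool.Agent.ExtSum
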