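import Pool.Agent.ExtSum.Dia
import Pool.Agent.ExtSum.Hill

/-! Module GOOD: good subgroups. -/

set_option autoImplicit false

namespace Pool.Agent.ExtSum

open Cardinal Set

variable {D C X : Type} [AddCommGroup D] [AddCommGroup C] [AddCommGroup X]
variable {π : D →+ C} {ρ : Cardinal.{0}}

theorem good (hD : Dvb D) (hC : Dvb C) (hρ : ℵ₀ ≤ ρ) (hDρ : #D ≤ ρ) (dia : DiamondsAbove ρ)
    {θ κ : Cardinal.{0}} (hρθ : ρ ≤ θ) (hθκ : Order.succ θ < κ) (hF : FBelow ρ π κ)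
    (h1 : ∀ G : AddSubgroup X, #G < κ → ∃ H ≤ G, #H ≤ θ ∧ L π H G)
    (h2 : ∀ G : AddSubgroup X, #G ≤ Order.succ θ → ext π G ≤ Order.succ θ)
    (Y : Set X) (hY : #Y ≤ θ) :
    ∃ H : AddSubgroup X, Y ⊆ H ∧ #H ≤ θ ∧ ∀ G : AddSubgroup X, H ≤ G → #G < κ → L π H G := by
  by_contra hcon
  push Not at hcon
  have hθ : ℵ₀ ≤ θ := hρ.trans hρθ
  have hθs : θ < Order.succ θ := Order.lt_succ θ
  -- the claim
  have claim : ∀ H : AddSubgroup X, Y ⊆ H → #H ≤ θ →
      ∃ H' : AddSubgroup X, H ≤ H' ∧ #H' ≤ θ ∧ ¬ L π H H' := by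
    intro H hYH hH
    obtain ⟨G, hHG, hG, hL⟩ := hcon H hYH hH
    obtain ⟨HG, hHGle, hHGc, hHGL⟩ := h1 G hG
    obtain ⟨R, hR⟩ := HS_of_FBelow hD hC hρ hF hHGle hG hHGL
    obtain ⟨H₁, hH₁, hHH₁, Z, hZ, hHZ⟩ := hR.small θ hρθ (H : Set X) hHG hH
    refine ⟨H₁, hHH₁, ?_, ?_⟩
    · rw [hHZ]
      exact mk_sup_le hθ hHGc ((mk_closure_le Z).trans (max_le hZ hθ))
    · intro hLH
      exact hL (hLH.trans (hR.lift H₁ hH₁) hHH₁)
  -- closure of `Y`
  have hYc : #(AddSubgroup.closure Y) ≤ θ := (mk_closure_le Y).trans (max_le hY hθ)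
  have hΦ : ∀ M : AddSubgroup X, ∃ N : AddSubgroup X, #M ≤ θ →
      (M ⊔ AddSubgroup.closure Y ≤ N ∧ #N ≤ θ ∧ ¬ L π (M ⊔ AddSubgroup.closure Y) N) := by
    intro M
    by_cases hM : #M ≤ θ
    · obtain ⟨N, hN⟩ := claim (M ⊔ AddSubgroup.closure Y)
        (fun y hy => AddSubgroup.mem_sup_right (AddSubgroup.subset_closure hy))
        (mk_sup_le hθ hM hYc)
      exact ⟨N, fun _ => hN⟩
    · exact ⟨⊥, fun h => absurd h hM⟩
  choose Φ hΦ using hΦ
  obtain ⟨α, iα, iw, ir, hα⟩ := exists_regular_order (Order.succ θ)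
    (isRegular_succ hθ)
  obtain ⟨A, hA⟩ := exists_inc (I := α) Φ
  have hω : ℵ₀ < #α := by rw [hα]; exact lt_of_le_of_lt hθ hθs
  have hpart : ∀ a : α, #(⨆ b < a, A b : AddSubgroup X) ≤ θ ∧ #(A a) ≤ θ := by
    intro a
    refine mk_partial_le hθ hα A ?_ a
    intro a ha
    rw [hA a]
    exact (hΦ _ ha).2.1
  have hne : Nonempty α := by
    rw [← mk_ne_zero_iff, hα]
    exact (lt_of_le_of_lt zero_le hθs).ne'
  -- the least element
  obtain ⟨a0, -, ha0⟩ := WellFounded.has_min (wellFounded_lt (α := α)) Set.univ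
    ⟨hne.some, trivial⟩
  have ha0' : ∀ a : α, a0 ≤ a := fun a => not_lt.mp (ha0 a trivial)
  have hst : IsStationary (Ioi a0) := by
    apply IsStationary.of_not_isCofinal_compl
    intro hcof
    obtain ⟨a, ha⟩ := bdd_of_mk_lt hω ({a0} : Set α) (by
      rw [mk_singleton]
      exact one_lt_aleph0.trans hω)
    have h0 : a0 < a := ha a0 rfl
    obtain ⟨y, hy, hay⟩ := hcof a
    exact hy (lt_of_lt_of_le h0 hay)
  have hDα : #D < #α := by
    rw [hα]
    exact lt_of_le_of_lt (hDρ.trans hρθ) hθs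
  have hρα : ρ < #α := by
    rw [hα]
    exact lt_of_le_of_lt hρθ hθs
  have hbig := diamond_ext (π := π) hD hC hω hDα (dia α (Ioi a0) hρα hst) A
    (by
      intro a
      rw [hα]
      exact lt_of_le_of_lt (hpart a).2 hθs)
    (by
      intro a ha
      have e1 : (⨆ b < a, A b) ⊔ AddSubgroup.closure Y = ⨆ b < a, A b := by
        apply sup_eq_left.mpr
        have e2 : AddSubgroup.closure Y ≤ A a0 := by
          rw [hA a0]
          exact le_sup_right.trans (hΦ _ (hpart a0).1).1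
        exact e2.trans (le_iSup₂ (f := fun b (_ : b < a) => A b) a0 ha)
      have e3 := hΦ _ (hpart a).1
      rw [e1, ← hA a] at e3
      rw [sup_eq_right.mpr e3.1]
      exact e3.2.2)
  have hsmall := h2 (⨆ a, A a) (mk_iSup_le A (Order.succ θ) (hθ.trans hθs.le) hα.le
    (fun a => (hpart a).2.trans hθs.le))
  rw [hα] at hbig
  exact absurd hbig (not_lt.mpr hsmall)

end Pool.Agent.ExtSum
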