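import Pool.Agent.ExtSum.Lift
import Pool.Agent.ExtSum.Card

/-! Module HILLC: extension of Hill systems. -/

set_option autoImplicit false

namespace Pool.Agent.ExtSum

open Cardinal Set

variable {D C X : Type} [AddCommGroup D] [AddCommGroup C] [AddCommGroup X]
variable {π : D →+ C} {ρ : Cardinal.{0}}

/-- one closure step -/
theorem HillC_step (hρ : ℵ₀ ≤ ρ) {G G' : AddSubgroup X} {R R₁ : Set (AddSubgroup X)}
    (h : HS ρ π ⊥ G R) (h₁ : HS ρ π G G' R₁) {θ : Cardinal.{0}} (hθ : ρ ≤ θ)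
    (Z : Set X) (hZ : #Z ≤ θ) (hZG : Z ⊆ G') :
    ∃ Z' : Set X, Z ⊆ Z' ∧ #Z' ≤ θ ∧ Z' ⊆ G' ∧
      (∃ K ∈ R, AddSubgroup.closure Z ⊓ G ≤ K ∧ K ≤ AddSubgroup.closure Z' ⊓ G) ∧
      (∃ K ∈ R₁, AddSubgroup.closure Z ⊔ G ≤ K ∧ K ≤ AddSubgroup.closure Z' ⊔ G) := by
  classical
  have hθ' : ℵ₀ ≤ θ := hρ.trans hθ
  set H := AddSubgroup.closure Z with hH
  have hHθ : #H ≤ θ := (mk_closure_le Z).trans (max_le hZ hθ')
  obtain ⟨K, hKR, hKle, A, hAθ, hKA⟩ := h.small θ hθ ((H ⊓ G : AddSubgroup X) : Set X)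
    (fun y hy => hy.2)
    (le_trans (Cardinal.mk_le_mk_of_subset (t := (H : Set X)) (fun y hy => hy.1)) hHθ)
  obtain ⟨K₁, hK₁R, hK₁le, B, hBθ, hK₁B⟩ := h₁.small θ hθ Z hZG hZ
  rw [bot_sup_eq] at hKA
  have hAK : A ⊆ K := by rw [hKA]; exact AddSubgroup.subset_closure
  have hBK : AddSubgroup.closure B ≤ K₁ := by rw [hK₁B]; exact le_sup_right
  have hBK' : B ⊆ K₁ := AddSubgroup.subset_closure.trans hBK
  refine ⟨Z ∪ (A ∪ B), subset_union_left, ?_, ?_, ⟨K, hKR, hKle, ?_⟩, ⟨K₁, hK₁R, ?_, ?_⟩⟩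
  · refine (Cardinal.mk_union_le _ _).trans ?_
    refine Cardinal.add_le_of_le hθ' hZ ?_
    refine (Cardinal.mk_union_le _ _).trans ?_
    exact Cardinal.add_le_of_le hθ' hAθ hBθ
  · refine union_subset hZG (union_subset ?_ ?_)
    · intro a ha
      exact h₁.le (h.mem_le K hKR (hAK ha))
    · intro b hb
      exact h₁.mem_le K₁ hK₁R (hBK' hb)
  · refine le_inf ?_ (h.mem_le K hKR)
    rw [hKA]
    apply AddSubgroup.closure_mono
    exact subset_union_of_subset_right subset_union_left _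
  · refine sup_le ?_ (h₁.le_mem K₁ hK₁R)
    rw [hH, AddSubgroup.closure_le]
    exact hK₁le
  · rw [hK₁B]
    refine sup_le le_sup_right (le_trans ?_ le_sup_left)
    apply AddSubgroup.closure_mono
    exact subset_union_of_subset_right subset_union_right _

/-- extension of a Hill system by one step -/
theorem HS_ext (hD : Dvb D) (hρ : ℵ₀ ≤ ρ) {G G' : AddSubgroup X} {R R₁ : Set (AddSubgroup X)}
    (h : HS ρ π ⊥ G R) (h₁ : HS ρ π G G' R₁) :
    HS ρ π ⊥ G' {H | H ≤ G' ∧ H ⊓ G ∈ R ∧ H ⊔ G ∈ R₁} := by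
  classical
  refine ⟨bot_le, fun H _ => bot_le, fun H hH => hH.1, ?_, ?_, ?_, ?_⟩
  · refine ⟨bot_le, ?_, ?_⟩
    · rw [bot_inf_eq]; exact h.bot
    · rw [bot_sup_eq]; exact h₁.bot
  · intro c hc hne hch
    have key1 : sSup c ⊓ G = sSup ((fun H : AddSubgroup X => H ⊓ G) '' c) := by
      apply le_antisymm
      · rintro y ⟨hy1, hy2⟩
        have hy1' : y ∈ sSup c := hy1
        rw [AddSubgroup.mem_sSup_of_directedOn hne hch.directedOn] at hy1'
        obtain ⟨H, hHc, hyH⟩ := hy1'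
        have h1 : H ⊓ G ≤ sSup ((fun H : AddSubgroup X => H ⊓ G) '' c) := le_sSup ⟨H, hHc, rfl⟩
        exact h1 ⟨hyH, hy2⟩
      · apply sSup_le
        rintro _ ⟨H, hHc, rfl⟩
        exact inf_le_inf_right _ (le_sSup hHc)
    have key2 : sSup c ⊔ G = sSup ((fun H : AddSubgroup X => H ⊔ G) '' c) := by
      apply le_antisymm
      · apply sup_le
        · apply sSup_le
          intro H hHc
          have h1 : H ⊔ G ≤ sSup ((fun H : AddSubgroup X => H ⊔ G) '' c) := le_sSup ⟨H, hHc, rfl⟩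
          exact le_sup_left.trans h1
        · obtain ⟨H, hHc⟩ := hne
          have h1 : H ⊔ G ≤ sSup ((fun H : AddSubgroup X => H ⊔ G) '' c) := le_sSup ⟨H, hHc, rfl⟩
          exact le_sup_right.trans h1
      · apply sSup_le
        rintro _ ⟨H, hHc, rfl⟩
        exact sup_le_sup_right (le_sSup hHc) _
    refine ⟨sSup_le (fun H hH => (hc hH).1), ?_, ?_⟩
    · rw [key1]
      apply h.chain
      · rintro _ ⟨H, hHc, rfl⟩
        exact (hc hHc).2.1
      · exact hne.image _
      · rintro _ ⟨H, hHc, rfl⟩ _ ⟨H', hHc', rfl⟩ _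
        rcases hch.total hHc hHc' with h | h
        · left; exact inf_le_inf_right _ h
        · right; exact inf_le_inf_right _ h
    · rw [key2]
      apply h₁.chain
      · rintro _ ⟨H, hHc, rfl⟩
        exact (hc hHc).2.2
      · exact hne.image _
      · rintro _ ⟨H, hHc, rfl⟩ _ ⟨H', hHc', rfl⟩ _
        rcases hch.total hHc hHc' with h | h
        · left; exact sup_le_sup_right h _
        · right; exact sup_le_sup_right h _
  · intro θ hθ Y hYG hYθ
    have hθ' : ℵ₀ ≤ θ := hρ.trans hθ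
    have step := fun (Z : {Z : Set X // #Z ≤ θ ∧ Z ⊆ G'}) =>
      HillC_step hρ h h₁ hθ Z.1 Z.2.1 Z.2.2
    choose S hS1 hS2 hS3 hS4 hS5 using step
    let F : ℕ → {Z : Set X // #Z ≤ θ ∧ Z ⊆ G'} :=
      fun n => Nat.rec ⟨Y, hYθ, hYG⟩ (fun _ Z => ⟨S Z, hS2 Z, hS3 Z⟩) n
    have hF1 : ∀ n, (F n).1 ⊆ (F (n+1)).1 := fun n => hS1 (F n)
    have hFmono : Monotone (fun n => (F n).1) := monotone_nat_of_le_succ hF1
    have hF4 : ∀ n, ∃ K ∈ R, AddSubgroup.closure (F n).1 ⊓ G ≤ K ∧
      K ≤ AddSubgroup.closure (F (n+1)).1 ⊓ G := fun n => hS4 (F n)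
    have hF5 : ∀ n, ∃ K ∈ R₁, AddSubgroup.closure (F n).1 ⊔ G ≤ K ∧
      K ≤ AddSubgroup.closure (F (n+1)).1 ⊔ G := fun n => hS5 (F n)
    choose K hKR hK1 hK2 using hF4
    choose M hMR hM1 hM2 using hF5
    set W : Set X := ⋃ n, (F n).1 with hW
    have hWn : ∀ n, (F n).1 ⊆ W := fun n => subset_iUnion (fun n => (F n).1) n
    have hclW : AddSubgroup.closure W = ⨆ n, AddSubgroup.closure (F n).1 := by
      rw [hW, AddSubgroup.closure_iUnion]
    refine ⟨AddSubgroup.closure W, ⟨?_, ?_, ?_⟩, ?_, W, ?_, ?_⟩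
    · rw [AddSubgroup.closure_le, hW]
      exact iUnion_subset (fun n => (F n).2.2)
    · have hKmono : Monotone K := by
        apply monotone_nat_of_le_succ
        intro n
        exact (hK2 n).trans (hK1 (n+1))
      have heq : AddSubgroup.closure W ⊓ G = sSup (range K) := by
        apply le_antisymm
        · rintro y ⟨hy1, hy2⟩
          have hy1' : y ∈ AddSubgroup.closure W := hy1
          rw [hclW, AddSubgroup.mem_iSup_of_directed] at hy1'
          · obtain ⟨n, hn⟩ := hy1'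
            have h1 : K n ≤ sSup (range K) := le_sSup ⟨n, rfl⟩
            exact h1 (hK1 n ⟨hn, hy2⟩)
          · apply Monotone.directed_le
            intro a b hab
            exact AddSubgroup.closure_mono (hFmono hab)
        · apply sSup_le
          rintro _ ⟨n, rfl⟩
          exact (hK2 n).trans (inf_le_inf_right _ (AddSubgroup.closure_mono (hWn (n+1))))
      rw [heq]
      apply h.chain
      · rintro _ ⟨n, rfl⟩
        exact hKR n
      · exact range_nonempty _
      · exact hKmono.isChain_range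
    · have hMmono : Monotone M := by
        apply monotone_nat_of_le_succ
        intro n
        exact (hM2 n).trans (hM1 (n+1))
      have heq : AddSubgroup.closure W ⊔ G = sSup (range M) := by
        apply le_antisymm
        · apply sup_le
          · rw [hclW]
            apply iSup_le
            intro n
            have h1 : M n ≤ sSup (range M) := le_sSup ⟨n, rfl⟩
            exact (le_sup_left.trans (hM1 n)).trans h1
          · have h1 : M 0 ≤ sSup (range M) := le_sSup ⟨0, rfl⟩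
            exact (le_sup_right.trans (hM1 0)).trans h1
        · apply sSup_le
          rintro _ ⟨n, rfl⟩
          exact (hM2 n).trans (sup_le_sup_right (AddSubgroup.closure_mono (hWn (n+1))) _)
      rw [heq]
      apply h₁.chain
      · rintro _ ⟨n, rfl⟩
        exact hMR n
      · exact range_nonempty _
      · exact hMmono.isChain_range
    · exact (hWn 0).trans AddSubgroup.subset_closure
    · refine (Cardinal.mk_iUnion_le _).trans ?_
      refine Cardinal.mul_le_of_le hθ' ?_ (ciSup_le' (fun i => (F i).2.1))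
      simpa using hθ'
    · rw [bot_sup_eq]
  · rintro H ⟨_, h2, h3⟩
    have hHG : L π H G := L_second hD (h.lift _ h2)
    have hHG' : L π H (H ⊔ G) := by
      intro f hf
      obtain ⟨g, hg1, hg2⟩ := hHG f hf
      refine ⟨g, hg1, ?_⟩
      intro x hx
      obtain ⟨a, ha, b, hb, rfl⟩ := AddSubgroup.mem_sup.1 hx
      rw [map_add, map_add, map_add, hg1 a ha, hf a ha, map_zero, hg2 b hb]
    exact L.trans hHG' (h₁.lift _ h3) le_sup_left

end Pool.Agent.ExtSum
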