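import Pool.Agent.ExtSum.Defs

/-! Module HOM: extension of homomorphisms into divisible groups, gluing, recursion. -/

set_option autoImplicit false

namespace Pool.Agent.ExtSum

open Cardinal Set

theorem baer_of_dvb {D : Type} [AddCommGroup D] (hD : Dvb D) : Module.Baer ℤ D := by
  have h : ∀ (a : D) (m : ℤ), m ≠ 0 → ∃ y : D, m • y = a := by
    intro a m hm
    obtain ⟨y, hy⟩ := hD m.natAbs (Int.natAbs_ne_zero.2 hm) a
    rcases Int.natAbs_eq m with h1 | h1
    · exact ⟨y, by rw [h1, natCast_zsmul]; exact hy⟩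
    · refine ⟨-y, ?_⟩
      rw [h1, neg_smul, smul_neg, neg_neg, natCast_zsmul]; exact hy
  classical
  let _ : DivisibleBy D ℤ :=
    { div := fun a m => if hm : m ≠ 0 then (h a m hm).choose else 0
      div_zero := fun a => by simp
      div_cancel := fun {m} a hm => by
        rw [dif_pos hm]; exact (h a m hm).choose_spec }
  exact Module.Baer.of_divisible D

/-- Homomorphisms into a divisible group factor as soon as the kernels allow it. -/
theorem fact {A Y D : Type} [AddCommGroup A] [AddCommGroup Y] [AddCommGroup D] (hD : Dvb D)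
    (φ : A →+ Y) (ψ : A →+ D) (h : ∀ a, φ a = 0 → ψ a = 0) :
    ∃ χ : Y →+ D, ∀ a, χ (φ a) = ψ a := by
  let ψ' : A ⧸ φ.ker →+ D := QuotientAddGroup.lift φ.ker ψ (fun a ha => h a ha)
  let φ' : A ⧸ φ.ker →+ Y := QuotientAddGroup.kerLift φ
  have hφ' : Function.Injective φ' := QuotientAddGroup.kerLift_injective φ
  obtain ⟨χ, hχ⟩ := (baer_of_dvb hD).extension_property_addMonoidHom φ' hφ' ψ'
  refine ⟨χ, fun a => ?_⟩
  have := congrArg (fun (f : A ⧸ φ.ker →+ D) => f (a : A ⧸ φ.ker)) hχ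
  simpa [φ', ψ'] using this

/-- Gluing of coherent homomorphisms along a chain of subgroups. -/
theorem glue {I X D : Type} [LinearOrder I] [AddCommGroup X] [AddCommGroup D] (hD : Dvb D)
    (N : I → AddSubgroup X) (hN : Monotone N) (g : I → X →+ D)
    (hg : ∀ i j, i ≤ j → ∀ x ∈ N i, g j x = g i x) :
    ∃ g' : X →+ D, ∀ i, ∀ x ∈ N i, g' x = g i x := by
  classical
  by_cases hI : Nonempty I
  swap
  · exact ⟨0, fun i => (hI ⟨i⟩).elim⟩
  have hdir : Directed (· ≤ ·) N := hN.directed_le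
  have hmem : ∀ x, x ∈ (⨆ i, N i) ↔ ∃ i, x ∈ N i := fun x => AddSubgroup.mem_iSup_of_directed hdir
  have hcoh : ∀ i j x, x ∈ N i → x ∈ N j → g i x = g j x := by
    intro i j x hi hj
    rcases le_total i j with h | h
    · exact (hg i j h x hi).symm
    · exact hg j i h x hj
  let idx : ↥(⨆ i, N i) → I := fun x => ((hmem x).1 x.2).choose
  have hidx : ∀ x : ↥(⨆ i, N i), (x : X) ∈ N (idx x) := fun x => ((hmem x).1 x.2).choose_spec
  let ψ : ↥(⨆ i, N i) →+ D :=
    { toFun := fun x => g (idx x) x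
      map_zero' := by simp
      map_add' := by
        intro x y
        have h1 : ∃ k, idx x ≤ k ∧ idx y ≤ k := ⟨max (idx x) (idx y), le_max_left _ _, le_max_right _ _⟩
        obtain ⟨k, hk1, hk2⟩ := h1
        have hx : (x : X) ∈ N k := hN hk1 (hidx x)
        have hy : (y : X) ∈ N k := hN hk2 (hidx y)
        have hxy : ((x + y : ↥(⨆ i, N i)) : X) ∈ N k := by
          rw [AddSubgroup.coe_add]; exact (N k).add_mem hx hy
        show g (idx (x + y)) ((x + y : ↥(⨆ i, N i)) : X) = g (idx x) x + g (idx y) y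
        rw [hcoh _ k _ (hidx (x + y)) hxy, hcoh _ k _ (hidx x) hx, hcoh _ k _ (hidx y) hy,
          AddSubgroup.coe_add, map_add] }
  obtain ⟨χ, hχ⟩ := fact hD (⨆ i, N i).subtype ψ (by
    intro a ha
    have : a = 0 := by
      apply Subtype.ext
      simpa using ha
    rw [this, map_zero])
  refine ⟨χ, fun i x hx => ?_⟩
  have hx' : x ∈ ⨆ i, N i := (hmem x).2 ⟨i, hx⟩
  have h2 := hχ ⟨x, hx'⟩
  have h3 : χ x = g (idx ⟨x, hx'⟩) x := by simpa [ψ] using h2
  rw [h3]
  exact hcoh _ _ _ (hidx ⟨x, hx'⟩) hx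

/-- Transfinite construction of a homomorphism. -/
theorem rec_hom {I X D : Type} [LinearOrder I] [WellFoundedLT I] [AddCommGroup X]
    [AddCommGroup D] (hD : Dvb D) (N : I → AddSubgroup X) (hN : Monotone N)
    (Φ : I → (X →+ D) → Prop)
    (hΦ : ∀ i g g', (∀ x ∈ N i, g x = g' x) → Φ i g → Φ i g')
    (step : ∀ i g, (∀ j < i, Φ j g) → ∃ g', (∀ j < i, ∀ x ∈ N j, g' x = g x) ∧ Φ i g') :
    ∃ g, ∀ i, Φ i g := by
  classical
  let F : (i : I) → ((j : I) → j < i → (X →+ D)) → (X →+ D) := fun i G =>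
    if h : ∃ g' : X →+ D, (∀ j, ∀ hj : j < i, ∀ x ∈ N j, g' x = G j hj x) ∧ Φ i g'
    then h.choose else 0
  let g : I → (X →+ D) := WellFounded.fix wellFounded_lt F
  have hgfix : ∀ i, g i = F i (fun j _ => g j) := fun i => WellFounded.fix_eq wellFounded_lt F i
  have key : ∀ i, (∀ j < i, ∀ x ∈ N j, g i x = g j x) ∧ Φ i (g i) := by
    intro i
    induction i using WellFoundedLT.induction with
    | _ i ih =>
      -- glue below i
      obtain ⟨gs, hgs⟩ := glue hD (I := Iio i) (fun j => N j) (fun a b hab => hN hab)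
        (fun j => g j) (by
          rintro ⟨a, ha⟩ ⟨b, hb⟩ hab x hx
          rcases eq_or_lt_of_le (show a ≤ b from hab) with h | h
          · subst h; rfl
          · exact (ih b hb).1 a h x hx)
      have hgs' : ∀ j < i, ∀ x ∈ N j, gs x = g j x := fun j hj x hx => hgs ⟨j, hj⟩ x hx
      obtain ⟨g', hg', hΦ'⟩ := step i gs (fun j hj =>
        hΦ j (g j) gs (fun x hx => (hgs' j hj x hx).symm) (ih j hj).2)
      have hex : ∃ g' : X →+ D, (∀ j, ∀ hj : j < i, ∀ x ∈ N j, g' x = g j x) ∧ Φ i g' :=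
        ⟨g', fun j hj x hx => (hg' j hj x hx).trans (hgs' j hj x hx), hΦ'⟩
      have hgi : g i = hex.choose := by
        rw [hgfix i]
        exact dif_pos hex
      rw [hgi]
      exact ⟨fun j hj x hx => hex.choose_spec.1 j hj x hx, hex.choose_spec.2⟩
  obtain ⟨g', hg'⟩ := glue hD N hN g (by
    intro a b hab x hx
    rcases eq_or_lt_of_le hab with h | h
    · subst h; rfl
    · exact (key b).1 a h x hx)
  exact ⟨g', fun i => hΦ i (g i) g' (fun x hx => (hg' i x hx).symm) (key i).2⟩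

end Pool.Agent.ExtSum
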