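import Pool.Agent.ExtSum.Good
import Pool.Agent.ExtSum.HillC

/-! Module SING: the construction for singular cardinals. -/

set_option autoImplicit false

namespace Pool.Agent.ExtSum

open Cardinal Set

variable {D C X : Type} [AddCommGroup D] [AddCommGroup C] [AddCommGroup X]
variable {π : D →+ C} {ρ : Cardinal.{0}}

omit [AddCommGroup X] in
private theorem Sing_mk_iUnion_le {J : Type} {θ : Cardinal.{0}} (hθ : ℵ₀ ≤ θ) (hJ : #J ≤ θ)
    (Y : J → Set X) (hY : ∀ j, #(Y j) ≤ θ) : #(⋃ j, Y j : Set X) ≤ θ := by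
  refine (mk_iUnion_le _).trans ?_
  exact (mul_le_mul' hJ (ciSup_le' hY)).trans (mul_eq_self hθ).le

/-- A transfinite increasing choice of members of a Hill system. -/
private theorem Sing_chain {J : Type} [LinearOrder J] [WellFoundedLT J] {G : AddSubgroup X}
    {R : Set (AddSubgroup X)} (hR : HS ρ π ⊥ G R) (κ' : J → Cardinal.{0}) (hκm : Monotone κ')
    (hρκ : ∀ j, ρ ≤ κ' j) (h0 : ∀ j, ℵ₀ ≤ κ' j) (hJ : ∀ j, #J ≤ κ' j) (Y : J → Set X)
    (hYG : ∀ j, Y j ⊆ G) (hY : ∀ j, #(Y j) ≤ κ' j) :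
    ∃ H : J → AddSubgroup X,
      ∀ j, H j ∈ R ∧ #(H j) ≤ κ' j ∧ Y j ⊆ H j ∧ ∀ l < j, H l ≤ H j := by
  classical
  let P : (j : J) → ((l : J) → l < j → AddSubgroup X) → AddSubgroup X → Prop :=
    fun j f H => H ∈ R ∧ #H ≤ κ' j ∧ Y j ⊆ H ∧ ∀ l (hl : l < j), f l hl ≤ H
  let F : (j : J) → ((l : J) → l < j → AddSubgroup X) → AddSubgroup X :=
    fun j f => if h : ∃ H, P j f H then h.choose else ⊥
  let H : J → AddSubgroup X := (wellFounded_lt (α := J)).fix F
  have hH : ∀ j, H j = F j (fun l _ => H l) := fun j => WellFounded.fix_eq _ _ _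
  refine ⟨H, fun j => ?_⟩
  induction j using WellFoundedLT.induction with
  | _ j ih =>
    have hex : ∃ K, P j (fun l _ => H l) K := by
      obtain ⟨K, hK, hSK, Z, hZ, hKZ⟩ := hR.small (κ' j) (hρκ j)
        (Y j ∪ ⋃ l : Iio j, (H l : Set X))
        (union_subset (hYG j) (iUnion_subset fun l => hR.mem_le _ (ih l l.2).1))
        (by
          refine (mk_union_le _ _).trans (add_le_of_le (h0 j) (hY j) ?_)
          refine Sing_mk_iUnion_le (h0 j) ((mk_set_le _).trans (hJ j)) _ fun l => ?_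
          exact (ih l l.2).2.1.trans (hκm (le_of_lt l.2)))
      refine ⟨K, hK, ?_, subset_union_left.trans hSK, fun l hl x hx => ?_⟩
      · rw [hKZ, bot_sup_eq]
        exact (mk_closure_le Z).trans (max_le hZ (h0 j))
      · exact hSK (Or.inr (mem_iUnion.2 ⟨⟨l, hl⟩, hx⟩))
    have h1 := hex.choose_spec
    have h2 : H j = hex.choose := by
      rw [hH j]
      exact dif_pos hex
    rw [← h2] at h1
    exact h1

theorem sing (hD : Dvb D) (hC : Dvb C) (hρ : ℵ₀ ≤ ρ) (hDρ : #D ≤ ρ) (dia : DiamondsAbove ρ)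
    {κ : Cardinal.{0}} (hρκ : ρ < κ) (hκ : ¬ κ.IsRegular) (hF : FBelow ρ π κ) (hX : #X = κ)
    (h : ∀ G : AddSubgroup X, #G < κ → L π ⊥ G) :
    ∃ (J : Type) (_ : LinearOrder J) (_ : WellFoundedLT J) (Q : J → AddSubgroup X),
      Monotone Q ∧ (⨆ i, Q i = ⊤) ∧ (∀ i, #(Q i) < κ) ∧ ∀ i, L π (⨆ j < i, Q j) (Q i) := by
  classical
  have hκ0 : ℵ₀ ≤ κ := hρ.trans hρκ.le
  have hs : κ.IsSingular := .of_not_isRegular hκ0 hκ
  have hlim : ∀ θ < κ, Order.succ θ < κ := fun θ hθ => hs.isSuccLimit.succ_lt hθ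
  obtain ⟨S, hS, hSc⟩ := Order.exists_cof_eq κ.ord.ToType
  have hSκ : #S < κ := by
    rw [hSc, Ordinal.cof_toType]
    exact hs.cof_ord_lt
  obtain ⟨e⟩ : Nonempty (κ.ord.ToType ≃ X) := by
    rw [← Cardinal.eq]
    simp [hX]
  -- the cardinals
  let κ' : S → Cardinal.{0} := fun j => max (max ρ #S) #(Iic (j : κ.ord.ToType))
  have hκ'ρ : ∀ j, ρ ≤ κ' j := fun j => (le_max_left _ _).trans (le_max_left _ _)
  have hκ'0 : ∀ j, ℵ₀ ≤ κ' j := fun j => hρ.trans (hκ'ρ j)
  have hκ'S : ∀ j, #S ≤ κ' j := fun j => (le_max_right _ _).trans (le_max_left _ _)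
  have hκ'I : ∀ j : S, #(Iic (j : κ.ord.ToType)) ≤ κ' j := fun j => le_max_right _ _
  have hκ'm : Monotone κ' := fun i j hij =>
    max_le_max le_rfl (mk_le_mk_of_subset (Iic_subset_Iic.2 hij))
  have hκ'κ : ∀ j, κ' j < κ := by
    intro j
    refine max_lt (max_lt hρκ hSκ) ?_
    have h1 : Iic (j : κ.ord.ToType) = insert (j : κ.ord.ToType) (Iio (j : κ.ord.ToType)) := by
      rw [Iio_insert]
    rw [h1]
    refine mk_insert_le.trans_lt (add_lt_of_lt hκ0 ?_ (one_lt_aleph0.trans_le hκ0))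
    exact mk_Iio_toType_ord_lt _
  -- good subgroups
  have hgood : ∀ (j : S) (Y : Set X), #Y ≤ κ' j →
      ∃ H : AddSubgroup X, Y ⊆ H ∧ #H ≤ κ' j ∧ ∀ G : AddSubgroup X, H ≤ G → #G < κ → L π H G := by
    intro j Y hY
    refine good hD hC hρ hDρ dia (hκ'ρ j) (hlim _ (hκ'κ j)) hF ?_ ?_ Y hY
    · intro G hG
      refine ⟨⊥, bot_le, ?_, h G hG⟩
      have : #(⊥ : AddSubgroup X) = 1 := by simp
      rw [this]
      exact one_le_aleph0.trans (hκ'0 j)
    · intro G hG
      have h1 : Lft π G = ⊤ := L_bot_iff.1 (h G (hG.trans_lt (hlim _ (hκ'κ j))))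
      have h2 : ext π G ≤ 1 := by
        unfold ext
        rw [h1]
        have : Subsingleton ((X →+ C) ⧸ (⊤ : AddSubgroup (X →+ C))) :=
          QuotientAddGroup.subsingleton_quotient_top
        exact le_one_iff_subsingleton.2 this
      exact h2.trans (one_le_aleph0.trans ((hκ'0 j).trans (Order.le_succ _)))
  -- the states
  let Inv : (S → AddSubgroup X) × (S → Set (AddSubgroup X)) → Prop := fun p =>
    ∀ i, #(p.1 i) ≤ κ' i ∧ (∀ K : AddSubgroup X, p.1 i ≤ K → #K < κ → L π (p.1 i) K) ∧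
      HS ρ π ⊥ (p.1 i) (p.2 i)
  let Rel : (S → AddSubgroup X) × (S → Set (AddSubgroup X)) →
      (S → AddSubgroup X) × (S → Set (AddSubgroup X)) → Prop := fun p q =>
    (∃ H : S → S → AddSubgroup X, (∀ i j, H j i ∈ p.2 i ∧ p.1 j ⊓ p.1 i ≤ H j i ∧
      (∀ l < j, H l i ≤ H j i) ∧ H j i ≤ q.1 j)) ∧
    (∀ i, p.1 i ≤ q.1 i) ∧ (∀ i j, j < i → p.1 j ≤ q.1 i) ∧
    (∀ i, ∀ K ∈ q.2 i, K ⊓ p.1 i ∈ p.2 i ∧ L π (K ⊔ p.1 i) (q.1 i))
  have hnext : ∀ p, Inv p → ∃ q, Inv q ∧ Rel p q := by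
    intro p hp
    have h1 : ∀ i, ∃ H : S → AddSubgroup X, ∀ j, H j ∈ p.2 i ∧ #(H j) ≤ κ' j ∧
        ((p.1 j ⊓ p.1 i : AddSubgroup X) : Set X) ⊆ H j ∧ ∀ l < j, H l ≤ H j := by
      intro i
      refine Sing_chain (hp i).2.2 κ' hκ'm hκ'ρ hκ'0 hκ'S
        (fun j => ((p.1 j ⊓ p.1 i : AddSubgroup X) : Set X)) (fun j => ?_) (fun j => ?_)
      · exact fun x hx => hx.2
      · exact (mk_le_mk_of_subset (fun x hx => hx.1 : 
          ((p.1 j ⊓ p.1 i : AddSubgroup X) : Set X) ⊆ (p.1 j : Set X))).trans (hp j).1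
    choose H hH using h1
    have h2 : ∀ i, ∃ G : AddSubgroup X,
        ((p.1 i : Set X) ∪ ((⋃ j : Iio i, (p.1 j : Set X)) ∪ ⋃ l, (H l i : Set X)) ⊆ G) ∧
        #G ≤ κ' i ∧ ∀ K : AddSubgroup X, G ≤ K → #K < κ → L π G K := by
      intro i
      refine hgood i _ ?_
      refine (mk_union_le _ _).trans (add_le_of_le (hκ'0 i) (hp i).1 ?_)
      refine (mk_union_le _ _).trans (add_le_of_le (hκ'0 i) ?_ ?_)
      · refine Sing_mk_iUnion_le (hκ'0 i) ((mk_set_le _).trans (hκ'S i)) _ fun j => ?_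
        exact (hp j).1.trans (hκ'm (le_of_lt j.2))
      · exact Sing_mk_iUnion_le (hκ'0 i) (hκ'S i) _ fun l => (hH l i).2.1
    choose G hG using h2
    have hpG : ∀ i, p.1 i ≤ G i := fun i x hx => (hG i).1 (Or.inl hx)
    have h3 : ∀ i, ∃ R₁, HS ρ π (p.1 i) (G i) R₁ := fun i =>
      HS_of_FBelow hD hC hρ hF (hpG i) ((hG i).2.1.trans_lt (hκ'κ i))
        ((hp i).2.1 _ (hpG i) ((hG i).2.1.trans_lt (hκ'κ i)))
    choose R₁ hR₁ using h3
    refine ⟨(G, fun i => {K | K ≤ G i ∧ K ⊓ p.1 i ∈ p.2 i ∧ K ⊔ p.1 i ∈ R₁ i}),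
      fun i => ⟨(hG i).2.1, (hG i).2.2, HS_ext hD hρ (hp i).2.2 (hR₁ i)⟩,
      ⟨fun j i => H i j, fun i j => ⟨(hH i j).1, (hH i j).2.2.1, (hH i j).2.2.2, ?_⟩⟩, hpG, ?_, ?_⟩
    · exact fun x hx => (hG j).1 (Or.inr (Or.inr (mem_iUnion.2 ⟨i, hx⟩)))
    · exact fun i j hj x hx => (hG i).1 (Or.inr (Or.inl (mem_iUnion.2 ⟨⟨j, hj⟩, hx⟩)))
    · exact fun i K hK => ⟨hK.2.1, (hR₁ i).lift _ hK.2.2⟩
  -- the base
  have hbase : ∃ p, Inv p ∧ ∀ i : S, e '' Iic (i : κ.ord.ToType) ⊆ p.1 i := by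
    have h1 : ∀ i : S, ∃ G : AddSubgroup X, e '' Iic (i : κ.ord.ToType) ⊆ G ∧ #G ≤ κ' i ∧
        ∀ K : AddSubgroup X, G ≤ K → #K < κ → L π G K := fun i =>
      hgood i _ (mk_image_le.trans (hκ'I i))
    choose G hG using h1
    have h2 : ∀ i, ∃ R, HS ρ π ⊥ (G i) R := fun i =>
      HS_of_FBelow hD hC hρ hF bot_le ((hG i).2.1.trans_lt (hκ'κ i))
        (h _ ((hG i).2.1.trans_lt (hκ'κ i)))
    choose R hR using h2
    exact ⟨(G, R), fun i => ⟨(hG i).2.1, (hG i).2.2, hR i⟩, fun i => (hG i).1⟩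
  obtain ⟨p0, hp0, hp0e⟩ := hbase
  -- the sequence
  let St := {p // Inv p}
  have hnext' : ∀ p : St, ∃ q : St, Rel p.1 q.1 := fun p => by
    obtain ⟨q, hq, hr⟩ := hnext p.1 p.2
    exact ⟨⟨q, hq⟩, hr⟩
  choose nx hnx using hnext'
  let s : ℕ → St := fun n => nx^[n] ⟨p0, hp0⟩
  have hs0 : (s 0).1 = p0 := rfl
  have hrel : ∀ n, Rel (s n).1 (s (n + 1)).1 := by
    intro n
    have : s (n + 1) = nx (s n) := Function.iterate_succ_apply' nx n _
    rw [this]
    exact hnx _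
  let G : ℕ → S → AddSubgroup X := fun n => (s n).1.1
  let R : ℕ → S → Set (AddSubgroup X) := fun n => (s n).1.2
  have hGc : ∀ n i, #(G n i) ≤ κ' i := fun n i => ((s n).2 i).1
  have hHS : ∀ n i, HS ρ π ⊥ (G n i) (R n i) := fun n i => ((s n).2 i).2.2
  have hGs : ∀ n i, G n i ≤ G (n + 1) i := fun n i => (hrel n).2.1 i
  have hGm : ∀ i, Monotone fun n => G n i := fun i => monotone_nat_of_le_succ fun n => hGs n i
  have hGj : ∀ n i j, j < i → G n j ≤ G (n + 1) i := fun n i j hj => (hrel n).2.2.1 i j hj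
  have hRK : ∀ n i, ∀ K ∈ R (n + 1) i, K ⊓ G n i ∈ R n i ∧ L π (K ⊔ G n i) (G (n + 1) i) :=
    fun n i K hK => (hrel n).2.2.2 i K hK
  have hRd : ∀ i n m, n ≤ m → ∀ K ∈ R m i, K ⊓ G n i ∈ R n i := by
    intro i n m hnm
    induction m, hnm using Nat.le_induction with
    | base =>
      intro K hK
      rwa [inf_eq_left.2 ((hHS n i).mem_le K hK)]
    | succ m hm ih =>
      intro K hK
      have h1 := ih _ (hRK m i K hK).1
      rwa [inf_assoc, inf_eq_right.2 (hGm i hm)] at h1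
  refine ⟨S, inferInstance, inferInstance, fun i => ⨆ n, G n i, ?_, ?_, ?_, ?_⟩
  · intro j i hji
    rcases hji.eq_or_lt with rfl | hlt
    · exact le_rfl
    · exact iSup_le fun n => (hGj n i j hlt).trans (le_iSup (fun n => G n i) (n + 1))
  · rw [eq_top_iff]
    intro x _
    obtain ⟨i, hi, hxi⟩ := hS (e.symm x)
    have h1 : x ∈ G 0 ⟨i, hi⟩ := hp0e ⟨i, hi⟩ ⟨e.symm x, hxi, by simp⟩
    exact (le_iSup (fun i => ⨆ n, G n i) ⟨i, hi⟩) ((le_iSup (fun n => G n ⟨i, hi⟩) 0) h1)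
  · intro i
    exact (mk_iSup_le _ (κ' i) (hκ'0 i) (mk_nat.le.trans (hκ'0 i)) fun n => hGc n i).trans_lt
      (hκ'κ i)
  · intro i
    set H : AddSubgroup X := ⨆ j < i, ⨆ n, G n j with hHdef
    -- elements of `H`
    have hHel : ∀ x ∈ H, (∀ n, ∃ j < i, ∃ m, n ≤ m ∧ x ∈ G m j) ∨ x = 0 := by
      intro x hx
      by_cases hmin : ∃ j, j < i
      · left
        obtain ⟨j0, hj0⟩ := hmin
        have h1 : H = ⨆ q : {j // j < i} × ℕ, G q.2 q.1 := by
          apply le_antisymm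
          · refine iSup₂_le fun j hj => iSup_le fun n => ?_
            exact le_iSup (fun q : {j // j < i} × ℕ => G q.2 q.1) (⟨j, hj⟩, n)
          · refine iSup_le fun q => ?_
            exact (le_iSup (fun n => G n q.1) q.2).trans
              (le_iSup₂ (f := fun j (_ : j < i) => ⨆ n, G n j) q.1.1 q.1.2)
        have hdir : Directed (· ≤ ·) fun q : {j // j < i} × ℕ => G q.2 q.1.1 := by
          rintro ⟨⟨j, hj⟩, n⟩ ⟨⟨j', hj'⟩, n'⟩
          rcases le_total j j' with hjj | hjj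
          · refine ⟨⟨⟨j', hj'⟩, max n n' + 1⟩, ?_, ?_⟩
            · rcases hjj.eq_or_lt with rfl | hlt
              · exact hGm j ((le_max_left n n').trans (Nat.le_succ _))
              · exact (hGm j (le_max_left n n')).trans (hGj _ _ _ hlt)
            · exact hGm j' ((le_max_right n n').trans (Nat.le_succ _))
          · refine ⟨⟨⟨j, hj⟩, max n n' + 1⟩, ?_, ?_⟩
            · exact hGm j ((le_max_left n n').trans (Nat.le_succ _))
            · rcases hjj.eq_or_lt with rfl | hlt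
              · exact hGm j' ((le_max_right n n').trans (Nat.le_succ _))
              · exact (hGm j' (le_max_right n n')).trans (hGj _ _ _ hlt)
        have : Nonempty ({j // j < i} × ℕ) := ⟨⟨⟨j0, hj0⟩, 0⟩⟩
        rw [h1, AddSubgroup.mem_iSup_of_directed hdir] at hx
        obtain ⟨⟨⟨j, hj⟩, m⟩, hxm⟩ := hx
        intro n
        exact ⟨j, hj, max n m, le_max_left _ _, hGm j (le_max_right n m) hxm⟩
      · right
        have h1 : H = ⊥ := by
          rw [hHdef, eq_bot_iff]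
          refine iSup₂_le fun j hj => ?_
          exact absurd ⟨j, hj⟩ hmin
        rw [h1] at hx
        exact hx
    -- the claim
    have hclaim : ∀ n, H ⊓ G n i ∈ R n i := by
      intro n
      by_cases hmin : ∃ j, j < i
      · obtain ⟨j0, hj0⟩ := hmin
        have h1 : ∀ m, ∃ U ∈ R m i, U ≤ H ∧ (∀ j < i, G m j ⊓ G m i ≤ U) ∧
            ∀ x ∈ U, ∃ j < i, x ∈ G (m + 1) j := by
          intro m
          obtain ⟨W, hW⟩ := (hrel m).1
          refine ⟨sSup ((fun j => W j i) '' Iio i), ?_, ?_, ?_, ?_⟩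
          · refine (hHS m i).chain _ ?_ ⟨_, ⟨j0, hj0, rfl⟩⟩ ?_
            · rintro _ ⟨j, -, rfl⟩
              exact (hW i j).1
            · rintro _ ⟨j, hj, rfl⟩ _ ⟨j', hj', rfl⟩ hne
              rcases lt_trichotomy j j' with hlt | heq | hgt
              · exact Or.inl ((hW i j').2.2.1 j hlt)
              · exact absurd (by rw [heq]) hne
              · exact Or.inr ((hW i j).2.2.1 j' hgt)
          · refine sSup_le ?_
            rintro _ ⟨j, hj, rfl⟩
            refine ((hW i j).2.2.2).trans ?_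
            exact (le_iSup (fun n => G n j) (m + 1)).trans
              (le_iSup₂ (f := fun j (_ : j < i) => ⨆ n, G n j) j hj)
          · intro j hj
            exact ((hW i j).2.1).trans (le_sSup ⟨j, hj, rfl⟩)
          · intro x hx
            have hne : ((fun j => W j i) '' Iio i).Nonempty := ⟨_, ⟨j0, hj0, rfl⟩⟩
            have hdir : DirectedOn (· ≤ ·) ((fun j => W j i) '' Iio i) := by
              rintro _ ⟨j, hj, rfl⟩ _ ⟨j', hj', rfl⟩
              rcases lt_trichotomy j j' with hlt | heq | hgt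
              · exact ⟨_, ⟨j', hj', rfl⟩, (hW i j').2.2.1 j hlt, le_rfl⟩
              · subst heq
                exact ⟨_, ⟨j, hj, rfl⟩, le_rfl, le_rfl⟩
              · exact ⟨_, ⟨j, hj, rfl⟩, le_rfl, (hW i j).2.2.1 j' hgt⟩
            rw [AddSubgroup.mem_sSup_of_directedOn hne hdir] at hx
            obtain ⟨_, ⟨j, hj, rfl⟩, hxj⟩ := hx
            exact ⟨j, hj, (hW i j).2.2.2 hxj⟩
        choose U hUR hUH hUG hUx using h1
        have hmono : ∀ m, n ≤ m → U m ⊓ G n i ≤ U (m + 1) ⊓ G n i := by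
          intro m hm x hx
          obtain ⟨j, hj, hxj⟩ := hUx m x hx.1
          exact ⟨hUG (m + 1) j hj ⟨hxj, hGm i (hm.trans (Nat.le_succ m)) hx.2⟩, hx.2⟩
        let c : ℕ → AddSubgroup X := fun k => U (n + k) ⊓ G n i
        have hcm : Monotone c := monotone_nat_of_le_succ fun k => hmono (n + k) (Nat.le_add_right _ _)
        have h2 : H ⊓ G n i = sSup (range c) := by
          apply le_antisymm
          · intro x hx
            rcases hHel x hx.1 with hel | rfl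
            · obtain ⟨j, hj, m, hm, hxm⟩ := hel n
              have hxc : x ∈ c (m - n) := by
                refine ⟨?_, hx.2⟩
                rw [Nat.add_sub_cancel' hm]
                exact hUG m j hj ⟨hxm, hGm i hm hx.2⟩
              exact le_sSup (mem_range_self (f := c) (m - n)) hxc
            · exact zero_mem _
          · refine sSup_le ?_
            rintro _ ⟨k, rfl⟩
            exact inf_le_inf (hUH _) le_rfl
        rw [h2]
        refine (hHS n i).chain _ ?_ (range_nonempty c) ?_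
        · rintro _ ⟨k, rfl⟩
          exact hRd i n (n + k) (Nat.le_add_right _ _) _ (hUR _)
        · rintro _ ⟨k, rfl⟩ _ ⟨k', rfl⟩ _
          rcases le_total k k' with hk | hk
          · exact Or.inl (hcm hk)
          · exact Or.inr (hcm hk)
      · have h1 : H = ⊥ := by
          rw [hHdef, eq_bot_iff]
          refine iSup₂_le fun j hj => ?_
          exact absurd ⟨j, hj⟩ hmin
        rw [h1, bot_inf_eq]
        exact (hHS n i).bot
    refine L_chain hD H (fun n => G n i) (hGm i) fun n => ?_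
    cases n with
    | zero =>
      have h1 : (⨆ j < 0, G j i) = ⊥ := by simp
      rw [h1, sup_bot_eq]
      exact L_second hD ((hHS 0 i).lift _ (hclaim 0))
    | succ n =>
      have h1 : (⨆ j < n + 1, G j i) = G n i := by
        apply le_antisymm
        · exact iSup₂_le fun j hj => hGm i (Nat.lt_succ_iff.1 hj)
        · exact le_iSup₂ (f := fun j (_ : j < n + 1) => G j i) n (Nat.lt_succ_self n)
      rw [h1]
      exact L_modular hD (hGs n i) (hRK n i _ (hclaim (n + 1))).2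

end Pool.Agent.ExtSum
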