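import Pool.Agent.ExtSum.FReg
import Pool.Agent.ExtSum.Sing

/-! Module MAINF: the structure theorems (inductions on the cardinality). -/

set_option autoImplicit false

namespace Pool.Agent.ExtSum

open Cardinal Set

variable {D C : Type} [AddCommGroup D] [AddCommGroup C]
variable {π : D →+ C} {ρ : Cardinal.{0}}

theorem MainF_aux (hD : Dvb D) (hC : Dvb C) (hρ : ℵ₀ ≤ ρ) (hDρ : #D ≤ ρ)
    (dia : DiamondsAbove ρ) (μ : Cardinal.{0}) :
    ∀ (X : Type) [AddCommGroup X], #X = μ → L π (⊥ : AddSubgroup X) ⊤ →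
      ∃ R, HS ρ π (⊥ : AddSubgroup X) ⊤ R := by
  induction μ using WellFoundedLT.induction with
  | ind μ ih =>
    intro X _ hX hL
    have hF : FBelow ρ π μ := fun Y _ hY hLY => ih #Y hY Y rfl hLY
    by_cases hle : μ ≤ ρ
    · exact ⟨_, HS_small hρ (hX.le.trans hle) hL⟩
    · push Not at hle
      by_cases hreg : μ.IsRegular
      · exact F_reg hD hC hρ hDρ dia hreg hle hF X hX hL
      · obtain ⟨J, _, _, Q, hQm, hQt, hQc, hQL⟩ :=
          sing (π := π) hD hC hρ hDρ dia hle hreg hF hX (fun G _ => hL.mono le_top)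
        have hR : ∀ i, ∃ R, HS ρ π (⨆ j < i, Q j) (Q i) R := fun i =>
          HS_of_FBelow hD hC hρ hF (iSup₂_le fun j hj => hQm hj.le) (hQc i) (hQL i)
        choose R hR using hR
        exact HS_glue hD hρ Q hQm hQt R hR

theorem F_all (hD : Dvb D) (hC : Dvb C) (hρ : ℵ₀ ≤ ρ) (hDρ : #D ≤ ρ) (dia : DiamondsAbove ρ)
    (κ : Cardinal.{0}) : FBelow ρ π κ :=
  fun X _ _ hL => MainF_aux hD hC hρ hDρ dia #X X rfl hL

/-- singular compactness -/
theorem S_all (hD : Dvb D) (hC : Dvb C) (hρ : ℵ₀ ≤ ρ) (hDρ : #D ≤ ρ) (dia : DiamondsAbove ρ)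
    {κ : Cardinal.{0}} (hρκ : ρ < κ) (hκ : ¬ κ.IsRegular) (X : Type) [AddCommGroup X]
    (hX : #X = κ) (h : ∀ G : AddSubgroup X, #G < κ → L π ⊥ G) :
    L π (⊥ : AddSubgroup X) ⊤ := by
  obtain ⟨J, _, _, Q, hQm, hQt, _, hQL⟩ :=
    sing (π := π) hD hC hρ hDρ dia hρκ hκ (F_all hD hC hρ hDρ dia κ) hX h
  have key := L_chain (π := π) hD ⊥ Q hQm (fun i => by rw [bot_sup_eq]; exact hQL i)
  rwa [hQt] at key

end Pool.Agent.ExtSum
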