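import Pool.Agent.ExtSum.Defs

/-! Module REXT: the group `∏ ℤ/p` is an `Ext`. -/

set_option autoImplicit false

namespace Pool.Agent.ExtSum

theorem isExt_prod : IsExt (∀ p : Nat.Primes, ZMod p) := by
  classical
  let R : AddSubgroup (Nat.Primes →₀ ℤ) :=
    { carrier := {x | ∀ p : Nat.Primes, ((p : ℕ) : ℤ) ∣ x p}
      zero_mem' := fun p => by simp
      add_mem' := fun {a b} ha hb p => by
        rw [Finsupp.add_apply]; exact dvd_add (ha p) (hb p)
      neg_mem' := fun {a} ha p => by
        rw [Finsupp.neg_apply, dvd_neg]; exact ha p }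
  refine ⟨Nat.Primes, ℤ, inferInstance, R, ?_⟩
  let r : Nat.Primes → R := fun p => ⟨Finsupp.single p ((p : ℕ) : ℤ), by
    intro q
    by_cases h : p = q
    · subst h; simp
    · simp [h]⟩
  let Φ : (↥R →+ ℤ) →+ (∀ p : Nat.Primes, ZMod p) :=
    { toFun := fun f p => ((f (r p) : ℤ) : ZMod p)
      map_zero' := by ext p; simp
      map_add' := fun f g => by ext p; simp }
  have hsurj : Function.Surjective Φ := by
    intro a
    choose c hc using fun p : Nat.Primes => ZMod.intCast_surjective (a p)
    -- `x ↦ ∑ (x_p / p) c_p`
    let f : ↥R →+ ℤ :=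
      { toFun := fun x => (x : Nat.Primes →₀ ℤ).sum fun p m => m / ((p : ℕ) : ℤ) * c p
        map_zero' := by simp
        map_add' := fun x y => by
          have hx : ∀ p : Nat.Primes, ((x : Nat.Primes →₀ ℤ) + (y : Nat.Primes →₀ ℤ)) p /
              ((p : ℕ) : ℤ) * c p =
              (x : Nat.Primes →₀ ℤ) p / ((p : ℕ) : ℤ) * c p +
              (y : Nat.Primes →₀ ℤ) p / ((p : ℕ) : ℤ) * c p := by
            intro p
            rw [Finsupp.add_apply, Int.add_ediv_of_dvd_left (x.2 p), add_mul]
          have hsum : ∀ (z : Nat.Primes →₀ ℤ) (s : Finset Nat.Primes), z.support ⊆ s →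
              (z.sum fun p m => m / ((p : ℕ) : ℤ) * c p) =
              ∑ p ∈ s, z p / ((p : ℕ) : ℤ) * c p := by
            intro z s hs
            exact Finsupp.sum_of_support_subset _ hs _ (fun p _ => by simp)
          have h0 : ((x + y : ↥R) : Nat.Primes →₀ ℤ) = (x : Nat.Primes →₀ ℤ) + y := rfl
          rw [h0]
          rw [hsum _ ((x : Nat.Primes →₀ ℤ).support ∪ (y : Nat.Primes →₀ ℤ).support)
              Finsupp.support_add,
            hsum _ ((x : Nat.Primes →₀ ℤ).support ∪ (y : Nat.Primes →₀ ℤ).support)
              Finset.subset_union_left,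
            hsum _ ((x : Nat.Primes →₀ ℤ).support ∪ (y : Nat.Primes →₀ ℤ).support)
              Finset.subset_union_right, ← Finset.sum_add_distrib]
          exact Finset.sum_congr rfl fun p _ => hx p }
    refine ⟨f, ?_⟩
    ext p
    change ((f (r p) : ℤ) : ZMod p) = a p
    rw [← hc p]
    congr 1
    have hp : ((p : ℕ) : ℤ) ≠ 0 := by exact_mod_cast p.2.ne_zero
    change (Finsupp.single p ((p : ℕ) : ℤ)).sum (fun p m => m / ((p : ℕ) : ℤ) * c p) = c p
    rw [Finsupp.sum_single_index (by simp), Int.ediv_self hp, one_mul]
  have hker : Φ.ker = (AddMonoidHom.compHom' (P := ℤ) R.subtype).range := by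
    ext f
    rw [AddMonoidHom.mem_ker]
    constructor
    · intro hf
      have hd : ∀ p : Nat.Primes, ∃ c : ℤ, f (r p) = ((p : ℕ) : ℤ) * c := by
        intro p
        have : ((f (r p) : ℤ) : ZMod p) = 0 := congrFun hf p
        exact (ZMod.intCast_zmod_eq_zero_iff_dvd _ _).1 this
      choose c hc using hd
      let g : (Nat.Primes →₀ ℤ) →+ ℤ := Finsupp.liftAddHom fun p => (zmultiplesHom ℤ) (c p)
      refine ⟨g, ?_⟩
      -- every element of `R` is a sum of multiples of the `r p`
      have key : ∀ (s : Finset Nat.Primes) (x : R), (x : Nat.Primes →₀ ℤ).support ⊆ s →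
          g x = f x := by
        intro s
        induction s using Finset.induction_on with
        | empty =>
          intro x hx
          have : x = 0 := by
            apply Subtype.ext
            exact Finsupp.support_eq_empty.1 (Finset.subset_empty.1 hx)
          rw [this]; simp
        | insert p s hps ih =>
          intro x hx
          obtain ⟨m, hm⟩ := x.2 p
          have hsup : ((x - m • r p : R) : Nat.Primes →₀ ℤ).support ⊆ s := by
            intro q hq
            have e : ((x - m • r p : R) : Nat.Primes →₀ ℤ) =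
                (x : Nat.Primes →₀ ℤ) - m • Finsupp.single p ((p : ℕ) : ℤ) := rfl
            rw [e, Finsupp.mem_support_iff, Finsupp.sub_apply, Finsupp.smul_apply] at hq
            by_cases hqp : p = q
            · subst hqp
              exfalso; apply hq
              rw [Finsupp.single_eq_same, hm, smul_eq_mul, mul_comm, sub_self]
            · rw [Finsupp.single_apply, if_neg hqp, smul_zero, sub_zero] at hq
              have := hx (Finsupp.mem_support_iff.2 hq)
              rcases Finset.mem_insert.1 this with h | h
              · exact absurd h.symm hqp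
              · exact h
          have h1 := ih (x - m • r p) hsup
          have h2 : g ((m • r p : R) : Nat.Primes →₀ ℤ) = f (m • r p) := by
            have e : ((m • r p : R) : Nat.Primes →₀ ℤ) =
                m • Finsupp.single p ((p : ℕ) : ℤ) := rfl
            rw [e, map_zsmul, map_zsmul, hc p]
            simp [g]
          have e1 : ((x - m • r p : R) : Nat.Primes →₀ ℤ) =
              (x : Nat.Primes →₀ ℤ) - ((m • r p : R) : Nat.Primes →₀ ℤ) := rfl
          rw [e1, map_sub, map_sub, h2] at h1
          linarith
      ext x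
      exact key _ x le_rfl
    · rintro ⟨g, rfl⟩
      ext p
      change ((g (Finsupp.single p ((p : ℕ) : ℤ)) : ℤ) : ZMod p) = 0
      have : (Finsupp.single p ((p : ℕ) : ℤ) : Nat.Primes →₀ ℤ) =
          ((p : ℕ) : ℤ) • Finsupp.single p 1 := by
        rw [Finsupp.smul_single, smul_eq_mul, mul_one]
      rw [this, map_zsmul]
      simp
  exact ⟨((QuotientAddGroup.quotientAddEquivOfEq hker).symm.trans
    (QuotientAddGroup.quotientKerEquivOfSurjective Φ hsurj)).symm⟩

end Pool.Agent.ExtSum
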