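import Pool.Agent.ExtSum.Lift

/-! Module TORSB: the kernel of `Ext(A/T,B) → Ext(A,B)`. -/

set_option autoImplicit false

namespace Pool.Agent.ExtSum

open Cardinal Set

variable {D C A : Type} [AddCommGroup D] [AddCommGroup C] [AddCommGroup A]
variable {π : D →+ C}

theorem TorsB_mk_zero {T : AddSubgroup A} {t : A} (ht : t ∈ T) :
    QuotientAddGroup.mk' T t = 0 := by
  rw [QuotientAddGroup.mk'_apply, QuotientAddGroup.eq_zero_iff]; exact ht

/-- the kernel of `Ext(A/T,B) → Ext(A,B)` has at most `|D|^|T|` elements -/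
theorem ext_quot (hD : Dvb D) (hC : Dvb C) (T : AddSubgroup A) :
    #(ExtIm π T) ≤ ext π (⊤ : AddSubgroup (A ⧸ T)) ∧
      ext π (⊤ : AddSubgroup (A ⧸ T)) ≤ #(ExtIm π T) * #D ^ #T := by
  classical
  -- the map
  let c : (A ⧸ T →+ C) →+ (A →+ C) :=
    { toFun := fun f => f.comp (QuotientAddGroup.mk' T)
      map_zero' := rfl
      map_add' := fun _ _ => rfl }
  have hc : Lft π (⊤ : AddSubgroup (A ⧸ T)) ≤ (Lft π (⊤ : AddSubgroup A)).comap c := by
    rintro f ⟨g, hg⟩
    exact ⟨g.comp (QuotientAddGroup.mk' T), fun x _ => hg _ (AddSubgroup.mem_top _)⟩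
  let Θ : ((A ⧸ T →+ C) ⧸ Lft π (⊤ : AddSubgroup (A ⧸ T))) →+
      ((A →+ C) ⧸ Lft π (⊤ : AddSubgroup A)) := QuotientAddGroup.map _ _ c hc
  have hΘ : ∀ f : A ⧸ T →+ C, Θ (QuotientAddGroup.mk' _ f) = QuotientAddGroup.mk' _ (c f) :=
    fun f => rfl
  have hrange : Θ.range = ExtIm π T := by
    ext x
    constructor
    · rintro ⟨y, rfl⟩
      obtain ⟨f, rfl⟩ := QuotientAddGroup.mk'_surjective _ y
      rw [hΘ]
      refine ⟨c f, ⟨0, fun t ht => ?_⟩, rfl⟩
      show π ((0 : A →+ D) t) = f (QuotientAddGroup.mk' T t)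
      rw [TorsB_mk_zero ht]
      simp
    · rintro ⟨f, ⟨g, hg⟩, rfl⟩
      have hker : T ≤ (f - π.comp g).ker := by
        intro t ht
        rw [AddMonoidHom.mem_ker]
        simp [hg t ht]
      refine ⟨QuotientAddGroup.mk' _ (QuotientAddGroup.lift T (f - π.comp g) hker), ?_⟩
      rw [hΘ]
      have h1 : c (QuotientAddGroup.lift T (f - π.comp g) hker) = f - π.comp g := by
        ext a
        rfl
      rw [h1, map_sub]
      have h2 : (QuotientAddGroup.mk' (Lft π (⊤ : AddSubgroup A))) (π.comp g) = 0 := by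
        rw [QuotientAddGroup.mk'_apply, QuotientAddGroup.eq_zero_iff]
        exact ⟨g, fun x _ => rfl⟩
      rw [h2, sub_zero]
  constructor
  · rw [← hrange]
    exact Cardinal.mk_range_le (f := Θ)
  · have hcard : ext π (⊤ : AddSubgroup (A ⧸ T)) = #Θ.range * #Θ.ker := by
      have e1 : ((A ⧸ T →+ C) ⧸ Lft π (⊤ : AddSubgroup (A ⧸ T))) ≃
        (((A ⧸ T →+ C) ⧸ Lft π (⊤ : AddSubgroup (A ⧸ T))) ⧸ Θ.ker) × Θ.ker :=
        AddSubgroup.addGroupEquivQuotientProdAddSubgroup
      have e2 := (QuotientAddGroup.quotientKerEquivRange Θ).toEquiv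
      unfold ext
      rw [Cardinal.mk_congr e1, Cardinal.mk_prod, Cardinal.lift_id, Cardinal.lift_id,
        Cardinal.mk_congr e2]
    rw [hcard, hrange]
    refine mul_le_mul_right ?_ _
    -- the kernel
    have hk : ∀ k : Θ.ker, ∃ (f : A ⧸ T →+ C) (g : A →+ D),
        QuotientAddGroup.mk' _ f = k.1 ∧ ∀ a, π (g a) = f (QuotientAddGroup.mk' T a) := by
      intro k
      obtain ⟨f, hf⟩ := QuotientAddGroup.mk'_surjective _ k.1
      have h1 : Θ (QuotientAddGroup.mk' _ f) = 0 := by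
        rw [hf]; exact k.2
      rw [hΘ, QuotientAddGroup.mk'_apply, QuotientAddGroup.eq_zero_iff] at h1
      obtain ⟨g, hg⟩ := h1
      exact ⟨f, g, hf, fun a => hg a (AddSubgroup.mem_top _)⟩
    choose F G hF hG using hk
    rw [Cardinal.power_def]
    refine Cardinal.mk_le_of_injective (f := fun (k : Θ.ker) (t : T) => G k (t : A)) ?_
    intro k k' hkk
    have hker : T ≤ (G k - G k').ker := by
      intro t ht
      have h1 : G k t = G k' t := congrFun hkk ⟨t, ht⟩
      rw [AddMonoidHom.mem_ker, AddMonoidHom.sub_apply, h1, sub_self]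
    have h2 : F k - F k' ∈ Lft π (⊤ : AddSubgroup (A ⧸ T)) := by
      refine ⟨QuotientAddGroup.lift T (G k - G k') hker, ?_⟩
      intro x _
      obtain ⟨a, rfl⟩ := QuotientAddGroup.mk'_surjective _ x
      have h3 : QuotientAddGroup.lift T (G k - G k') hker (QuotientAddGroup.mk' T a) =
          G k a - G k' a := rfl
      rw [h3, map_sub, hG, hG, AddMonoidHom.sub_apply]
    apply Subtype.ext
    rw [← hF k, ← hF k', ← sub_eq_zero, ← map_sub, QuotientAddGroup.mk'_apply,
      QuotientAddGroup.eq_zero_iff]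
    exact h2

end Pool.Agent.ExtSum
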