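import Pool.Agent.ExtSum.VExt
import Pool.Agent.ExtSum.RExt
import Pool.Agent.ExtSum.CardB
import Pool.Agent.ExtSum.Pres
import Pool.Agent.ExtSum.Tors
import Pool.Agent.ExtSum.TorsB
import Pool.Agent.ExtSum.Tors2

/-! Module RED: reduction of `Closure` to cardinalities of `Ext(F,B)` with `|B| ≤ 2^ℵ₀`. -/

set_option autoImplicit false

namespace Pool.Agent.ExtSum

open Cardinal Set

theorem red_prod : Red (∀ p : Nat.Primes, ZMod p) := by
  intro S hS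
  rw [eq_bot_iff]
  intro x hx
  change x = 0
  funext p
  obtain ⟨y, -, rfl⟩ := hS p p.2.ne_zero x hx
  change (p : ℕ) • y p = 0
  rw [nsmul_eq_mul, ZMod.natCast_self, zero_mul]

/-- the reduction for one group -/
theorem reduction_local (I : Type) (hI : 2 ^ 𝔠 < #I)
    (hE : IsExt ((I →₀ ℚ) × (∀ p : Nat.Primes, ZMod p))) :
    ∃ (D C F : Type) (_ : AddCommGroup D) (_ : AddCommGroup C) (_ : AddCommGroup F)
      (π : D →+ C), Function.Surjective π ∧ Dvb D ∧ Dvb C ∧ #D ≤ 𝔠 ∧ #C ≤ 𝔠 ∧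
      (∀ n : ℕ, n ≠ 0 → ∀ x : F, n • x = 0 → x = 0) ∧
      ext π (⊤ : AddSubgroup F) = #I := by
  have hc : ℵ₀ ≤ 𝔠 := aleph0_le_continuum
  have hc2 : 𝔠 < 2 ^ 𝔠 := cantor _
  have hμ0 : ℵ₀ ≤ #I := hc.trans (hc2.le.trans hI.le)
  have hInf : Infinite I := Cardinal.infinite_iff.2 hμ0
  have hVμ : #(I →₀ ℚ) = #I := mk_V I
  obtain ⟨A, D, C, _, _, _, π, hπ, hD, hC, hRed, hDk, ⟨e⟩⟩ := pres _ hE
  obtain ⟨h1, h2⟩ := tors_split hD hC (dvb_V I) red_prod ⟨e⟩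
  have hT := tors_card hD hC hπ h2
  have hK : #π.ker ≤ 𝔠 := card_reduced _ hRed fun p hp => ker_cyclic hD hC hπ h2 p hp
  have hDc : #D ≤ 𝔠 := hDk.trans (max_le hK hc)
  have hCc : #C ≤ 𝔠 := (mk_le_of_surjective hπ).trans hDc
  obtain ⟨h3, h4⟩ := ext_quot (π := π) hD hC (AddCommGroup.torsion A)
  refine ⟨D, C, A ⧸ AddCommGroup.torsion A, inferInstance, inferInstance, inferInstance, π, hπ,
    hD, hC, hDc, hCc, ?_, le_antisymm ?_ ?_⟩
  · intro n hn x hx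
    obtain ⟨a, rfl⟩ := QuotientAddGroup.mk_surjective x
    have h5 : ((n • a : A) : A ⧸ AddCommGroup.torsion A) = 0 := hx
    rw [QuotientAddGroup.eq_zero_iff] at h5 ⊢
    obtain ⟨m, hm, hm'⟩ := isOfFinAddOrder_iff_nsmul_eq_zero.1 h5
    refine isOfFinAddOrder_iff_nsmul_eq_zero.2 ⟨m * n, Nat.mul_pos hm (Nat.pos_of_ne_zero hn), ?_⟩
    rw [mul_nsmul', hm']
  · refine h4.trans ?_
    rw [h1, hVμ]
    have h5 : #D ^ #(AddCommGroup.torsion A) ≤ #I := by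
      calc #D ^ #(AddCommGroup.torsion A) ≤ 𝔠 ^ #(AddCommGroup.torsion A) :=
            power_le_power_right hDc
        _ ≤ 𝔠 ^ 𝔠 := power_le_power_left continuum_ne_zero hT
        _ = 2 ^ 𝔠 := power_self_eq hc
        _ ≤ #I := hI.le
    exact mul_le_of_le hμ0 le_rfl h5
  · rw [← hVμ, ← h1]
    exact h3

end Pool.Agent.ExtSum
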