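import Pool.Agent.ExtSum.Dia

/-! Module REG: filtrations of groups of regular cardinality. -/

set_option autoImplicit false

namespace Pool.Agent.ExtSum

open Cardinal Set

variable {D C X : Type} [AddCommGroup D] [AddCommGroup C] [AddCommGroup X]
variable {π : D →+ C}

theorem Reg_exists_gt {α : Type} [LinearOrder α] [WellFoundedLT α]
    [IsRegularCardinalOrder α] (hα : ℵ₀ < #α) (b : α) : ∃ a, b < a := by
  obtain ⟨a, ha⟩ := bdd_of_mk_lt hα ({b} : Set α)
    (by rw [Cardinal.mk_singleton]; exact Cardinal.one_lt_aleph0.trans hα)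
  exact ⟨a, ha b rfl⟩

theorem Reg_stat_inter {α : Type} [LinearOrder α] [WellFoundedLT α]
    [IsRegularCardinalOrder α] (hα : ℵ₀ < #α) {S E : Set α} (hS : IsStationary S)
    (hE : IsClub E) : IsStationary (S ∩ E) := by
  intro t ht
  have hcof : Order.cof α ≠ ℵ₀ := by
    rw [Order.cof_eq_cardinalMk]; exact hα.ne'
  have h := hS (hE.inter hcof ht)
  rwa [← inter_assoc] at h

theorem Reg_mono {α : Type} [LinearOrder α] (A : α → AddSubgroup X) {a a' : α} (h : a ≤ a') :
    (⨆ b < a, A b) ≤ ⨆ b < a', A b :=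
  iSup₂_le fun b hb => le_iSup₂_of_le b (lt_of_lt_of_le hb h) le_rfl

theorem reg_club (hD : Dvb D) (hC : Dvb C) {α : Type} [LinearOrder α] [WellFoundedLT α]
    [IsRegularCardinalOrder α] (hα : ℵ₀ < #α) (hDα : #D < #α)
    (dia : ∀ S : Set α, IsStationary S → WeakDiamond S)
    (A : α → AddSubgroup X) (hA : ∀ a, #(A a) < #α) (hext : ext π (⨆ a, A a) ≤ #α) :
    ∃ K : Set α, IsClub K ∧ ∀ c ∈ K, ∀ a, L π (⨆ b < c, A b) (⨆ b < a, A b) := by
  classical
  set S : Set α := {c | ∃ a, ¬ L π (⨆ b < c, A b) (⨆ b < a, A b)} with hSdef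
  by_cases hS : IsStationary S
  · exfalso
    have hw : ∀ c, ∃ w, c < w ∧ (c ∈ S → ¬ L π (⨆ b < c, A b) (⨆ b < w, A b)) := by
      intro c
      by_cases hc : c ∈ S
      · obtain ⟨a, ha⟩ := hc
        refine ⟨a, ?_, fun _ => ha⟩
        by_contra hca
        exact ha (L_of_le (Reg_mono A (not_lt.1 hca)))
      · obtain ⟨a, ha⟩ := Reg_exists_gt hα c
        exact ⟨a, ha, fun h => absurd h hc⟩
    choose w hw1 hw2 using hw
    have hcl := isClub_closed hα w
    set E : Set α := {a | ∀ b < a, w b < a} with hE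
    have hM : ∀ a ∈ E, (⨆ b < a, ⨆ b' < w b, A b') = ⨆ b < a, A b := by
      intro a ha
      apply le_antisymm
      · exact iSup₂_le fun b hb => Reg_mono A (ha b hb).le
      · exact iSup₂_le fun b hb =>
          le_iSup₂_of_le b hb (le_iSup₂_of_le b (hw1 b) le_rfl)
    have hlt := diamond_ext (π := π) hD hC hα hDα (S := S ∩ E)
      (dia _ (Reg_stat_inter hα hS hcl)) (fun b => ⨆ b' < w b, A b')
      (fun b => mk_partial_lt hα A hA (w b)) (by
        rintro a ⟨haS, haE⟩
        rw [hM a haE, sup_eq_right.2 (Reg_mono A (hw1 a).le)]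
        exact hw2 a haS)
    have htop : (⨆ b, ⨆ b' < w b, A b') = ⨆ a, A a := by
      apply le_antisymm
      · exact iSup_le fun b => iSup₂_le fun b' _ => le_iSup A b'
      · exact iSup_le fun b => le_iSup_of_le b (le_iSup₂_of_le b (hw1 b) le_rfl)
    rw [htop] at hlt
    exact absurd hlt (not_lt.2 hext)
  · rw [not_isStationary_iff] at hS
    obtain ⟨K, hK, hdis⟩ := hS
    refine ⟨K, hK, fun c hc a => ?_⟩
    by_contra h
    exact Set.disjoint_left.1 hdis (show c ∈ S from ⟨a, h⟩) hc

theorem reg_top (hD : Dvb D) {α : Type} [LinearOrder α] [WellFoundedLT α]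
    [IsRegularCardinalOrder α] (hα : ℵ₀ < #α) (A : α → AddSubgroup X)
    {K : Set α} (hK : IsClub K)
    (h : ∀ c ∈ K, ∀ a, L π (⨆ b < c, A b) (⨆ b < a, A b)) {c : α} (hc : c ∈ K) :
    L π (⨆ b < c, A b) (⨆ a, A a) := by
  classical
  have hne : ∀ a : α, {k | k ∈ K ∧ a < k}.Nonempty := by
    intro a
    obtain ⟨a', ha'⟩ := Reg_exists_gt hα a
    obtain ⟨k, hk, hk'⟩ := hK.isCofinal a'
    exact ⟨k, hk, lt_of_lt_of_le ha' hk'⟩
  let k : α → α := fun a => wellFounded_lt.min _ (hne a)
  have hk : ∀ a, k a ∈ K ∧ a < k a := fun a => wellFounded_lt.min_mem _ (hne a)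
  have hkmin : ∀ a x, x ∈ K → a < x → k a ≤ x := fun a x hx hax =>
    not_lt.1 (wellFounded_lt.not_lt_min {k | k ∈ K ∧ a < k} (show x ∈ _ from ⟨hx, hax⟩))
  have hkmono : Monotone k := fun a a' haa' =>
    hkmin a _ (hk a').1 (lt_of_le_of_lt haa' (hk a').2)
  have key := L_chain (π := π) hD (⨆ b < c, A b) (fun a => ⨆ b < k a, A b)
    (fun a a' haa' => Reg_mono A (hkmono haa')) (by
      intro i
      -- the set `t = {c} ∪ {k j | j < i}` is bounded by `max c (k i)`
      set t : Set α := insert c (k '' Iio i) with ht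
      have htK : t ⊆ K := by
        rintro x (rfl | ⟨j, _, rfl⟩)
        · exact hc
        · exact (hk j).1
      have htne : t.Nonempty := ⟨c, mem_insert _ _⟩
      have hub : (upperBounds t).Nonempty := by
        refine ⟨max c (k i), ?_⟩
        rintro x (rfl | ⟨j, hj, rfl⟩)
        · exact le_max_left _ _
        · exact (hkmono (le_of_lt hj)).trans (le_max_right _ _)
      let s : α := wellFounded_lt.min _ hub
      have hs : IsLUB t s := by
        refine ⟨wellFounded_lt.min_mem _ hub, fun y hy => ?_⟩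
        exact not_lt.1 (wellFounded_lt.not_lt_min (upperBounds t) hy)
      have hsK : s ∈ K := hK.isLUB_mem htK htne hs
      have heq : (⨆ b < c, A b) ⊔ (⨆ j < i, ⨆ b < k j, A b) = ⨆ b < s, A b := by
        apply le_antisymm
        · apply sup_le
          · exact Reg_mono A (hs.1 (mem_insert _ _))
          · exact iSup₂_le fun j hj => Reg_mono A (hs.1 (mem_insert_of_mem _ ⟨j, hj, rfl⟩))
        · refine iSup₂_le fun b hb => ?_
          have : ∃ x ∈ t, b < x := by
            by_contra hcon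
            push Not at hcon
            exact absurd hb (not_lt.2 (hs.2 hcon))
          obtain ⟨x, hx, hbx⟩ := this
          rcases hx with rfl | ⟨j, hj, rfl⟩
          · exact le_sup_of_le_left (le_iSup₂_of_le b hbx le_rfl)
          · exact le_sup_of_le_right (le_iSup₂_of_le j hj (le_iSup₂_of_le b hbx le_rfl))
      rw [heq]
      exact h s hsK (k i))
  have htop : (⨆ a, ⨆ b < k a, A b) = ⨆ a, A a := by
    apply le_antisymm
    · exact iSup_le fun b => iSup₂_le fun b' _ => le_iSup A b'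
    · exact iSup_le fun b => le_iSup_of_le b (le_iSup₂_of_le b (hk b).2 le_rfl)
  rw [htop] at key
  exact key

end Pool.Agent.ExtSum
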