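import Pool.Agent.ExtSum.Lift
import Pool.Agent.ExtSum.Card

/-! Module SC: strongly compact cardinals. -/

set_option autoImplicit false

namespace Pool.Agent.ExtSum

open Cardinal Set

variable {D C : Type} [AddCommGroup D] [AddCommGroup C]
variable {π : D →+ C}

/-- A `κ`-complete ultrafilter decides functions with fewer than `κ` values. -/
theorem SC_value {I V : Type} {κ : Cardinal.{0}} (U : Ultrafilter I)
    (hU : CardinalInterFilter (U : Filter I) κ) (hV : #V < κ) (F : I → V) :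
    ∃ v, {i | F i = v} ∈ (U : Filter I) := by
  by_contra hcon
  push Not at hcon
  have h1 : ∀ v, {i | F i = v}ᶜ ∈ (U : Filter I) := fun v =>
    Ultrafilter.compl_mem_iff_notMem.2 (hcon v)
  have h2 : (⋂ v, {i | F i = v}ᶜ) ∈ (U : Filter I) := (Filter.cardinal_iInter_mem hV).2 h1
  obtain ⟨i, hi⟩ := U.neBot.nonempty_of_mem h2
  rw [mem_iInter] at hi
  exact hi (F i) rfl

theorem sc_two_power {κ : Cardinal.{0}} (hκ : IsStronglyCompact κ) {l : Cardinal.{0}}
    (hl : l < κ) : 2 ^ l < κ := by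
  by_contra hcon
  rw [not_lt] at hcon
  obtain ⟨h0, hreg, hsc⟩ := hκ
  induction κ using Cardinal.inductionOn with
  | _ X =>
  induction l using Cardinal.inductionOn with
  | _ L =>
  have h1 : #X ≤ #(Set L) := by rwa [mk_set]
  obtain ⟨φ⟩ := h1
  have hne : (Filter.cocardinal X hreg).NeBot := by
    rw [Filter.neBot_iff]
    intro hbot
    have h2 : (∅ : Set X) ∈ Filter.cocardinal X hreg := by
      rw [hbot]; exact Filter.mem_bot
    rw [Filter.mem_cocardinal, compl_empty, mk_univ] at h2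
    exact lt_irrefl _ h2
  obtain ⟨U, hUf, hU⟩ := hsc X (Filter.cocardinal X hreg) hne inferInstance
  have h3 : ∀ i : L, ∃ b : Prop, {x | (i ∈ φ x) = b} ∈ (U : Filter X) := by
    intro i
    have := SC_value (V := Prop) U hU (by
      have : #Prop < ℵ₀ := by
        rw [mk_Prop]
        exact natCast_lt_aleph0 (n := 2)
      exact this.trans h0) (fun x => i ∈ φ x)
    exact this
  choose b hb using h3
  have h4 : (⋂ i, {x | (i ∈ φ x) = b i}) ∈ (U : Filter X) := (Filter.cardinal_iInter_mem hl).2 hb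
  obtain ⟨x, hx⟩ := U.neBot.nonempty_of_mem h4
  have h5 : (⋂ i, {x | (i ∈ φ x) = b i}) ⊆ {x} := by
    intro y hy
    rw [mem_singleton_iff]
    apply φ.injective
    ext i
    have h6 := mem_iInter.1 hx i
    have h7 := mem_iInter.1 hy i
    simp only [mem_ofPred_eq] at h6 h7
    rw [h6, h7]
  have h8 : {x} ∈ (U : Filter X) := Filter.mem_of_superset h4 h5
  have h9 : {x}ᶜ ∈ (U : Filter X) := by
    apply hUf
    apply Filter.compl_mem_cocardinal_of_card_lt
    rw [mk_singleton]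
    exact one_lt_aleph0.trans h0
  exact (Ultrafilter.compl_mem_iff_notMem.1 h9) h8

/-- The filter of the sets of small subsets of `X` which contain all small sets above a fixed
small set. -/
theorem SC_fine {κ : Cardinal.{0}} (hκ : IsStronglyCompact κ) (X : Type) :
    ∃ U : Ultrafilter {s : Set X // #s < κ}, CardinalInterFilter
      (U : Filter {s : Set X // #s < κ}) κ ∧
      ∀ x : X, {s : {s : Set X // #s < κ} | x ∈ s.1} ∈ (U : Filter {s : Set X // #s < κ}) := by
  obtain ⟨h0, hreg, hsc⟩ := hκ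
  let f : Filter {s : Set X // #s < κ} :=
    { sets := {A | ∃ Y : Set X, #Y < κ ∧ ∀ s : {s : Set X // #s < κ}, Y ⊆ s.1 → s ∈ A}
      univ_sets := ⟨∅, by rw [mk_eq_zero]; exact (zero_lt_one.trans one_lt_aleph0).trans h0,
        fun _ _ => mem_univ _⟩
      sets_of_superset := by
        rintro A B ⟨Y, hY, h⟩ hAB
        exact ⟨Y, hY, fun s hs => hAB (h s hs)⟩
      inter_sets := by
        rintro A B ⟨Y, hY, h⟩ ⟨Z, hZ, h'⟩
        refine ⟨Y ∪ Z, (mk_union_le Y Z).trans_lt (add_lt_of_lt h0.le hY hZ), fun s hs => ?_⟩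
        exact ⟨h s (subset_union_left.trans hs), h' s (subset_union_right.trans hs)⟩ }
  have hmem : ∀ A, A ∈ f ↔
      ∃ Y : Set X, #Y < κ ∧ ∀ s : {s : Set X // #s < κ}, Y ⊆ s.1 → s ∈ A := fun A => Iff.rfl
  have hne : f.NeBot := by
    rw [Filter.neBot_iff]
    intro hbot
    have h2 : (∅ : Set {s : Set X // #s < κ}) ∈ f := by
      rw [hbot]; exact Filter.mem_bot
    obtain ⟨Y, hY, h⟩ := (hmem _).1 h2
    exact h ⟨Y, hY⟩ Subset.rfl
  have hci : CardinalInterFilter f κ := by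
    refine ⟨fun S hS hSf => ?_⟩
    have h1 : ∀ A : S, ∃ Y : Set X, #Y < κ ∧ ∀ s : {s : Set X // #s < κ}, Y ⊆ s.1 → s ∈ A.1 :=
      fun A => (hmem _).1 (hSf A.1 A.2)
    choose Y hY hYs using h1
    refine (hmem _).2 ⟨⋃ A, Y A, ?_, fun s hs => ?_⟩
    · refine (mk_iUnion_le Y).trans_lt ?_
      refine mul_lt_of_lt h0.le hS ?_
      exact iSup_lt_of_lt_cof_ord (by rw [hreg.cof_ord]; exact hS) hY
    · rw [mem_sInter]
      intro A hA
      exact hYs ⟨A, hA⟩ s ((subset_iUnion Y ⟨A, hA⟩).trans hs)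
  obtain ⟨U, hUf, hU⟩ := hsc _ f hne hci
  refine ⟨U, hU, fun x => hUf ?_⟩
  refine (hmem _).2 ⟨{x}, ?_, fun s hs => ?_⟩
  · rw [mk_singleton]
    exact one_lt_aleph0.trans h0
  · exact hs (mem_singleton x)

theorem sc_compact {κ : Cardinal.{0}} (hκ : IsStronglyCompact κ) (hDκ : #D < κ) (X : Type)
    [AddCommGroup X] (f : X →+ C) (h : ∀ G : AddSubgroup X, #G < κ → f ∈ Lft π G) :
    f ∈ Lft π (⊤ : AddSubgroup X) := by
  obtain ⟨U, hU, hx⟩ := SC_fine hκ X
  have h0 : ℵ₀ < κ := hκ.1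
  have h1 : ∀ s : {s : Set X // #s < κ}, ∃ g : X →+ D, ∀ x ∈ s.1, π (g x) = f x := by
    intro s
    obtain ⟨g, hg⟩ := h (AddSubgroup.closure s.1)
      ((mk_closure_le s.1).trans_lt (max_lt s.2 h0))
    exact ⟨g, fun x hx => hg x (AddSubgroup.subset_closure hx)⟩
  choose g hg using h1
  have h2 : ∀ x : X, ∃ d : D, {s | g s x = d} ∈ (U : Filter {s : Set X // #s < κ}) := fun x =>
    SC_value U hU hDκ (fun s => g s x)
  choose v hv using h2
  refine ⟨{ toFun := v, map_zero' := ?_, map_add' := ?_ }, ?_⟩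
  · obtain ⟨s, hs⟩ := U.neBot.nonempty_of_mem (hv 0)
    have hs : g s 0 = v 0 := hs
    rw [← hs, map_zero]
  · intro x y
    obtain ⟨s, ⟨hs1, hs2⟩, hs3⟩ := U.neBot.nonempty_of_mem
      (Filter.inter_mem (Filter.inter_mem (hv x) (hv y)) (hv (x + y)))
    have hs1 : g s x = v x := hs1
    have hs2 : g s y = v y := hs2
    have hs3 : g s (x + y) = v (x + y) := hs3
    rw [← hs1, ← hs2, ← hs3, map_add]
  · intro x _
    obtain ⟨s, hs1, hs2⟩ := U.neBot.nonempty_of_mem (Filter.inter_mem (hv x) (hx x))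
    have hs1 : g s x = v x := hs1
    show π (v x) = f x
    rw [← hs1]
    exact hg s x hs2

theorem SC_step {κ : Cardinal.{0}} (hκ : IsStronglyCompact κ)
    (hDκ : #D < κ) (hCκ : #C < κ) (X : Type) [AddCommGroup X]
    (hext : ext π (⊤ : AddSubgroup X) = κ) (M : AddSubgroup X) (hM : #M < κ) :
    ∃ G : AddSubgroup X, #G < κ ∧ ∃ h : X →+ C, (∀ x ∈ M, h x = 0) ∧ h ∉ Lft π G := by
  by_contra hcon
  push Not at hcon
  have h0 : ℵ₀ < κ := hκ.1
  have h1 : ∀ h : X →+ C, (∀ x ∈ M, h x = 0) → h ∈ Lft π (⊤ : AddSubgroup X) := fun h hh =>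
    sc_compact hκ hDκ X h (fun G hG => hcon G hG h hh)
  have h2 : ext π (⊤ : AddSubgroup X) ≤ #(M → C) := by
    refine mk_le_of_injective (f := fun q : ((X →+ C) ⧸ Lft π (⊤ : AddSubgroup X)) =>
      fun x : M => (Quotient.out q : X →+ C) x) ?_
    intro q q' hq
    have h3 : (Quotient.out q : X →+ C) - Quotient.out q' ∈ Lft π (⊤ : AddSubgroup X) := by
      apply h1
      intro x hx
      have := congrFun hq ⟨x, hx⟩
      simp only at this
      rw [AddMonoidHom.sub_apply, this, sub_self]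
    have h4 := QuotientAddGroup.out_eq' q
    have h5 := QuotientAddGroup.out_eq' q'
    rw [← h4, ← h5, QuotientAddGroup.eq_iff_sub_mem]
    exact h3
  have h3 : #(M → C) < κ := by
    rw [← power_def]
    have h4 : #C ^ #M ≤ 2 ^ (max (#C) ℵ₀ * #M) := by
      rw [power_mul]
      refine power_le_power_right ?_
      exact (le_max_left (#C) ℵ₀).trans (cantor _).le
    exact h4.trans_lt (sc_two_power hκ (mul_lt_of_lt h0.le (max_lt hCκ h0) hM))
  rw [hext] at h2
  exact absurd h3 (not_lt.2 h2)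

theorem ext_ne_sc (hD : Dvb D) (hC : Dvb C) {κ : Cardinal.{0}} (hκ : IsStronglyCompact κ)
    (hDκ : #D < κ) (hCκ : #C < κ) (X : Type) [AddCommGroup X] :
    ext π (⊤ : AddSubgroup X) ≠ κ := by
  intro hext
  have h0 : ℵ₀ < κ := hκ.1
  obtain ⟨α, i1, i2, i3, hα⟩ := exists_regular_order κ hκ.2.1
  have hα0 : ℵ₀ < #α := by rw [hα]; exact h0
  obtain ⟨e⟩ : Nonempty (α ≃ ((X →+ C) ⧸ Lft π (⊤ : AddSubgroup X))) :=
    Cardinal.eq.1 (by rw [hα]; exact hext.symm)
  have hstep := SC_step (π := π) hκ hDκ hCκ X hext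
  classical
  let Φ : AddSubgroup X → AddSubgroup X := fun M => if hM : #M < κ then (hstep M hM).choose else ⊥
  have hΦ1 : ∀ M, #(Φ M) < κ := by
    intro M
    by_cases hM : #M < κ
    · have : Φ M = (hstep M hM).choose := dif_pos hM
      rw [this]
      exact (hstep M hM).choose_spec.1
    · have : Φ M = ⊥ := dif_neg hM
      rw [this]
      refine lt_of_le_of_lt ?_ h0
      exact (mk_le_aleph0 (α := (⊥ : AddSubgroup X)))
  have hΦ2 : ∀ M : AddSubgroup X, #M < κ →
      ∃ h : X →+ C, (∀ x ∈ M, h x = 0) ∧ h ∉ Lft π (Φ M) := by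
    intro M hM
    have : Φ M = (hstep M hM).choose := dif_pos hM
    rw [this]
    exact (hstep M hM).choose_spec.2
  obtain ⟨A, hA⟩ := exists_inc (I := α) Φ
  have hAlt : ∀ a, #(A a) < #α := fun a => by rw [hA, hα]; exact hΦ1 _
  have hMlt : ∀ a, #(⨆ b < a, A b : AddSubgroup X) < κ := fun a => by
    rw [← hα]; exact mk_partial_lt hα0 A hAlt a
  have hh : ∀ a, ∃ h : X →+ C, (∀ x ∈ (⨆ b < a, A b : AddSubgroup X), h x = 0) ∧
      h ∉ Lft π (A a) := fun a => by
    rw [hA a]; exact hΦ2 _ (hMlt a)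
  choose h hh1 hh2 using hh
  let N : α → AddSubgroup X := fun a => (⨆ b < a, A b) ⊔ A a
  have hAM : ∀ a b, a < b → A a ≤ (⨆ c < b, A c : AddSubgroup X) := fun a b hab =>
    le_iSup₂_of_le a hab le_rfl
  have hNM : ∀ a b, a < b → N a ≤ (⨆ c < b, A c : AddSubgroup X) := fun a b hab =>
    sup_le (iSup₂_le fun c hc => hAM c b (hc.trans hab)) (hAM a b hab)
  have hN : Monotone N := by
    intro a b hab
    rcases hab.eq_or_lt with rfl | hlt
    · exact le_rfl
    · exact (hNM a b hlt).trans le_sup_left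
  obtain ⟨f, hf⟩ := rec_hom hC N hN
    (fun a f => f - (Quotient.out (e a) : X →+ C) ∉ Lft π (N a))
    (by
      intro a g g' hgg hg hg'
      apply hg
      obtain ⟨k, hk⟩ := hg'
      refine ⟨k, fun x hx => ?_⟩
      rw [hk x hx, AddMonoidHom.sub_apply, AddMonoidHom.sub_apply, hgg x hx])
    (by
      intro a g _
      by_cases hg : g - (Quotient.out (e a) : X →+ C) ∈ Lft π (N a)
      · refine ⟨g + h a, fun j hj x hx => ?_, fun hg' => ?_⟩
        · rw [AddMonoidHom.add_apply, hh1 a x (hNM j a hj hx), add_zero]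
        · apply hh2 a
          have h3 : h a = (g + h a - (Quotient.out (e a) : X →+ C)) -
              (g - (Quotient.out (e a) : X →+ C)) := by abel
          have h4 : h a ∈ Lft π (N a) := by
            rw [h3]; exact AddSubgroup.sub_mem _ hg' hg
          exact Lft_anti le_sup_right h4
      · exact ⟨g, fun j _ x _ => rfl, hg⟩)
  obtain ⟨a, ha⟩ := e.surjective (QuotientAddGroup.mk f)
  apply hf a
  have h5 : f - (Quotient.out (e a) : X →+ C) ∈ Lft π (⊤ : AddSubgroup X) := by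
    rw [← QuotientAddGroup.eq_iff_sub_mem]
    rw [← ha]
    exact (QuotientAddGroup.out_eq' (e a)).symm
  exact Lft_anti le_top h5

end Pool.Agent.ExtSum
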