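import Pool.Agent.ExtSum.Hom
import Pool.Agent.ExtSum.Iso

/-! Module VEXT: every divisible torsion-free group of infinite cardinality `μ` is an
`Ext(ℚ,B)`. -/

set_option autoImplicit false

namespace Pool.Agent.ExtSum

open Cardinal Set

/-- The relations `e_n - (n+1) e_{n+1}` of `ℚ`. -/
noncomputable def VEXT_rho : (ℕ →₀ ℤ) →+ (ℕ →₀ ℤ) :=
  Finsupp.liftAddHom fun n => (zmultiplesHom (ℕ →₀ ℤ))
    (Finsupp.single n 1 - ((n + 1 : ℕ) : ℤ) • Finsupp.single (n + 1) 1)

theorem VEXT_rho_single (n : ℕ) : VEXT_rho (Finsupp.single n 1) =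
    Finsupp.single n 1 - ((n + 1 : ℕ) : ℤ) • Finsupp.single (n + 1) 1 := by
  simp [VEXT_rho]

/-- Solving `c_n - (n+1) c_{n+1} = h_n` in a group of exponent `p`. -/
theorem VEXT_solve {C : Type} [AddCommGroup C] (p : ℕ) (hp : 0 < p) (hC : ∀ c : C, p • c = 0)
    (h : ℕ → C) : ∃ c : ℕ → C, ∀ n, c n - ((n + 1 : ℕ) : ℤ) • c (n + 1) = h n := by
  refine ⟨fun n => ∑ k ∈ Finset.range p, (n + 1).ascFactorial k • h (n + k), fun n => ?_⟩
  have h1 : ∀ k, ((n + 1 : ℕ) : ℤ) • ((n + 1 + 1).ascFactorial k • h (n + 1 + k)) =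
      (n + 1).ascFactorial (k + 1) • h (n + (k + 1)) := by
    intro k
    have e : n + 1 + k = n + (k + 1) := by ring
    rw [natCast_zsmul, ← mul_nsmul', ← e]
    congr 1
    exact (Nat.succ_ascFactorial (n + 1) k).trans Nat.ascFactorial_succ.symm
  simp only [Finset.smul_sum, h1]
  have h2 : ∑ k ∈ Finset.range p, (n + 1).ascFactorial k • h (n + k) +
      (n + 1).ascFactorial p • h (n + p) = h n +
      ∑ k ∈ Finset.range p, (n + 1).ascFactorial (k + 1) • h (n + (k + 1)) := by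
    rw [← Finset.sum_range_succ (fun k => (n + 1).ascFactorial k • h (n + k)),
      Finset.sum_range_succ', add_comm]
    simp
  have h3 : (n + 1).ascFactorial p • h (n + p) = 0 := by
    obtain ⟨d, hd⟩ := (Nat.dvd_factorial hp le_rfl).trans (Nat.factorial_dvd_ascFactorial (n + 1) p)
    rw [hd, mul_nsmul, hC, smul_zero]
  rw [h3, add_zero] at h2
  rw [h2]
  abel

/-- The quotient by the relations is divisible. -/
theorem VEXT_gen {G : Type} [AddCommGroup G]
    (φ : ((ℕ →₀ ℤ) ⧸ VEXT_rho.range) →+ G) (n : ℕ) :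
    φ (QuotientAddGroup.mk' _ (Finsupp.single n 1)) =
      ((n + 1 : ℕ) : ℤ) • φ (QuotientAddGroup.mk' _ (Finsupp.single (n + 1) 1)) := by
  rw [← map_zsmul, ← map_zsmul, ← sub_eq_zero, ← map_sub, ← map_sub, ← VEXT_rho_single]
  have : QuotientAddGroup.mk' VEXT_rho.range (VEXT_rho (Finsupp.single n 1)) = 0 := by
    rw [← AddMonoidHom.mem_ker, QuotientAddGroup.ker_mk']
    exact ⟨_, rfl⟩
  rw [this, map_zero]

theorem VEXT_gen' {G : Type} [AddCommGroup G]
    (φ : ((ℕ →₀ ℤ) ⧸ VEXT_rho.range) →+ G) (n k : ℕ) :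
    φ (QuotientAddGroup.mk' _ (Finsupp.single n 1)) =
      (n + 1).ascFactorial k • φ (QuotientAddGroup.mk' _ (Finsupp.single (n + k) 1)) := by
  induction k with
  | zero => simp
  | succ k ih =>
    rw [ih, VEXT_gen φ (n + k), natCast_zsmul, ← mul_nsmul', Nat.ascFactorial_succ]
    congr 1
    ring

theorem VEXT_ext {G : Type} [AddCommGroup G]
    (φ ψ : ((ℕ →₀ ℤ) ⧸ VEXT_rho.range) →+ G)
    (h : ∀ n, φ (QuotientAddGroup.mk' _ (Finsupp.single n 1)) =
      ψ (QuotientAddGroup.mk' _ (Finsupp.single n 1))) : φ = ψ := by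
  apply QuotientAddGroup.addMonoidHom_ext
  ext n
  simpa using h n

/-- abstract form -/
theorem VEXT_isExt {V C' : Type} [AddCommGroup V] [AddCommGroup C'] (q : C' →+ V)
    (hq : Function.Surjective q) (hV : Dvb V) (hV0 : ∀ (n : ℕ) (v : V), n ≠ 0 → n • v = 0 → v = 0)
    (hC : ∀ c : C', (∀ n : ℕ, n ≠ 0 → ∃ c', n • c' = c) → c = 0)
    (hsol : ∀ h : ℕ → C', ∃ c : ℕ → C', ∀ n, c n - ((n + 1 : ℕ) : ℤ) • c (n + 1) = h n) :
    IsExt V := by
  classical
  refine ⟨ℕ, q.ker, inferInstance, VEXT_rho.range, ?_⟩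
  obtain ⟨E⟩ := iso_X VEXT_rho.range q.ker.subtype (Subtype.val_injective) q hq
    (AddSubgroup.range_subtype _) (by
    intro h
    obtain ⟨c, hc⟩ := hsol fun n => (h (VEXT_rho.rangeRestrict (Finsupp.single n 1)) : C')
    let h' : (ℕ →₀ ℤ) →+ C' := Finsupp.liftAddHom fun n => (zmultiplesHom C') (c n)
    have hh' : ∀ n, h' (Finsupp.single n 1) = c n := fun n => by simp [h']
    have key : h'.comp VEXT_rho = (q.ker.subtype.comp h).comp VEXT_rho.rangeRestrict := by
      ext n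
      simp only [AddMonoidHom.comp_apply, Finsupp.singleAddHom_apply]
      rw [VEXT_rho_single, map_sub, map_zsmul, hh', hh', hc n]
      rfl
    refine ⟨h', ?_⟩
    rintro ⟨x, y, rfl⟩
    exact DFunLike.congr_fun key y)
  -- `Hom(A, C') = 0`
  have hC0 : Lft q (⊤ : AddSubgroup ((ℕ →₀ ℤ) ⧸ VEXT_rho.range)) = ⊥ := by
    rw [eq_bot_iff]
    rintro f ⟨g, hg⟩
    have hg0 : g = 0 := by
      apply VEXT_ext
      intro n
      rw [AddMonoidHom.zero_apply]
      apply hC
      intro k hk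
      obtain ⟨d, hd⟩ := (Nat.dvd_factorial (Nat.pos_of_ne_zero hk) le_rfl).trans
        (Nat.factorial_dvd_ascFactorial (n + 1) k)
      refine ⟨d • g (QuotientAddGroup.mk' _ (Finsupp.single (n + k) 1)), ?_⟩
      rw [VEXT_gen' g n k, hd, mul_nsmul']
    change f = 0
    refine DFunLike.ext _ _ fun x => ?_
    rw [← hg x trivial, hg0]
    simp
  -- `Hom(A, V) = V`
  let ev : (((ℕ →₀ ℤ) ⧸ VEXT_rho.range) →+ V) →+ V :=
    AddMonoidHom.eval (QuotientAddGroup.mk' _ (Finsupp.single 0 1))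
  have hinj : Function.Injective ev := by
    rw [injective_iff_map_eq_zero]
    intro φ hφ
    apply VEXT_ext
    intro n
    rw [AddMonoidHom.zero_apply]
    have h1 : φ (QuotientAddGroup.mk' _ (Finsupp.single 0 1)) = 0 := hφ
    have h2 := VEXT_gen' φ 0 n
    rw [h1, zero_add, zero_add, Nat.one_ascFactorial] at h2
    exact hV0 _ _ (Nat.factorial_ne_zero n) h2.symm
  have hsurj : Function.Surjective ev := by
    intro v
    choose w hw using fun n : ℕ => hV n.factorial (Nat.factorial_ne_zero n) v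
    let f : (ℕ →₀ ℤ) →+ V := Finsupp.liftAddHom fun n => (zmultiplesHom V) (w n)
    have hf : ∀ n, f (Finsupp.single n 1) = w n := fun n => by simp [f]
    have hf0 : ∀ x ∈ VEXT_rho.range, f x = 0 := by
      rintro x ⟨y, rfl⟩
      have : f.comp VEXT_rho = 0 := by
        ext n
        simp only [AddMonoidHom.comp_apply, Finsupp.singleAddHom_apply, AddMonoidHom.zero_apply]
        rw [VEXT_rho_single, map_sub, map_zsmul, hf, hf]
        apply hV0 n.factorial _ (Nat.factorial_ne_zero n)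
        rw [nsmul_sub, hw n, natCast_zsmul, ← mul_nsmul', mul_comm, ← Nat.factorial_succ, hw (n + 1),
          sub_self]
      exact DFunLike.congr_fun this y
    refine ⟨QuotientAddGroup.lift _ f hf0, ?_⟩
    change f (Finsupp.single 0 1) = v
    rw [hf, ← hw 0]
    simp
  refine ⟨((E.trans (QuotientAddGroup.quotientAddEquivOfEq hC0)).trans
    (QuotientAddGroup.quotientBot.trans (AddEquiv.ofBijective ev ⟨hinj, hsurj⟩))).symm⟩

theorem dvb_V (I : Type) : Dvb (I →₀ ℚ) := by
  intro n hn x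
  refine ⟨(n : ℚ)⁻¹ • x, ?_⟩
  rw [← Nat.cast_smul_eq_nsmul ℚ, smul_smul, mul_inv_cancel₀ (by exact_mod_cast hn), one_smul]

/-- Every vector space over `ℚ` is a group `Ext(ℚ,B)`. -/
theorem isExt_V (I : Type) : IsExt (I →₀ ℚ) := by
  classical
  have hV : Dvb (I →₀ ℚ) := dvb_V I
  have hV0 : ∀ (n : ℕ) (v : I →₀ ℚ), n ≠ 0 → n • v = 0 → v = 0 := by
    intro n v hn h
    rw [← Nat.cast_smul_eq_nsmul ℚ] at h
    exact (smul_eq_zero.1 h).resolve_left (by exact_mod_cast hn)
  -- `C' = ∏ p, I → ZMod p`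
  let C' : Type := ∀ p : Nat.Primes, I → ZMod p
  let φ : (I →₀ ℤ) →+ C' :=
    { toFun := fun x p i => ((x i : ℤ) : ZMod p)
      map_zero' := by funext p i; exact Int.cast_zero
      map_add' := fun x y => by funext p i; exact Int.cast_add _ _ }
  let ψ : (I →₀ ℤ) →+ (I →₀ ℚ) := Finsupp.mapRange.addMonoidHom (Int.castAddHom ℚ)
  have hφ : ∀ x, φ x = 0 → x = 0 := by
    intro x hx
    ext i
    rw [Finsupp.zero_apply]
    by_contra hne
    obtain ⟨p, hp1, hp2⟩ := Nat.exists_infinite_primes ((x i).natAbs + 1)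
    have h1 : ((x i : ℤ) : ZMod p) = 0 := congrFun (congrFun hx ⟨p, hp2⟩) i
    rw [ZMod.intCast_zmod_eq_zero_iff_dvd] at h1
    have h2 := Int.natAbs_dvd_natAbs.2 h1
    rw [Int.natAbs_natCast] at h2
    have := Nat.le_of_dvd (Int.natAbs_pos.2 hne) h2
    omega
  obtain ⟨q, hq⟩ := fact hV φ ψ (fun a ha => by rw [hφ a ha, map_zero])
  -- `C'` is divisible modulo torsion
  have hdiv : ∀ (n : ℕ), n ≠ 0 → ∀ c : C', ∃ c' : C', q c = n • q c' := by
    intro n hn c
    let t : C' := fun p => if (p : ℕ) ∣ n then c p else 0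
    have ht : n • t = 0 := by
      ext p i
      by_cases hp : (p : ℕ) ∣ n
      · change n • (t p i) = 0
        rw [nsmul_eq_mul, (ZMod.natCast_eq_zero_iff n p).2 hp, zero_mul]
      · change n • (t p i) = 0
        have : t p = 0 := if_neg hp
        rw [this]; simp
    have hqt : q t = 0 := hV0 n _ hn (by rw [← map_nsmul, ht, map_zero])
    let c' : C' := fun p i => ((n : ZMod p))⁻¹ * (c p i - t p i)
    refine ⟨c', ?_⟩
    have e : c = n • c' + t := by
      ext p i
      change c p i = n • (((n : ZMod p))⁻¹ * (c p i - t p i)) + t p i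
      by_cases hp : (p : ℕ) ∣ n
      · have : t p = c p := if_pos hp
        rw [this]; simp
      · have hp' : (n : ZMod p) ≠ 0 := by
          rwa [Ne, ZMod.natCast_eq_zero_iff]
        have := Fact.mk p.2
        rw [nsmul_eq_mul, ← mul_assoc, mul_inv_cancel₀ hp']
        ring
    conv_lhs => rw [e]
    rw [map_add, hqt, add_zero, map_nsmul]
  have hqs : Function.Surjective q := by
    intro v
    induction v using Finsupp.induction_linear with
    | zero => exact ⟨0, map_zero _⟩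
    | add f g hf hg =>
      obtain ⟨a, rfl⟩ := hf
      obtain ⟨b, rfl⟩ := hg
      exact ⟨a + b, map_add _ _ _⟩
    | single i r =>
      obtain ⟨c', hc'⟩ := hdiv r.den r.den_nz (φ (Finsupp.single i r.num))
      refine ⟨c', ?_⟩
      rw [← sub_eq_zero]
      apply hV0 r.den _ r.den_nz
      rw [nsmul_sub, ← hc', hq, sub_eq_zero]
      simp only [ψ, Finsupp.mapRange.addMonoidHom_apply, Finsupp.mapRange_single,
        Finsupp.smul_single]
      congr 1
      rw [nsmul_eq_mul, mul_comm]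
      simp
  refine VEXT_isExt q hqs hV hV0 ?_ ?_
  · intro c hc
    ext p i
    obtain ⟨c', rfl⟩ := hc p p.2.ne_zero
    change (p : ℕ) • c' p i = 0
    rw [nsmul_eq_mul, ZMod.natCast_self, zero_mul]
  · intro h
    have : ∀ p : Nat.Primes, ∃ c : ℕ → (I → ZMod p),
        ∀ n, c n - ((n + 1 : ℕ) : ℤ) • c (n + 1) = h n p := by
      intro p
      refine VEXT_solve p p.2.pos ?_ _
      intro c
      ext i
      change (p : ℕ) • c i = 0
      rw [nsmul_eq_mul, ZMod.natCast_self, zero_mul]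
    choose c hc using this
    refine ⟨fun n p => c p n, fun n => ?_⟩
    funext p
    exact hc p n

theorem mk_V (I : Type) [Infinite I] : #(I →₀ ℚ) = #I := by
  rw [Cardinal.mk_finsupp_of_infinite]
  simp

theorem exists_V (μ : Cardinal.{0}) (hμ : ℵ₀ ≤ μ) :
    ∃ (V : Type) (_ : AddCommGroup V), IsExt V ∧ #V = μ ∧ Dvb V := by
  obtain ⟨I, rfl⟩ : ∃ I : Type, #I = μ := ⟨μ.out, mk_out μ⟩
  have hI : Infinite I := Cardinal.infinite_iff.2 hμ
  exact ⟨I →₀ ℚ, inferInstance, isExt_V I, mk_V I, dvb_V I⟩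

end Pool.Agent.ExtSum
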